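import Pool.Agent.Lib.MP_17a322_ntLG.C1

/-!
# LEAF GC2: sums over the cycles

PROOF.  Adapt `LVF.one`, `LVF.adjs`, `LVF.sumE` (file `MP_17a322_ntLF/Fc2.lean`).
-/

namespace LVG

open Finset
open LVF (Kb fr Nm vp Cyc Cu SL Cy Fs EW Pr Ix)

open Classical in
theorem one {p : ℕ} [Fact p.Prime] {q j s : ℕ} (ρ n r A R : ℕ) (hn1 : 1 ≤ n) (d : Fin s → ℕ) (B : Finset (Fin s))
    (hn : r + j = n + Bᶜ.card + 1) (hj : j + B.card = ρ * n + 1) (G : Finset (MvPolynomial (Fin q) (ZMod p)))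
    (e : Fin j → ℕ) (f : Fin j → MvPolynomial (Fin q) (ZMod p))
    (hA : ∀ u : Fin j → Kb p, (∀ l, u l ≠ 0) → ∀ F, 1 ≤ F → F ≤ ρ → Nat.card {w : Finset (Fin q → Kb p) × ZMod p //
      Fs w.1 ∧ w.1.card = F ∧ (∀ x ∈ w.1, ∀ h ∈ G, MvPolynomial.aeval x h = 0) ∧ Cu e f u w.1.val w.2} * p ^ (j + F) ≤
        A * p ^ (F * (r + j) + 1))
    {Ω : Type} [Finite Ω] [Nonempty Ω] {V : Ω → Fin s → (Fin q → Kb p) → Kb p} (hV1 : V1 V) (hV2 : V2 R G f V)
    (u : Fin j → Kb p) (hu : ∀ l, u l ≠ 0) (y : Fin s → Kb p) (hy : ∀ i, i ∈ B → y i ≠ 0)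
    (I : Finset (Finset (Fin q → Kb p))) (hI : ∀ T ∈ I, T ∈ Ix ρ G e f u) (W : Finset (Fin q → Kb p)) (hW : Fs W)
    (hWG : ∀ x ∈ W, x ∈ Gp G f) (hd : W.card + ρ ≤ R) (X : Ω → Prop) (hX : Sp V W X) :
    ∑ T ∈ I, Pr (fun a => X a ∧ Ev e f u d B y V T a) ≤ 2 ^ W.card * (A * ρ ^ B.card + 1) * Pr X := by
  have hPX : 0 ≤ Pr X := LVF.pr_nonneg X
  have hC : (0 : ℝ) ≤ (A : ℝ) * (ρ : ℝ) ^ B.card := by positivity
  have hp1 : ((p : ℝ))⁻¹ ≤ 1 := by
    have h1 : (1 : ℝ) ≤ p := by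
      have h2 : 1 ≤ p := (Fact.out : p.Prime).one_lt.le
      exact_mod_cast h2
    exact inv_le_one_of_one_le₀ h1
  have hmono : ∀ T, Pr (fun a => X a ∧ Ev e f u d B y V T a) ≤ Pr X := fun T => LVF.pr_mono fun a ha => ha.1
  have hnn : ∀ T, 0 ≤ Pr (fun a => X a ∧ Ev e f u d B y V T a) := fun T => LVF.pr_nonneg _
  rw [← Finset.sum_fiberwise_of_maps_to (s := I) (t := W.powerset) (g := fun T => T ∩ W)
    (fun T _ => Finset.mem_powerset.2 Finset.inter_subset_right)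
    (fun T => Pr (fun a => X a ∧ Ev e f u d B y V T a))]
  have hterm : ∀ W' ∈ W.powerset, ∑ T ∈ I.filter (fun T => T ∩ W = W'), Pr (fun a => X a ∧ Ev e f u d B y V T a) ≤
      ((A : ℝ) * (ρ : ℝ) ^ B.card + 1) * Pr X := by
    intro W' _
    rcases Nat.lt_or_ge W'.card ρ with h | h
    · refine (step ρ n r A R hn1 d B hn hj G e f hA hV1 hV2 u hu y hy I hI W hW hWG hd X hX W' h).trans ?_
      refine mul_le_mul_of_nonneg_right ?_ hPX
      have h1 : (if W' = ∅ then (1 : ℝ) else (p : ℝ)⁻¹) ≤ 1 := by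
        split_ifs
        · exact le_refl _
        · exact hp1
      have h2 := mul_le_mul_of_nonneg_right h1 hC
      linarith
    · have hsub : I.filter (fun T => T ∩ W = W') ⊆ {W'} := by
        intro T hT
        obtain ⟨h1, h2⟩ := Finset.mem_filter.1 hT
        have h3 : T.card = ρ := (hI T h1).2.1
        have h4 : W' ⊆ T := by
          rw [← h2]
          exact Finset.inter_subset_left
        rw [Finset.mem_singleton]
        exact (Finset.eq_of_subset_of_card_le h4 (by rw [h3]; exact h)).symm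
      refine (Finset.sum_le_sum_of_subset_of_nonneg hsub fun T _ _ => hnn T).trans ?_
      rw [Finset.sum_singleton]
      refine (hmono W').trans ?_
      have h5 : 1 * Pr X ≤ ((A : ℝ) * (ρ : ℝ) ^ B.card + 1) * Pr X :=
        mul_le_mul_of_nonneg_right (by linarith) hPX
      rw [one_mul] at h5
      exact h5
  refine (Finset.sum_le_sum hterm).trans ?_
  rw [Finset.sum_const, Finset.card_powerset, nsmul_eq_mul, Nat.cast_pow, Nat.cast_ofNat, mul_assoc]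

open Classical in
theorem adjs {p : ℕ} [Fact p.Prime] {q j s : ℕ} (ρ n r A R : ℕ) (hn1 : 1 ≤ n) (d : Fin s → ℕ) (B : Finset (Fin s))
    (hn : r + j = n + Bᶜ.card + 1) (hj : j + B.card = ρ * n + 1) (G : Finset (MvPolynomial (Fin q) (ZMod p)))
    (e : Fin j → ℕ) (f : Fin j → MvPolynomial (Fin q) (ZMod p))
    (hA : ∀ u : Fin j → Kb p, (∀ l, u l ≠ 0) → ∀ F, 1 ≤ F → F ≤ ρ → Nat.card {w : Finset (Fin q → Kb p) × ZMod p //
      Fs w.1 ∧ w.1.card = F ∧ (∀ x ∈ w.1, ∀ h ∈ G, MvPolynomial.aeval x h = 0) ∧ Cu e f u w.1.val w.2} * p ^ (j + F) ≤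
        A * p ^ (F * (r + j) + 1))
    {Ω : Type} [Finite Ω] [Nonempty Ω] {V : Ω → Fin s → (Fin q → Kb p) → Kb p} (hV1 : V1 V) (hV2 : V2 R G f V)
    (u : Fin j → Kb p) (hu : ∀ l, u l ≠ 0) (y : Fin s → Kb p) (hy : ∀ i, i ∈ B → y i ≠ 0)
    (I : Finset (Finset (Fin q → Kb p))) (hI : ∀ T ∈ I, T ∈ Ix ρ G e f u) (T : Finset (Fin q → Kb p)) (hT : T ∈ I)
    (hd : 2 * ρ ≤ R) (X : Ω → Prop) (hX : Sp V T X) :
    ∑ T' ∈ I.filter (fun T' => T' ≠ T ∧ ¬ Disjoint T T'), Pr (fun a => X a ∧ Ev e f u d B y V T' a) ≤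
      2 ^ ρ * (A * ρ ^ B.card) * (p : ℝ)⁻¹ * Pr X := by
  have hPX : 0 ≤ Pr X := LVF.pr_nonneg X
  have hC : (0 : ℝ) ≤ (A : ℝ) * (ρ : ℝ) ^ B.card := by positivity
  have hp0 : (0 : ℝ) ≤ ((p : ℝ))⁻¹ := by positivity
  have hnn : ∀ T', 0 ≤ Pr (fun a => X a ∧ Ev e f u d B y V T' a) := fun T' => LVF.pr_nonneg _
  have hTI := hI T hT
  have hTc : T.card = ρ := hTI.2.1
  have hbd : 0 ≤ (p : ℝ)⁻¹ * ((A : ℝ) * (ρ : ℝ) ^ B.card) * Pr X := by positivity
  rw [← Finset.sum_fiberwise_of_maps_to (s := I.filter (fun T' => T' ≠ T ∧ ¬ Disjoint T T')) (t := T.powerset)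
    (g := fun T' => T' ∩ T)
    (fun T' _ => Finset.mem_powerset.2 Finset.inter_subset_right)
    (fun T' => Pr (fun a => X a ∧ Ev e f u d B y V T' a))]
  have hterm : ∀ W' ∈ T.powerset, ∑ T' ∈ (I.filter (fun T' => T' ≠ T ∧ ¬ Disjoint T T')).filter
      (fun T' => T' ∩ T = W'), Pr (fun a => X a ∧ Ev e f u d B y V T' a) ≤
      (p : ℝ)⁻¹ * ((A : ℝ) * (ρ : ℝ) ^ B.card) * Pr X := by
    intro W' hW'
    by_cases h0 : W' = ∅
    · have hemp : (I.filter (fun T' => T' ≠ T ∧ ¬ Disjoint T T')).filter (fun T' => T' ∩ T = W') = ∅ := by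
        refine Finset.filter_eq_empty_iff.2 ?_
        intro T' hT' h1
        have h2 := (Finset.mem_filter.1 hT').2.2
        apply h2
        rw [disjoint_comm, Finset.disjoint_iff_inter_eq_empty, h1, h0]
      rw [hemp, Finset.sum_empty]
      exact hbd
    · rcases Nat.lt_or_ge W'.card ρ with h | h
      · have h1 := step ρ n r A R hn1 d B hn hj G e f hA hV1 hV2 u hu y hy I hI T hTI.1
          (ix_gp hu hTI) (by rw [hTc]; omega) X hX W' h
        rw [if_neg h0] at h1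
        refine le_trans ?_ h1
        refine Finset.sum_le_sum_of_subset_of_nonneg ?_ fun T' _ _ => hnn T'
        intro T' hT'
        obtain ⟨h2, h3⟩ := Finset.mem_filter.1 hT'
        exact Finset.mem_filter.2 ⟨(Finset.mem_filter.1 h2).1, h3⟩
      · have hemp : (I.filter (fun T' => T' ≠ T ∧ ¬ Disjoint T T')).filter (fun T' => T' ∩ T = W') = ∅ := by
          refine Finset.filter_eq_empty_iff.2 ?_
          intro T' hT' h1
          obtain ⟨h2, h3, _⟩ := Finset.mem_filter.1 hT'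
          have h4 : T'.card = ρ := (hI T' h2).2.1
          have h5 : W' ⊆ T' := by
            rw [← h1]
            exact Finset.inter_subset_left
          have h6 : W' ⊆ T := Finset.mem_powerset.1 hW'
          have h7 : W' = T' := Finset.eq_of_subset_of_card_le h5 (by rw [h4]; exact h)
          have h8 : W' = T := Finset.eq_of_subset_of_card_le h6 (by rw [hTc]; exact h)
          exact h3 (h7.symm.trans h8)
        rw [hemp, Finset.sum_empty]
        exact hbd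
  refine (Finset.sum_le_sum hterm).trans ?_
  rw [Finset.sum_const, Finset.card_powerset, nsmul_eq_mul, Nat.cast_pow, Nat.cast_ofNat, hTc]
  apply le_of_eq
  ring

open Classical in
theorem sumE {p : ℕ} [Fact p.Prime] {q j s : ℕ} (ρ n r A R : ℕ) (hρ : 1 ≤ ρ) (hn1 : 1 ≤ n) (d : Fin s → ℕ)
    (B : Finset (Fin s))
    (hn : r + j = n + Bᶜ.card + 1) (hj : j + B.card = ρ * n + 1) (G : Finset (MvPolynomial (Fin q) (ZMod p)))
    (e : Fin j → ℕ) (f : Fin j → MvPolynomial (Fin q) (ZMod p))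
    (hA : ∀ u : Fin j → Kb p, (∀ l, u l ≠ 0) → ∀ F, 1 ≤ F → F ≤ ρ → Nat.card {w : Finset (Fin q → Kb p) × ZMod p //
      Fs w.1 ∧ w.1.card = F ∧ (∀ x ∈ w.1, ∀ h ∈ G, MvPolynomial.aeval x h = 0) ∧ Cu e f u w.1.val w.2} * p ^ (j + F) ≤
        A * p ^ (F * (r + j) + 1))
    {Ω : Type} [Finite Ω] [Nonempty Ω] {V : Ω → Fin s → (Fin q → Kb p) → Kb p} (hV1 : V1 V) (hV2 : V2 R G f V)
    (u : Fin j → Kb p) (hu : ∀ l, u l ≠ 0) (y : Fin s → Kb p) (hy : ∀ i, i ∈ B → y i ≠ 0)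
    (I : Finset (Finset (Fin q → Kb p))) (hI : ∀ T ∈ I, T ∈ Ix ρ G e f u) (hd : ρ ≤ R) :
    ∑ T ∈ I, Pr (Ev e f u d B y V T) ≤ A * ρ ^ B.card := by
  have h1 := step ρ n r A R hn1 d B hn hj G e f hA hV1 hV2 u hu y hy I hI ∅ (fun x hx => absurd hx (Finset.notMem_empty x))
    (fun x hx => absurd hx (Finset.notMem_empty x)) (by rw [Finset.card_empty]; omega) (fun _ => True) (fun _ _ _ => Iff.rfl) ∅
    (by rw [Finset.card_empty]; omega)
  rw [if_pos rfl, one_mul, LVF.pr_true, mul_one] at h1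
  refine le_trans (le_of_eq ?_) h1
  have h2 : I.filter (fun T => T ∩ ∅ = ∅) = I := by
    refine Finset.filter_true_of_mem fun T _ => ?_
    exact Finset.inter_empty T
  rw [h2]
  refine Finset.sum_congr rfl fun T _ => ?_
  have h3 : (fun a => True ∧ Ev e f u d B y V T a) = Ev e f u d B y V T := by
    funext a
    exact propext ⟨fun h => h.2, fun h => ⟨trivial, h⟩⟩
  rw [h3]

end LVG
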