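import Pool.Agent.Lib.MP_17a322_ntLG.C1

/-!
# LEAF GC3: the probability of one cycle

PROOF.  Adapt `LVF.prE` (file `MP_17a322_ntLF/Fc3.lean`), with `V3` in place of `LVF.sz` and `M` in place of `ρ ^ b` (the points of `T` are in `Gp G f` by `ix_gp`).
-/

namespace LVG

open Finset
open LVF (Kb fr Nm vp Cyc Cu SL Cy Fs EW Pr Ix)

private theorem C3_fr {p : ℕ} [Fact p.Prime] {q : ℕ} {T : Finset (Fin q → Kb p)} (hT : Fs T) :
    T.val.map (fr p) = T.val := by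
  classical
  have hinj : Function.Injective (fr p : (Fin q → Kb p) → Fin q → Kb p) := by
    intro z z' h
    funext t
    have h1 : frobenius (Kb p) p (z t) = frobenius (Kb p) p (z' t) := congrFun h t
    exact frobenius_inj (Kb p) p h1
  have h1 : T.image (fr p) = T := by
    refine Finset.eq_of_subset_of_card_le ?_ ?_
    · intro x hx
      obtain ⟨y, hy, rfl⟩ := Finset.mem_image.1 hx
      exact (hT y hy).2
    · rw [Finset.card_image_of_injective _ hinj]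
  have h2 := Finset.image_val_of_injOn (hinj.injOn (s := (T : Set (Fin q → Kb p))))
  rw [h1] at h2
  exact h2.symm

private theorem C3_pr {p : ℕ} [Fact p.Prime] {q j s ρ M : ℕ} (hρ : 1 ≤ ρ) (d : Fin s → ℕ)
    (B : Finset (Fin s)) {G : Finset (MvPolynomial (Fin q) (ZMod p))} {f : Fin j → MvPolynomial (Fin q) (ZMod p)}
    {Ω : Type} [Finite Ω] [Nonempty Ω] {V : Ω → Fin s → (Fin q → Kb p) → Kb p} (hV3 : V3 ρ M G f d B V)
    {T : Finset (Fin q → Kb p)} (hT : Fs T) (hG : ∀ x ∈ T, x ∈ Gp G f) (hc : T.card = ρ) {μ : Kb p} (hμ : μ ≠ 0)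
    (y : Fin s → Kb p) :
    Pr (fun a : Ω => Cy d B y (V a) T.val μ) ≤ (M : ℝ) / (p : ℝ) ^ (B.card + ρ * Bᶜ.card) := by
  classical
  have hp : (0 : ℝ) < p := by exact_mod_cast (Fact.out : p.Prime).pos
  have h2 : Multiset.card T.val = ρ := hc
  have h3 := hV3 T.val (C3_fr hT) hG (by rw [h2]; exact hρ) (by rw [h2]) μ hμ y
  rw [Finset.val_toFinset, hc] at h3
  have h6 : (0 : ℝ) < Nat.card Ω := by exact_mod_cast Nat.card_pos
  unfold Pr
  rw [div_le_div_iff₀ h6 (by positivity)]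
  exact_mod_cast h3

private theorem C3_card {p : ℕ} [Fact p.Prime] {q j D : ℕ} (e : Fin j → ℕ)
    (he : ∀ l, 1 ≤ e l ∧ e l ≤ D) (f : Fin j → MvPolynomial (Fin q) (ZMod p)) (u : Fin j → Kb p)
    (hu : ∀ l, u l ≠ 0) (Z : Multiset (Fin q → Kb p)) (hj : 1 ≤ j) (I : Finset (ZMod p))
    (hI : ∀ μ ∈ I, Cu e f u Z μ) : I.card ≤ D := by
  classical
  obtain ⟨l, -⟩ : ∃ l : Fin j, True := ⟨⟨0, hj⟩, trivial⟩
  have h1 : I.image (algebraMap (ZMod p) (Kb p)) ⊆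
      (Polynomial.nthRoots (e l) (u l / vp Z (f l))).toFinset := by
    intro x hx
    obtain ⟨μ, hμ, rfl⟩ := Finset.mem_image.1 hx
    have h2 := (hI μ hμ).2 l
    have h3 : vp Z (f l) ≠ 0 := by
      intro h
      rw [h, mul_zero] at h2
      exact hu l h2.symm
    rw [Multiset.mem_toFinset, Polynomial.mem_nthRoots (he l).1, eq_div_iff h3, h2]
  have h4 := Finset.card_le_card h1
  rw [Finset.card_image_of_injective _ (algebraMap (ZMod p) (Kb p)).injective] at h4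
  exact h4.trans ((Multiset.toFinset_card_le _).trans
    ((Polynomial.card_nthRoots _ _).trans (he l).2))

theorem prE {p : ℕ} [Fact p.Prime] {q j s : ℕ} (ρ n D M : ℕ) (hρ : 1 ≤ ρ) (hn1 : 1 ≤ n) (hs : 1 ≤ s) (hD : 1 ≤ D)
    (d : Fin s → ℕ) (B : Finset (Fin s)) (hj : j + B.card = ρ * n + 1) (G : Finset (MvPolynomial (Fin q) (ZMod p)))
    (e : Fin j → ℕ) (he : ∀ l, 1 ≤ e l ∧ e l ≤ D) (f : Fin j → MvPolynomial (Fin q) (ZMod p))
    {Ω : Type} [Finite Ω] [Nonempty Ω] {V : Ω → Fin s → (Fin q → Kb p) → Kb p} (hV3 : V3 ρ M G f d B V)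
    (u : Fin j → Kb p) (hu : ∀ l, u l ≠ 0) (y : Fin s → Kb p)
    (T : Finset (Fin q → Kb p)) (hT : T ∈ Ix ρ G e f u) :
    Pr (Ev e f u d B y V T) ≤ D * M * (p : ℝ)⁻¹ := by
  classical
  have hG := ix_gp hu hT
  obtain ⟨hFs, hc, -, -⟩ := hT
  have hp : (0 : ℝ) < p := by exact_mod_cast (Fact.out : p.Prime).pos
  have hp1 : (1 : ℝ) ≤ p := by exact_mod_cast (Fact.out : p.Prime).one_lt.le
  obtain ⟨I, hI⟩ : ∃ I : Finset (ZMod p), ∀ μ, μ ∈ I ↔ Cu e f u T.val μ :=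
    ⟨Finset.univ.filter fun μ => Cu e f u T.val μ, fun μ => by simp⟩
  have h1 : Pr (Ev e f u d B y V T) ≤ Pr (fun a => ∃ μ ∈ I,
      (fun a : Ω => Cy d B y (V a) T.val
        (algebraMap (ZMod p) (Kb p) μ)) a) := by
    refine LVF.pr_mono fun a ha => ?_
    obtain ⟨μ, h2, h3⟩ := ha
    exact ⟨μ, (hI μ).2 h2, h3⟩
  have h2 := LVF.pr_ex I (fun (μ : ZMod p) (a : Ω) =>
    Cy d B y (V a) T.val (algebraMap (ZMod p) (Kb p) μ))
  have h3 : ∑ μ ∈ I, Pr (fun a : Ω =>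
      Cy d B y (V a) T.val (algebraMap (ZMod p) (Kb p) μ)) ≤
      I.card * ((M : ℝ) / (p : ℝ) ^ (B.card + ρ * Bᶜ.card)) := by
    have h4 := Finset.sum_le_card_nsmul I (fun μ => Pr (fun a : Ω =>
      Cy d B y (V a) T.val (algebraMap (ZMod p) (Kb p) μ))) _ fun μ hμ =>
        C3_pr hρ d B hV3 hFs hG hc (μ := algebraMap (ZMod p) (Kb p) μ)
          ((map_ne_zero _).2 ((hI μ).1 hμ).1) y
    rwa [nsmul_eq_mul] at h4
  refine (h1.trans h2).trans (h3.trans ?_)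
  have hρ0 : (0 : ℝ) ≤ (M : ℝ) := by positivity
  rcases Nat.eq_zero_or_pos j with h0 | h0
  · have h5 : 2 ≤ B.card + ρ * Bᶜ.card := by
      have h6 : 1 ≤ ρ * n := Nat.mul_le_mul hρ hn1
      omega
    have h6 : (I.card : ℝ) ≤ p := by
      have h7 := Finset.card_le_univ I
      rw [ZMod.card] at h7
      exact_mod_cast h7
    have h8 : (p : ℝ) ^ 2 ≤ (p : ℝ) ^ (B.card + ρ * Bᶜ.card) := pow_le_pow_right₀ hp1 h5
    calc (I.card : ℝ) * ((M : ℝ) / (p : ℝ) ^ (B.card + ρ * Bᶜ.card))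
        ≤ p * ((M : ℝ) / (p : ℝ) ^ 2) := by gcongr
      _ = 1 * (M : ℝ) * (p : ℝ)⁻¹ := by
          field_simp
      _ ≤ D * (M : ℝ) * (p : ℝ)⁻¹ := by
          have h9 : (1 : ℝ) ≤ D := by exact_mod_cast hD
          gcongr
  · have h5 : 1 ≤ B.card + ρ * Bᶜ.card := by
      have h6 : B.card + Bᶜ.card = s := by
        rw [Finset.card_add_card_compl, Fintype.card_fin]
      have h7 : Bᶜ.card ≤ ρ * Bᶜ.card := Nat.le_mul_of_pos_left _ hρ
      omega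
    have h6 : (I.card : ℝ) ≤ D := by
      exact_mod_cast C3_card e he f u hu T.val h0 I fun μ hμ => (hI μ).1 hμ
    have h8 : (p : ℝ) ^ 1 ≤ (p : ℝ) ^ (B.card + ρ * Bᶜ.card) := pow_le_pow_right₀ hp1 h5
    calc (I.card : ℝ) * ((M : ℝ) / (p : ℝ) ^ (B.card + ρ * Bᶜ.card))
        ≤ D * ((M : ℝ) / (p : ℝ) ^ 1) := by gcongr
      _ = D * (M : ℝ) * (p : ℝ)⁻¹ := by
          rw [pow_one, mul_div_assoc', div_eq_mul_inv]

end LVG
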