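import Pool.Agent.Lib.MP_17a322_ntLF.Defs

/-!
# LEAF GD1: Galois descent and equidistribution

PROOF.  As `LVF.desc`, `LVF.ew_le` (file `MP_17a322_ntLF/Fa2.lean`) and `LVF.ev1` (file `Fa3.lean`), with a finite type `Y` and a bijection `σ` in place of `W` and `fr p`.  (1) Elements `v i` of the `ZMod p`-space `E = {v | ∀ y, v (σ y) = v y ^ p}` which are linearly independent over `ZMod p` are linearly independent over `Kb p` (a shortest relation; `σ` is onto).  (2) So `E` has at most `p ^ card Y` elements (finite, `finrank ≤ card Y`).  (3) The range of `T` is in `E` (`hT`) and spans `Y → Kb p` over `Kb p` (`hs`), so its dimension over `ZMod p` is at least `card Y`; hence the range is `E`, of `p ^ card Y` elements, and each fibre over an element of `E` has `p ^ N / p ^ card Y` elements (cosets of the kernel).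
-/

namespace LVG

open Finset
open LVF (Kb)

private theorem GD1_fix {p : ℕ} [Fact p.Prime] {x : Kb p} (hx : x ^ p = x) :
    ∃ a : ZMod p, algebraMap (ZMod p) (Kb p) a = x := by
  classical
  have hp : 1 < p := (Fact.out : p.Prime).one_lt
  let f : Polynomial (Kb p) := Polynomial.X ^ p - Polynomial.X
  have hf0 : f ≠ 0 := FiniteField.X_pow_card_sub_X_ne_zero (Kb p) hp
  have hdeg : f.natDegree = p := FiniteField.X_pow_card_sub_X_natDegree_eq (Kb p) hp
  have hroot : ∀ y : Kb p, y ∈ f.roots.toFinset ↔ y ^ p = y := by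
    intro y
    rw [Multiset.mem_toFinset, Polynomial.mem_roots hf0, Polynomial.IsRoot.def]
    simp only [f, Polynomial.eval_sub, Polynomial.eval_pow, Polynomial.eval_X]
    exact sub_eq_zero
  let S : Finset (Kb p) := Finset.univ.image (algebraMap (ZMod p) (Kb p))
  have hS : S.card = p := by
    rw [Finset.card_image_of_injective _ (algebraMap (ZMod p) (Kb p)).injective, Finset.card_univ, ZMod.card]
  have hsub : S ⊆ f.roots.toFinset := by
    intro y hy
    obtain ⟨a, _, rfl⟩ := Finset.mem_image.1 hy
    rw [hroot, ← map_pow, ZMod.pow_card]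
  have hcard : f.roots.toFinset.card ≤ S.card := by
    rw [hS]
    exact (Multiset.toFinset_card_le _).trans ((Polynomial.card_roots' f).trans hdeg.le)
  have heq := Finset.eq_of_subset_of_card_le hsub hcard
  have hx' : x ∈ S := by
    rw [heq]
    exact (hroot x).2 hx
  obtain ⟨a, _, ha⟩ := Finset.mem_image.1 hx'
  exact ⟨a, ha⟩

private theorem GD1_desc {p : ℕ} [Fact p.Prime] {Y : Type} (σ : Y → Y) (hσ : Function.Surjective σ) {n : ℕ}
    (v : Fin n → Y → Kb p) (hv : ∀ i y, v i (σ y) = v i y ^ p) (h : LinearIndependent (ZMod p) v) :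
    LinearIndependent (Kb p) v := by
  classical
  have hp : p ≠ 0 := (Fact.out : p.Prime).ne_zero
  have key : ∀ (N : ℕ) (c : Fin n → Kb p), (univ.filter fun i => c i ≠ 0).card ≤ N → ∑ i, c i • v i = 0 → c = 0 := by
    intro N
    induction N with
    | zero =>
      intro c hc _
      have h1 := Finset.card_eq_zero.1 (Nat.le_zero.1 hc)
      funext i
      by_contra hi
      have h2 : i ∈ (univ.filter fun i => c i ≠ 0) := Finset.mem_filter.2 ⟨Finset.mem_univ _, hi⟩
      rw [h1] at h2
      exact absurd h2 (Finset.notMem_empty i)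
    | succ N ih =>
      intro c hc hsum
      by_contra hne
      obtain ⟨i0, hi0⟩ : ∃ i, c i ≠ 0 := by
        by_contra hall
        push Not at hall
        exact hne (funext hall)
      let c' : Fin n → Kb p := fun i => (c i0)⁻¹ * c i
      have hc'0 : c' i0 = 1 := inv_mul_cancel₀ hi0
      have hsum' : ∀ x : Y, ∑ i, c' i * v i x = 0 := by
        intro x
        have h1 := congrFun hsum x
        rw [Finset.sum_apply] at h1
        simp only [c', mul_assoc]
        rw [← Finset.mul_sum]
        have h2 : ∑ i, c i * v i x = 0 := h1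
        rw [h2, mul_zero]
      let e : Fin n → Kb p := fun i => c' i ^ p - c' i
      have he : ∑ i, e i • v i = 0 := by
        funext y
        obtain ⟨x, hx⟩ := hσ y
        rw [Finset.sum_apply]
        have h1 : ∑ i, (c' i * v i x) ^ p = 0 := by
          rw [← sum_pow_char, hsum' x, zero_pow hp]
        have h2 : ∀ i, (e i • v i) y = (c' i * v i x) ^ p - c' i * v i y := by
          intro i
          rw [Pi.smul_apply, smul_eq_mul, mul_pow, ← hv i x, hx]
          simp only [e]
          ring
        rw [Finset.sum_congr rfl fun i _ => h2 i, Finset.sum_sub_distrib, h1, hsum' y, sub_zero]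
        rfl
      have he0 : e = 0 := by
        refine ih e ?_ he
        have h1 : (univ.filter fun i => e i ≠ 0) ⊆ (univ.filter fun i => c i ≠ 0).erase i0 := by
          intro i hi
          have hi' := (Finset.mem_filter.1 hi).2
          refine Finset.mem_erase.2 ⟨?_, Finset.mem_filter.2 ⟨Finset.mem_univ _, ?_⟩⟩
          · rintro rfl
            apply hi'
            simp only [e]
            rw [hc'0, one_pow, sub_self]
          · intro h0
            apply hi'
            simp only [e, c']
            rw [h0, mul_zero, zero_pow hp, sub_zero]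
        have h2 := Finset.card_le_card h1
        have h3 : i0 ∈ (univ.filter fun i => c i ≠ 0) := Finset.mem_filter.2 ⟨Finset.mem_univ _, hi0⟩
        rw [Finset.card_erase_of_mem h3] at h2
        omega
      have hfix : ∀ i, ∃ a : ZMod p, algebraMap (ZMod p) (Kb p) a = c' i := by
        intro i
        apply GD1_fix
        have h1 : c' i ^ p - c' i = 0 := congrFun he0 i
        exact sub_eq_zero.1 h1
      choose a ha using hfix
      have hz : ∑ i, a i • v i = 0 := by
        funext x
        rw [Finset.sum_apply]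
        refine Eq.trans (Finset.sum_congr rfl fun i _ => ?_) (hsum' x)
        rw [Pi.smul_apply, Algebra.smul_def, ha i]
      have h3 := Fintype.linearIndependent_iff.1 h a hz i0
      have h4 := ha i0
      rw [h3, map_zero, hc'0] at h4
      exact zero_ne_one h4
  refine Fintype.linearIndependent_iff.2 fun c hc => ?_
  exact congrFun (key _ c le_rfl hc)

/-- the functions compatible with the map and Frobenius form a vector space over the prime field -/
private def GD1_E (p : ℕ) [Fact p.Prime] {Y : Type} (σ : Y → Y) : Submodule (ZMod p) (Y → Kb p) where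
  carrier := {v | ∀ y, v (σ y) = v y ^ p}
  add_mem' := by
    intro v w hv hw y
    rw [Pi.add_apply, Pi.add_apply, hv y, hw y, add_pow_char]
  zero_mem' := by
    intro y
    rw [Pi.zero_apply, Pi.zero_apply, zero_pow (Fact.out : p.Prime).ne_zero]
  smul_mem' := by
    intro c v hv y
    rw [Pi.smul_apply, Pi.smul_apply, hv y, Algebra.smul_def, Algebra.smul_def, mul_pow, ← map_pow, ZMod.pow_card]

private theorem GD1_le {p : ℕ} [Fact p.Prime] {Y : Type} [Fintype Y] (σ : Y → Y) (hσ : Function.Bijective σ) :
    Module.Finite (ZMod p) (GD1_E p σ) ∧ Module.finrank (ZMod p) (GD1_E p σ) ≤ Fintype.card Y := by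
  have hr : Module.rank (ZMod p) (GD1_E p σ) ≤ Fintype.card Y := by
    refine rank_le fun s hs => ?_
    let ε : Fin s.card ≃ s := s.equivFin.symm
    have h1 : LinearIndependent (ZMod p) (fun i : Fin s.card => ((ε i : GD1_E p σ) : Y → Kb p)) := by
      have h2 := (hs.comp ε ε.injective).map' (GD1_E p σ).subtype (Submodule.ker_subtype _)
      exact h2
    have h3 := GD1_desc σ hσ.2 (fun i : Fin s.card => ((ε i : GD1_E p σ) : Y → Kb p)) (fun i => (ε i : GD1_E p σ).2) h1
    have h4 := h3.fintype_card_le_finrank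
    rwa [Fintype.card_fin, Module.finrank_fintype_fun_eq_card] at h4
  refine ⟨Module.rank_lt_aleph0_iff.1 (lt_of_le_of_lt hr (Cardinal.natCast_lt_aleph0)), ?_⟩
  exact Module.finrank_le_of_rank_le hr

private theorem GD1_mem {p : ℕ} [Fact p.Prime] {Y : Type} (σ : Y → Y) {N : ℕ}
    (T : (Fin N → ZMod p) →ₗ[ZMod p] (Y → Kb p)) (hT : ∀ a y, T a (σ y) = T a y ^ p) :
    LinearMap.range T ≤ GD1_E p σ := by
  rintro _ ⟨a, rfl⟩
  exact fun y => hT a y

private theorem GD1_rank {p : ℕ} [Fact p.Prime] {Y : Type} [Fintype Y] {N : ℕ}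
    (T : (Fin N → ZMod p) →ₗ[ZMod p] (Y → Kb p))
    (hs : ∀ w : Y → Kb p, ∃ b : Fin N → Kb p, ∀ y, w y = ∑ k, b k * T (Pi.single k 1) y) :
    Fintype.card Y ≤ Module.finrank (ZMod p) (LinearMap.range T) := by
  classical
  let b := Module.finBasis (ZMod p) (LinearMap.range T)
  let u : Fin (Module.finrank (ZMod p) (LinearMap.range T)) → (Y → Kb p) := fun i => (b i : Y → Kb p)
  have h1 : ∀ r ∈ LinearMap.range T, r ∈ Submodule.span (Kb p) (Set.range u) := by
    intro r hr
    have h2 : (⟨r, hr⟩ : LinearMap.range T) = ∑ i, b.repr ⟨r, hr⟩ i • b i := (b.sum_repr _).symm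
    have h3 : r = ∑ i, b.repr ⟨r, hr⟩ i • u i := by
      have h4 := congrArg (Submodule.subtype (LinearMap.range T)) h2
      rw [map_sum] at h4
      refine h4.trans (Finset.sum_congr rfl fun i _ => ?_)
      rw [map_smul]
      rfl
    rw [h3]
    refine Submodule.sum_mem _ fun i _ => ?_
    rw [← algebraMap_smul (Kb p)]
    exact Submodule.smul_mem _ _ (Submodule.subset_span ⟨i, rfl⟩)
  have h5 : Submodule.span (Kb p) (Set.range u) = ⊤ := by
    rw [eq_top_iff]
    rintro v -
    obtain ⟨a, ha⟩ := hs v
    have h6 : v = ∑ k, a k • T (Pi.single k 1) := by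
      funext y
      rw [ha y, Finset.sum_apply]
      rfl
    rw [h6]
    exact Submodule.sum_mem _ fun k _ => Submodule.smul_mem _ _ (h1 _ ⟨_, rfl⟩)
  have h7 := finrank_range_le_card (R := Kb p) u
  unfold Set.finrank at h7
  rw [h5, finrank_top, Module.finrank_fintype_fun_eq_card, Fintype.card_fin] at h7
  exact h7

theorem unifY {p : ℕ} [Fact p.Prime] {Y : Type} [Fintype Y] (σ : Y → Y) (hσ : Function.Bijective σ) {N : ℕ}
    (T : (Fin N → ZMod p) →ₗ[ZMod p] (Y → Kb p)) (hT : ∀ a y, T a (σ y) = T a y ^ p)
    (hs : ∀ w : Y → Kb p, ∃ b : Fin N → Kb p, ∀ y, w y = ∑ k, b k * T (Pi.single k 1) y) (v : Y → Kb p)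
    (hv : ∀ y, v (σ y) = v y ^ p) : Nat.card {a : Fin N → ZMod p // T a = v} * p ^ Fintype.card Y = p ^ N := by
  classical
  obtain ⟨hfin, hle⟩ := GD1_le (p := p) σ hσ
  have h1 := GD1_rank T hs
  have h2 : Module.finrank (ZMod p) (LinearMap.range T) ≤ Module.finrank (ZMod p) (GD1_E p σ) :=
    Submodule.finrank_mono (GD1_mem σ T hT)
  have h3 : Module.finrank (ZMod p) (LinearMap.range T) = Module.finrank (ZMod p) (GD1_E p σ) := by omega
  have hr : LinearMap.range T = GD1_E p σ := Submodule.eq_of_le_of_finrank_eq (GD1_mem σ T hT) h3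
  have hn : Module.finrank (ZMod p) (LinearMap.range T) = Fintype.card Y := by omega
  have hvr : v ∈ LinearMap.range T := by
    rw [hr]
    exact hv
  obtain ⟨a0, ha0⟩ := hvr
  have hcard : Nat.card {a : Fin N → ZMod p // T a = v} = Nat.card (LinearMap.ker T) := by
    refine Nat.card_congr ⟨fun a => ⟨a.1 - a0, ?_⟩, fun k => ⟨k.1 + a0, ?_⟩, fun a => ?_, fun k => ?_⟩
    · rw [LinearMap.mem_ker, map_sub, a.2, ha0, sub_self]
    · rw [map_add, LinearMap.mem_ker.1 k.2, ha0, zero_add]
    · exact Subtype.ext (sub_add_cancel _ _)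
    · exact Subtype.ext (add_sub_cancel_right _ _)
  have h4 := LinearMap.finrank_range_add_finrank_ker T
  rw [hn, Module.finrank_fintype_fun_eq_card, Fintype.card_fin] at h4
  rw [hcard, Module.natCard_eq_pow_finrank (K := ZMod p), Nat.card_zmod, ← pow_add,
    add_comm _ (Fintype.card Y)]
  exact congrArg (fun k => p ^ k) h4

end LVG
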