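import Pool.Agent.Lib.MP_17a322_ntLG.Defs
import Pool.Agent.Lib.MP_17a322_ntLG.D1

/-!
# LEAF GD2: the equidistribution of the values

PROOF.  `v1`: `frobenius` is a ring homomorphism, the coefficients are in the prime field: `aeval (fr p x) h = (aeval x h) ^ p`, `algebraMap (a k) ^ p = algebraMap (a k)` (`ZMod.pow_card`), `map_sum` / `sum_pow_char`.
`v2`: `unifY` for `Y = Fin s × W`, `σ (i, x) = (i, fr p x)` (`W` is stable, `fr p` is injective, so `σ` is bijective on the finite set), `T a (i, x) = Vl h a i x` (linear; `v1`), `card Y = s * W.card`.  `hs`: enumerate `W` by an injective `z : Fin m → Fin q → Kb p` with range `W` (`m = W.card ≤ R`) and apply the hypothesis (`Spf .. ∅`, all pairs `(i, l)` are allowed): `T (Pi.single k 1) (i, x) = aeval x (h k i)`.  The functions `v` with `v i ∈ EW W` for all `i` are the ones with `v (σ y) = v y ^ p`.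
-/

namespace LVG

open Finset
open LVF (Kb fr Fs EW)

/-- the values of the linear combinations of the vectors `h k` -/
noncomputable def Vl {p : ℕ} [Fact p.Prime] {q N s : ℕ} (h : Fin N → Fin s → MvPolynomial (Fin q) (ZMod p))
    (a : Fin N → ZMod p) (i : Fin s) (x : Fin q → Kb p) : Kb p :=
  ∑ k, algebraMap (ZMod p) (Kb p) (a k) * MvPolynomial.aeval x (h k i)

private theorem D2_fr {p : ℕ} [Fact p.Prime] {q : ℕ} (x : Fin q → Kb p) (P : MvPolynomial (Fin q) (ZMod p)) :
    MvPolynomial.aeval (fr p x) P = MvPolynomial.aeval x P ^ p := by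
  have h1 : (frobenius (Kb p) p).comp (algebraMap (ZMod p) (Kb p)) = algebraMap (ZMod p) (Kb p) := by
    refine RingHom.ext fun a => ?_
    rw [RingHom.comp_apply, frobenius_def, ← map_pow, ZMod.pow_card]
  have h2 : frobenius (Kb p) p (MvPolynomial.aeval x P) = MvPolynomial.aeval (fr p x) P := by
    rw [MvPolynomial.aeval_def, MvPolynomial.hom_eval₂, h1, MvPolynomial.aeval_def]
    rfl
  rw [← h2, frobenius_def]

private noncomputable def D2_T {p : ℕ} [Fact p.Prime] {q N s : ℕ} (h : Fin N → Fin s → MvPolynomial (Fin q) (ZMod p))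
    (W : Finset (Fin q → Kb p)) : (Fin N → ZMod p) →ₗ[ZMod p] (Fin s × W → Kb p) where
  toFun a y := Vl h a y.1 (y.2 : Fin q → Kb p)
  map_add' a b := by
    funext y
    simp only [Vl, Pi.add_apply, map_add, add_mul, Finset.sum_add_distrib]
  map_smul' c a := by
    funext y
    simp only [Vl, Pi.smul_apply, smul_eq_mul, map_mul, RingHom.id_apply, Algebra.smul_def, Finset.mul_sum, mul_assoc]

private theorem D2_single {p : ℕ} [Fact p.Prime] {q N s : ℕ} (h : Fin N → Fin s → MvPolynomial (Fin q) (ZMod p))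
    (k : Fin N) (i : Fin s) (x : Fin q → Kb p) : Vl h (Pi.single k 1) i x = MvPolynomial.aeval x (h k i) := by
  unfold Vl
  rw [Finset.sum_eq_single k]
  · rw [Pi.single_eq_same, map_one, one_mul]
  · intro k' _ hk'
    rw [Pi.single_eq_of_ne hk', map_zero, zero_mul]
  · intro hk
    exact absurd (Finset.mem_univ k) hk

theorem v1 {p : ℕ} [Fact p.Prime] {q N s : ℕ} (h : Fin N → Fin s → MvPolynomial (Fin q) (ZMod p)) : V1 (Vl h) := by
  intro a i x
  unfold Vl
  rw [sum_pow_char]
  refine Finset.sum_congr rfl fun k _ => ?_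
  rw [D2_fr, mul_pow, ← map_pow (algebraMap (ZMod p) (Kb p)), ZMod.pow_card]

theorem v2 {p : ℕ} [Fact p.Prime] {q j N s R : ℕ} (G : Finset (MvPolynomial (Fin q) (ZMod p)))
    (f : Fin j → MvPolynomial (Fin q) (ZMod p)) (h : Fin N → Fin s → MvPolynomial (Fin q) (ZMod p))
    (hh : ∀ m ≤ R, ∀ z : Fin m → Fin q → Kb p, Function.Injective z → (∀ l, z l ∈ Gp G f) → Spf h ∅ z) :
    V2 R G f (Vl h) := by
  classical
  intro W hFs hW hR v hv
  let σ : Fin s × W → Fin s × W := fun y => (y.1, ⟨fr p (y.2 : Fin q → Kb p), (hFs _ y.2.2).2⟩)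
  have hσi : Function.Injective σ := by
    rintro ⟨i, x⟩ ⟨i', x'⟩ he
    have h1 : i = i' := congrArg Prod.fst he
    have h2 : fr p (x : Fin q → Kb p) = fr p (x' : Fin q → Kb p) := congrArg (fun y => ((Prod.snd y : W) : Fin q → Kb p)) he
    have h3 : (x : Fin q → Kb p) = x' := by
      funext t
      exact frobenius_inj (Kb p) p (congrFun h2 t)
    exact Prod.ext h1 (Subtype.ext h3)
  have hσ : Function.Bijective σ := Finite.injective_iff_bijective.1 hσi
  have hT : ∀ a y, D2_T h W a (σ y) = D2_T h W a y ^ p := fun a y => v1 h a y.1 _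
  have hs : ∀ w : Fin s × W → Kb p, ∃ b : Fin N → Kb p, ∀ y, w y = ∑ k, b k * D2_T h W (Pi.single k 1) y := by
    intro w
    rcases W.eq_empty_or_nonempty with hE | hne
    · refine ⟨0, fun y => ?_⟩
      exact absurd y.2.2 (Finset.eq_empty_iff_forall_notMem.1 hE _)
    · obtain ⟨x0, hx0⟩ := hne
      obtain ⟨b, hb⟩ := hh W.card hR (fun l => ((W.equivFin.symm l : W) : Fin q → Kb p))
        (fun l l' hl => W.equivFin.symm.injective (Subtype.ext hl)) (fun l => hW _ (W.equivFin.symm l).2)
        (fun _ => W.equivFin ⟨x0, hx0⟩) (fun i l => w (i, W.equivFin.symm l))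
      refine ⟨b, fun y => ?_⟩
      have h1 := hb y.1 (W.equivFin y.2) (fun h => absurd h (Finset.notMem_empty _))
      simp only [Equiv.symm_apply_apply] at h1
      rw [← h1]
      refine Finset.sum_congr rfl fun k _ => ?_
      change b k * _ = b k * Vl h (Pi.single k 1) y.1 (y.2 : Fin q → Kb p)
      rw [D2_single]
  have key := unifY σ hσ (D2_T h W) hT hs (fun y => v y.1 y.2) (fun y => hv y.1 y.2 _ rfl)
  rw [Fintype.card_prod, Fintype.card_fin, Fintype.card_coe] at key
  have hN : Nat.card (Fin N → ZMod p) = p ^ N := by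
    rw [Nat.card_fun, Nat.card_zmod, Nat.card_eq_fintype_card, Fintype.card_fin]
  rw [hN, ← key]
  congr 1
  refine Nat.card_congr (Equiv.subtypeEquivRight fun a => ?_)
  constructor
  · intro h1
    funext y
    exact h1 y.1 y.2
  · intro h1 i x
    exact congrFun h1 (i, x)

end LVG
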