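import Mathlib

/-!
# LEAF GD3: an elementary complete intersection lemma

PROOF.  Strong induction on `∑ κ, ((Λ κ).length - 1)`, for all `Λ` at once, proving the statement for all `N ≥ ∑ κ, ((Λ κ).length - 1) + 1`.  First: if the statement holds for `N` (all homogeneous `h` of degree `N`), then it holds for `N + 1`: a homogeneous `h` of degree `N + 1` is `∑ t, X t * h t` with `h t` homogeneous of degree `N` (each monomial of positive degree is divisible by some `X t`; choose one for each exponent in the support), so only `N = ∑ κ, ((Λ κ).length - 1) + 1` has to be treated.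
If all lists have length `1`, `Λ κ = [l κ]`, then `N = 1`, the `l κ` are linearly independent, so a basis of `Fin n → F`: every `X t`, hence every linear form, is a linear combination (with constant coefficients, homogeneous of degree `0 = N - 1`) of the `lin (l κ)`.
Otherwise some `Λ κ0 = l :: L'` with `L' ≠ []` (no list is empty: `hne`).  The families `Λ1 = Λ` with `L'` at `κ0` and `Λ2 = Λ` with `[l]` at `κ0` satisfy the hypotheses (`hne`, `hind`: a choice for them is a choice for `Λ`) and have smaller sums.  For `h` homogeneous of degree `N` the induction hypothesis for `Λ2` (`N ≥` its bound) gives `h = A κ0 * lin l + ∑ κ ≠ κ0, A κ * P κ` with `A κ0` homogeneous of degree `N - 1`; the induction hypothesis for `Λ1` (bound `N - 1`) and the polynomial `A κ0` gives `A κ0 = A' κ0 * ∏ L' + ∑ κ ≠ κ0, A' κ * P κ`.  So `h = A' κ0 * (lin l * ∏ L') + ∑ κ ≠ κ0, (A κ + lin l * A' κ) * P κ`, and the degrees are right.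
-/

namespace LVG

open Finset

/-- the linear form with coefficients `l` -/
noncomputable def lin {F : Type} [Field F] {n : ℕ} (l : Fin n → F) : MvPolynomial (Fin n) F :=
  ∑ t, MvPolynomial.C (l t) * MvPolynomial.X t

private theorem D3_lin_hom {F : Type} [Field F] {n : ℕ} (l : Fin n → F) : (lin l).IsHomogeneous 1 :=
  MvPolynomial.IsHomogeneous.sum _ _ _ fun t _ => MvPolynomial.isHomogeneous_C_mul_X (l t) t

private theorem D3_lin_single {F : Type} [Field F] {n : ℕ} (t : Fin n) :
    lin (Pi.single t 1 : Fin n → F) = MvPolynomial.X t := by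
  unfold lin
  rw [Finset.sum_eq_single t]
  · rw [Pi.single_eq_same, map_one, one_mul]
  · intro u _ hu
    rw [Pi.single_eq_of_ne hu, map_zero, zero_mul]
  · intro h
    exact absurd (Finset.mem_univ t) h

private theorem D3_lin_sum {F : Type} [Field F] {n : ℕ} (a : Fin n → F) (l : Fin n → Fin n → F) :
    lin (∑ κ, a κ • l κ) = ∑ κ, MvPolynomial.C (a κ) * lin (l κ) := by
  unfold lin
  simp only [Finset.mul_sum]
  rw [Finset.sum_comm]
  refine Finset.sum_congr rfl fun t _ => ?_
  rw [Finset.sum_apply, map_sum, Finset.sum_mul]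
  refine Finset.sum_congr rfl fun κ _ => ?_
  rw [Pi.smul_apply, smul_eq_mul, map_mul, mul_assoc]

private theorem D3_div {F : Type} [Field F] {n M : ℕ} (h : MvPolynomial (Fin n) F) (hh : h.IsHomogeneous (M + 1)) :
    ∃ H : Fin n → MvPolynomial (Fin n) F, (∀ t, (H t).IsHomogeneous M) ∧ h = ∑ t, MvPolynomial.X t * H t := by
  classical
  have key : ∀ s : Finset (Fin n →₀ ℕ), s ⊆ h.support →
      ∃ H : Fin n → MvPolynomial (Fin n) F, (∀ t, (H t).IsHomogeneous M) ∧
        ∑ d ∈ s, MvPolynomial.monomial d (h.coeff d) = ∑ t, MvPolynomial.X t * H t := by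
    intro s
    induction s using Finset.induction_on with
    | empty =>
      intro _
      refine ⟨fun _ => 0, fun t => MvPolynomial.isHomogeneous_zero _ _ _, ?_⟩
      rw [Finset.sum_empty]
      exact (Finset.sum_eq_zero fun t _ => mul_zero _).symm
    | insert d s hd ih =>
      intro hs
      obtain ⟨H, hH, e⟩ := ih fun x hx => hs (Finset.mem_insert_of_mem hx)
      have hds : d ∈ h.support := hs (Finset.mem_insert_self d s)
      have hdeg : d.degree = M + 1 := by
        by_contra hne
        exact (MvPolynomial.mem_support_iff.1 hds) (hh.coeff_eq_zero hne)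
      obtain ⟨t, ht⟩ : ∃ t, d t ≠ 0 := by
        by_contra hall
        push Not at hall
        have h0 : d = 0 := Finsupp.ext hall
        rw [h0, map_zero] at hdeg
        omega
      have hle : Finsupp.single t 1 ≤ d := Finsupp.single_le_iff.2 (Nat.one_le_iff_ne_zero.2 ht)
      have hsplit : Finsupp.single t 1 + (d - Finsupp.single t 1) = d := add_tsub_cancel_of_le hle
      have hdeg2 : (d - Finsupp.single t 1).degree = M := by
        have h1 := congrArg Finsupp.degree hsplit
        rw [map_add, Finsupp.degree_single, hdeg] at h1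
        omega
      refine ⟨fun u => H u + if u = t then MvPolynomial.monomial (d - Finsupp.single t 1) (h.coeff d) else 0, ?_, ?_⟩
      · intro u
        refine (hH u).add ?_
        split_ifs
        · exact MvPolynomial.isHomogeneous_monomial _ hdeg2
        · exact MvPolynomial.isHomogeneous_zero _ _ _
      · rw [Finset.sum_insert hd, e]
        simp only [mul_add, Finset.sum_add_distrib, mul_ite, mul_zero]
        rw [Finset.sum_ite_eq' Finset.univ t, if_pos (Finset.mem_univ t), add_comm]
        congr 1
        rw [MvPolynomial.X, MvPolynomial.monomial_mul, hsplit, one_mul]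
  obtain ⟨H, hH, e⟩ := key h.support subset_rfl
  refine ⟨H, hH, ?_⟩
  rw [← e]
  exact (MvPolynomial.support_sum_monomial_coeff h).symm

private theorem D3_upd {F : Type} [Field F] {n : ℕ} (Λ : Fin n → List (Fin n → F)) (κ0 : Fin n)
    (M : List (Fin n → F)) : ∑ κ, ((Function.update Λ κ0 M κ).length - 1) =
      (M.length - 1) + ∑ κ ∈ Finset.univ.erase κ0, ((Λ κ).length - 1) := by
  rw [← Finset.add_sum_erase Finset.univ _ (Finset.mem_univ κ0), Function.update_self]
  congr 1
  refine Finset.sum_congr rfl fun κ hκ => ?_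
  rw [Function.update_of_ne (Finset.ne_of_mem_erase hκ)]

private theorem D3_updP {F : Type} [Field F] {n : ℕ} (Λ : Fin n → List (Fin n → F)) (κ0 : Fin n)
    (M : List (Fin n → F)) (A : Fin n → MvPolynomial (Fin n) F) :
    ∑ κ, A κ * ((Function.update Λ κ0 M κ).map lin).prod =
      A κ0 * (M.map lin).prod + ∑ κ ∈ Finset.univ.erase κ0, A κ * ((Λ κ).map lin).prod := by
  rw [← Finset.add_sum_erase Finset.univ _ (Finset.mem_univ κ0), Function.update_self]
  congr 1
  refine Finset.sum_congr rfl fun κ hκ => ?_
  rw [Function.update_of_ne (Finset.ne_of_mem_erase hκ)]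

private theorem D3_main {F : Type} [Field F] {n : ℕ} (s : ℕ) : ∀ (Λ : Fin n → List (Fin n → F)) (_ : ∀ κ, Λ κ ≠ [])
    (_ : ∀ c : Fin n → Fin n → F, (∀ κ, c κ ∈ Λ κ) → LinearIndependent F c)
    (_ : ∑ κ, ((Λ κ).length - 1) = s) (N : ℕ) (_ : s + 1 ≤ N) (h : MvPolynomial (Fin n) F) (_ : h.IsHomogeneous N),
    ∃ A : Fin n → MvPolynomial (Fin n) F, (∀ κ, (A κ).IsHomogeneous (N - (Λ κ).length)) ∧
      h = ∑ κ, A κ * ((Λ κ).map lin).prod := by
  classical
  induction s using Nat.strong_induction_on with
  | _ s ih =>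
  intro Λ hne hind hs N hN h hh
  by_cases hall : ∀ κ, (Λ κ).length = 1
  · have h1 : ∀ κ, ∃ l, Λ κ = [l] := fun κ => List.length_eq_one_iff.1 (hall κ)
    choose l hl using h1
    have hli : LinearIndependent F l := hind l fun κ => by
      rw [hl κ]
      exact List.mem_singleton.2 rfl
    have hspan := hli.span_eq_top_of_card_eq_finrank' (by rw [Module.finrank_fin_fun, Fintype.card_fin])
    have hX : ∀ t : Fin n, ∃ a : Fin n → F, ∑ κ, a κ • l κ = Pi.single t 1 := by
      intro t
      refine (Submodule.mem_span_range_iff_exists_fun F).1 ?_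
      rw [hspan]
      exact Submodule.mem_top
    choose a ha using hX
    obtain ⟨M, rfl⟩ : ∃ M, N = M + 1 := ⟨N - 1, by omega⟩
    obtain ⟨H, hH, e⟩ := D3_div h hh
    refine ⟨fun κ => ∑ t, MvPolynomial.C (a t κ) * H t, fun κ => ?_, ?_⟩
    · rw [hall κ, Nat.add_sub_cancel]
      exact MvPolynomial.IsHomogeneous.sum _ _ _ fun t _ => (hH t).C_mul (a t κ)
    · have e2 : ∀ t : Fin n, (MvPolynomial.X t : MvPolynomial (Fin n) F) =
          ∑ κ, MvPolynomial.C (a t κ) * lin (l κ) := by
        intro t
        rw [← D3_lin_single, ← ha t, D3_lin_sum]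
      calc h = ∑ t, MvPolynomial.X t * H t := e
        _ = ∑ t, ∑ κ, (MvPolynomial.C (a t κ) * H t) * lin (l κ) := by
            refine Finset.sum_congr rfl fun t _ => ?_
            rw [e2 t, Finset.sum_mul]
            refine Finset.sum_congr rfl fun κ _ => ?_
            ring
        _ = ∑ κ, ∑ t, (MvPolynomial.C (a t κ) * H t) * lin (l κ) := Finset.sum_comm
        _ = ∑ κ, (∑ t, MvPolynomial.C (a t κ) * H t) * ((Λ κ).map lin).prod := by
            refine Finset.sum_congr rfl fun κ _ => ?_
            rw [hl κ, List.map_singleton, List.prod_singleton, Finset.sum_mul]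
  · push Not at hall
    obtain ⟨κ0, h0⟩ := hall
    obtain ⟨l, L', hL⟩ : ∃ l L', Λ κ0 = l :: L' := List.exists_cons_of_ne_nil (hne κ0)
    have hL' : L' ≠ [] := by
      rintro rfl
      rw [hL] at h0
      exact h0 rfl
    have hlen : 1 ≤ L'.length := List.length_pos_iff.2 hL'
    have hs0 : L'.length + ∑ κ ∈ Finset.univ.erase κ0, ((Λ κ).length - 1) = s := by
      rw [← hs, ← Finset.add_sum_erase Finset.univ (fun κ => (Λ κ).length - 1) (Finset.mem_univ κ0), hL]
      rfl
    have hR : ∀ κ, κ ≠ κ0 → (Λ κ).length - 1 ≤ ∑ κ ∈ Finset.univ.erase κ0, ((Λ κ).length - 1) := by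
      intro κ hκ
      exact Finset.single_le_sum (f := fun κ => (Λ κ).length - 1) (fun _ _ => Nat.zero_le _)
        (Finset.mem_erase.2 ⟨hκ, Finset.mem_univ κ⟩)
    have hu : ∀ M : List (Fin n → F), M ≠ [] → (∀ x ∈ M, x ∈ Λ κ0) →
        (∀ κ, Function.update Λ κ0 M κ ≠ []) ∧
        ∀ c : Fin n → Fin n → F, (∀ κ, c κ ∈ Function.update Λ κ0 M κ) → LinearIndependent F c := by
      intro M hM hsub
      constructor
      · intro κ
        by_cases hκ : κ = κ0
        · rw [hκ, Function.update_self]
          exact hM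
        · rw [Function.update_of_ne hκ]
          exact hne κ
      · intro c hc
        refine hind c fun κ => ?_
        have h2 := hc κ
        by_cases hκ : κ = κ0
        · subst hκ
          rw [Function.update_self] at h2
          exact hsub _ h2
        · rw [Function.update_of_ne hκ] at h2
          exact h2
    obtain ⟨u1, u2⟩ := hu [l] (List.cons_ne_nil _ _) (by
      intro x hx
      rw [List.mem_singleton.1 hx, hL]
      exact List.mem_cons_self)
    obtain ⟨v1, v2⟩ := hu L' hL' (by
      intro x hx
      rw [hL]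
      exact List.mem_cons_of_mem _ hx)
    obtain ⟨A, hA, eA⟩ := ih (∑ κ ∈ Finset.univ.erase κ0, ((Λ κ).length - 1)) (by omega)
      (Function.update Λ κ0 [l]) u1 u2 (by rw [D3_upd]; exact Nat.zero_add _) N (by omega) h hh
    have hA0 : (A κ0).IsHomogeneous (N - 1) := by
      have h3 := hA κ0
      rw [Function.update_self] at h3
      exact h3
    obtain ⟨A', hA', eA'⟩ := ih (L'.length - 1 + ∑ κ ∈ Finset.univ.erase κ0, ((Λ κ).length - 1)) (by omega)
      (Function.update Λ κ0 L') v1 v2 (D3_upd Λ κ0 L') (N - 1) (by omega) (A κ0) hA0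
    rw [D3_updP] at eA eA'
    refine ⟨fun κ => if κ = κ0 then A' κ0 else A κ + lin l * A' κ, fun κ => ?_, ?_⟩
    · beta_reduce
      by_cases hκ : κ = κ0
      · rw [if_pos hκ, hκ]
        have h3 := hA' κ0
        rw [Function.update_self] at h3
        have h4 : N - (Λ κ0).length = N - 1 - L'.length := by
          rw [hL, List.length_cons]
          omega
        rw [h4]
        exact h3
      · rw [if_neg hκ]
        have h3 := hA κ
        have h4 := hA' κ
        rw [Function.update_of_ne hκ] at h3 h4
        refine h3.add ?_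
        have h5 := (D3_lin_hom l).mul h4
        have h6 := hR κ hκ
        have h7 : 1 + (N - 1 - (Λ κ).length) = N - (Λ κ).length := by omega
        rw [h7] at h5
        exact h5
    · rw [← Finset.add_sum_erase Finset.univ (fun κ => (if κ = κ0 then A' κ0 else A κ + lin l * A' κ) *
        ((Λ κ).map lin).prod) (Finset.mem_univ κ0)]
      have e3 : ∑ κ ∈ Finset.univ.erase κ0, (if κ = κ0 then A' κ0 else A κ + lin l * A' κ) * ((Λ κ).map lin).prod =
          ∑ κ ∈ Finset.univ.erase κ0, A κ * ((Λ κ).map lin).prod +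
            lin l * ∑ κ ∈ Finset.univ.erase κ0, A' κ * ((Λ κ).map lin).prod := by
        rw [Finset.mul_sum, ← Finset.sum_add_distrib]
        refine Finset.sum_congr rfl fun κ hκ => ?_
        rw [if_neg (Finset.ne_of_mem_erase hκ)]
        ring
      rw [e3]
      simp only [if_true]
      rw [hL, List.map_cons, List.prod_cons]
      rw [List.map_singleton, List.prod_singleton] at eA
      rw [eA, eA']
      ring

theorem cimem {F : Type} [Field F] {n : ℕ} (Λ : Fin n → List (Fin n → F)) (hne : ∀ κ, Λ κ ≠ [])
    (hind : ∀ c : Fin n → Fin n → F, (∀ κ, c κ ∈ Λ κ) → LinearIndependent F c) (N : ℕ)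
    (hN : ∑ κ, ((Λ κ).length - 1) + 1 ≤ N) (h : MvPolynomial (Fin n) F) (hh : h.IsHomogeneous N) :
    ∃ A : Fin n → MvPolynomial (Fin n) F, (∀ κ, (A κ).IsHomogeneous (N - (Λ κ).length)) ∧
      h = ∑ κ, A κ * ((Λ κ).map lin).prod := by
  exact D3_main _ Λ hne hind rfl N hN h hh

end LVG
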