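import Pool.Agent.Lib.MP_17a322_ntLG.D3
import Pool.Agent.Lib.MP_17a322_ntLY.A4

/-!
# LEAF GD4: the number of solutions of products of affine linear equations

PROOF.  `N = ∑ κ, ((Λ κ).length - 1) + 1`, so `(Λ κ).length ≤ N` (the lists are not empty; a single term of the sum).  For every coordinate `t`, `X t ^ N` is homogeneous of degree `N`, so by `cimem` (for the lists of the linear parts `(Λ κ).map Prod.fst`) `X t ^ N = ∑ κ, A κ * P κ` with `P κ = ∏ lin l` (over `(l, c) ∈ Λ κ`).  Let `Q κ = ∏ (lin l + C c) - C (y κ)` (the same product with the constants), a polynomial which vanishes on `S`; `P κ - Q κ` has total degree `< (Λ κ).length` (induction on the list: the product of `lin l + C c` is `∏ lin l` plus a polynomial of smaller degree; the constant `y κ` has degree `0 < length`).  So on `S`: `u t ^ N = eval u (∑ κ, A κ * (P κ - Q κ))`, a polynomial of total degree `< N` (`totalDegree (A κ) ≤ N - length`).  `LVY.bez` gives `S.card ≤ N ^ n`.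
-/

namespace LVG

open Finset

private theorem gd4_lin {F : Type} [Field F] {n : ℕ} (l : Fin n → F) : (lin l).totalDegree ≤ 1 := by
  refine MvPolynomial.totalDegree_finsetSum_le fun t _ => ?_
  refine (MvPolynomial.totalDegree_mul _ _).trans ?_
  rw [MvPolynomial.totalDegree_C, MvPolynomial.totalDegree_X]

private theorem gd4_aff {F : Type} [Field F] {n : ℕ} (a : (Fin n → F) × F) :
    (lin a.1 + MvPolynomial.C a.2).totalDegree ≤ 1 := by
  refine (MvPolynomial.totalDegree_add _ _).trans ?_
  rw [MvPolynomial.totalDegree_C]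
  exact max_le (gd4_lin a.1) (Nat.zero_le _)

private theorem gd4_R {F : Type} [Field F] {n : ℕ} (L : List ((Fin n → F) × F)) :
    ((L.map fun a : (Fin n → F) × F => lin a.1 + MvPolynomial.C a.2).prod).totalDegree ≤ L.length := by
  induction L with
  | nil => simp
  | cons a L ih =>
    rw [List.map_cons, List.prod_cons, List.length_cons]
    refine (MvPolynomial.totalDegree_mul _ _).trans ?_
    have := gd4_aff a
    omega

private theorem gd4_sub {F : Type} [Field F] {n : ℕ} (L : List ((Fin n → F) × F)) :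
    (((L.map Prod.fst).map lin).prod -
      (L.map fun a : (Fin n → F) × F => lin a.1 + MvPolynomial.C a.2).prod).totalDegree ≤ L.length - 1 := by
  induction L with
  | nil => simp
  | cons a L ih =>
    rw [List.map_cons, List.map_cons, List.map_cons, List.prod_cons, List.prod_cons, List.length_cons]
    have h1 : lin a.1 * ((L.map Prod.fst).map lin).prod -
        (lin a.1 + MvPolynomial.C a.2) * (L.map fun a : (Fin n → F) × F => lin a.1 + MvPolynomial.C a.2).prod =
        lin a.1 * (((L.map Prod.fst).map lin).prod - (L.map fun a : (Fin n → F) × F => lin a.1 + MvPolynomial.C a.2).prod) -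
        MvPolynomial.C a.2 * (L.map fun a : (Fin n → F) × F => lin a.1 + MvPolynomial.C a.2).prod := by ring
    rw [h1]
    refine (MvPolynomial.totalDegree_sub _ _).trans (max_le ?_ ?_)
    · rcases L with _ | ⟨b, L⟩
      · simp
      · refine (MvPolynomial.totalDegree_mul _ _).trans ?_
        have h2 := gd4_lin a.1
        rw [List.length_cons] at ih ⊢
        omega
    · refine (MvPolynomial.totalDegree_mul _ _).trans ?_
      have h2 := gd4_R L
      rw [MvPolynomial.totalDegree_C]
      omega

private theorem gd4_eval {F : Type} [Field F] {n : ℕ} (L : List ((Fin n → F) × F)) (u : Fin n → F) :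
    MvPolynomial.eval u (L.map fun a : (Fin n → F) × F => lin a.1 + MvPolynomial.C a.2).prod =
      (L.map fun l => ∑ t, l.1 t * u t + l.2).prod := by
  induction L with
  | nil => simp
  | cons a L ih =>
    rw [List.map_cons, List.map_cons, List.prod_cons, List.prod_cons, map_mul, ih]
    have h1 : MvPolynomial.eval u (lin a.1 + MvPolynomial.C a.2) = ∑ t, a.1 t * u t + a.2 := by
      rw [map_add, MvPolynomial.eval_C]
      unfold lin
      rw [map_sum]
      have h2 : ∀ t ∈ (Finset.univ : Finset (Fin n)),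
          MvPolynomial.eval u (MvPolynomial.C (a.1 t) * MvPolynomial.X t) = a.1 t * u t := by
        intro t _
        rw [map_mul, MvPolynomial.eval_C, MvPolynomial.eval_X]
      rw [Finset.sum_congr rfl h2]
    rw [h1]

theorem cibez {F : Type} [Field F] {n : ℕ} (Λ : Fin n → List ((Fin n → F) × F)) (hne : ∀ κ, Λ κ ≠ [])
    (hind : ∀ c : Fin n → Fin n → F, (∀ κ, ∃ b, (c κ, b) ∈ Λ κ) → LinearIndependent F c) (y : Fin n → F)
    (S : Finset (Fin n → F)) (hS : ∀ u ∈ S, ∀ κ, ((Λ κ).map fun l => ∑ t, l.1 t * u t + l.2).prod = y κ) :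
    S.card ≤ (∑ κ, ((Λ κ).length - 1) + 1) ^ n := by
  have hN : ∑ κ, (((Λ κ).map Prod.fst).length - 1) + 1 ≤ ∑ κ, ((Λ κ).length - 1) + 1 := by
    simp
  have hlen : ∀ κ, 1 ≤ (Λ κ).length := fun κ => List.length_pos_iff.2 (hne κ)
  have hlen2 : ∀ κ, (Λ κ).length ≤ ∑ κ, ((Λ κ).length - 1) + 1 := by
    intro κ
    have h1 : (Λ κ).length - 1 ≤ ∑ κ, ((Λ κ).length - 1) :=
      Finset.single_le_sum (f := fun κ => (Λ κ).length - 1) (fun _ _ => Nat.zero_le _) (Finset.mem_univ κ)
    omega
  have hA : ∀ t : Fin n, ∃ A : Fin n → MvPolynomial (Fin n) F,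
      (∀ κ, (A κ).IsHomogeneous (∑ κ, ((Λ κ).length - 1) + 1 - ((Λ κ).map Prod.fst).length)) ∧
      (MvPolynomial.X t : MvPolynomial (Fin n) F) ^ (∑ κ, ((Λ κ).length - 1) + 1) =
        ∑ κ, A κ * (((Λ κ).map Prod.fst).map lin).prod := by
    intro t
    refine cimem (fun κ => (Λ κ).map Prod.fst) ?_ ?_ (∑ κ, ((Λ κ).length - 1) + 1) hN _
      (MvPolynomial.isHomogeneous_X_pow t _)
    · intro κ h
      exact hne κ (List.map_eq_nil_iff.1 h)
    · intro c hc
      refine hind c fun κ => ?_
      obtain ⟨a, ha, hac⟩ := List.mem_map.1 (hc κ)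
      refine ⟨a.2, ?_⟩
      rw [← hac]
      exact ha
  choose A hA1 hA2 using hA
  refine LVY.bez (fun t => ∑ κ, A t κ * ((((Λ κ).map Prod.fst).map lin).prod -
    ((Λ κ).map fun a : (Fin n → F) × F => lin a.1 + MvPolynomial.C a.2).prod + MvPolynomial.C (y κ))) ?_ S ?_
  · intro t
    refine Nat.lt_succ_of_le (MvPolynomial.totalDegree_finsetSum_le fun κ _ => ?_)
    refine (MvPolynomial.totalDegree_mul _ _).trans ?_
    have h1 := (hA1 t κ).totalDegree_le
    rw [List.length_map] at h1
    have h2 : ((((Λ κ).map Prod.fst).map lin).prod -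
        ((Λ κ).map fun a : (Fin n → F) × F => lin a.1 + MvPolynomial.C a.2).prod +
        MvPolynomial.C (y κ)).totalDegree ≤ (Λ κ).length - 1 := by
      refine (MvPolynomial.totalDegree_add _ _).trans (max_le (gd4_sub (Λ κ)) ?_)
      rw [MvPolynomial.totalDegree_C]
      exact Nat.zero_le _
    have h3 := hlen κ
    have h4 := hlen2 κ
    omega
  · intro u hu t
    have h1 := congrArg (MvPolynomial.eval u) (hA2 t)
    rw [map_pow, MvPolynomial.eval_X] at h1
    rw [h1, map_sum, map_sum]
    refine Finset.sum_congr rfl fun κ _ => ?_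
    rw [map_mul, map_mul, map_add, map_sub, gd4_eval, hS u hu κ, MvPolynomial.eval_C, sub_add_cancel]

end LVG
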