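import Pool.Agent.Lib.MP_17a322_ntLF.Defs

/-!
# LEAF GD5: a linear substitution with coefficients in the prime field

PROOF.  For each `t` let `D t` be the determinant of the matrix with entries `∑ k, C (l t κ k) * X (k, r)` over `MvPolynomial (Fin N × Fin n) (Kb p)`: of total degree at most `n`, and not `0`, since the `n` rows `l t κ` are linearly independent, so there are `n` columns with a nonzero minor (or: there is a matrix `ι` over `Kb p` with `(l t) * ι = 1`, `Matrix` right inverse from `LinearIndependent`).  The product of the `D t` is not `0` and has total degree at most `n * card T < p`; by `MvPolynomial.schwartz_zippel_totalDegree` (or `MvPolynomial.exists_eval_ne_zero..`) for the finite set `S` = the image of `ZMod p` in `Kb p`, with `p` elements, it does not vanish at some point with coordinates in `S`.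
-/

namespace LVG

open Finset
open LVF (Kb)

private theorem D5_inv {F : Type} [Field F] {N n : ℕ} (l : Fin n → Fin N → F) (h : LinearIndependent F l) :
    ∃ b : Fin N → Fin n → F, ∀ κ r, ∑ k, l κ k * b k r = if κ = r then 1 else 0 := by
  classical
  have hker : LinearMap.ker (Fintype.linearCombination F l) = ⊥ := by
    rw [LinearMap.ker_eq_bot]
    exact linearIndependent_iff_injective_fintypeLinearCombination.1 h
  obtain ⟨g, hg⟩ := LinearMap.exists_leftInverse_of_injective _ hker
  refine ⟨fun k r => g (fun j => if k = j then 1 else 0) r, fun κ r => ?_⟩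
  have h1 : g (l κ) = Pi.single κ 1 := by
    have h2 := LinearMap.congr_fun hg (Pi.single κ 1)
    rw [LinearMap.comp_apply, Fintype.linearCombination_apply_single, one_smul] at h2
    exact h2
  rw [LinearMap.pi_apply_eq_sum_univ g] at h1
  have h3 := congrFun h1 r
  rw [Finset.sum_apply] at h3
  have h4 : ∑ k, l κ k * g (fun j => if k = j then 1 else 0) r =
      ∑ c, (l κ c • g fun j => if c = j then 1 else 0) r :=
    Finset.sum_congr rfl fun k _ => rfl
  rw [h4, h3, Pi.single_apply]
  by_cases hκ : κ = r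
  · rw [if_pos hκ, if_pos hκ.symm]
  · rw [if_neg hκ, if_neg (fun h5 => hκ h5.symm)]

private theorem D5_deg {F : Type} [Field F] {N n : ℕ} (l : Fin n → Fin N → F) :
    (Matrix.of fun κ r => ∑ k, MvPolynomial.C (l κ k) * (MvPolynomial.X (k, r) : MvPolynomial (Fin N × Fin n) F) :
      Matrix (Fin n) (Fin n) (MvPolynomial (Fin N × Fin n) F)).det.totalDegree ≤ n := by
  rw [Matrix.det_apply']
  refine MvPolynomial.totalDegree_finsetSum_le fun σ _ => ?_
  refine (MvPolynomial.totalDegree_mul _ _).trans ?_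
  have h1 : (((Equiv.Perm.sign σ : ℤ) : MvPolynomial (Fin N × Fin n) F)).totalDegree = 0 := by
    have e : (((Equiv.Perm.sign σ : ℤ) : MvPolynomial (Fin N × Fin n) F)) =
        MvPolynomial.C (((Equiv.Perm.sign σ : ℤ) : F)) := (map_intCast (MvPolynomial.C : F →+* MvPolynomial (Fin N × Fin n) F) _).symm
    rw [e, MvPolynomial.totalDegree_C]
  rw [h1, zero_add]
  refine (MvPolynomial.totalDegree_finsetProd _ _).trans ?_
  have h2 : ∀ i ∈ (Finset.univ : Finset (Fin n)), ((Matrix.of fun κ r => ∑ k, MvPolynomial.C (l κ k) *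
      (MvPolynomial.X (k, r) : MvPolynomial (Fin N × Fin n) F) :
      Matrix (Fin n) (Fin n) (MvPolynomial (Fin N × Fin n) F)) (σ i) i).totalDegree ≤ 1 := by
    intro i _
    rw [Matrix.of_apply]
    refine MvPolynomial.totalDegree_finsetSum_le fun k _ => ?_
    refine (MvPolynomial.totalDegree_mul _ _).trans ?_
    rw [MvPolynomial.totalDegree_C, zero_add, MvPolynomial.totalDegree_X]
  refine (Finset.sum_le_sum h2).trans (le_of_eq ?_)
  rw [Finset.sum_const, Finset.card_univ, Fintype.card_fin, smul_eq_mul, mul_one]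

private theorem D5_eval {F : Type} [Field F] {N n : ℕ} (l : Fin n → Fin N → F) (x : Fin N × Fin n → F) :
    MvPolynomial.eval x (Matrix.of fun κ r => ∑ k, MvPolynomial.C (l κ k) *
      (MvPolynomial.X (k, r) : MvPolynomial (Fin N × Fin n) F) :
      Matrix (Fin n) (Fin n) (MvPolynomial (Fin N × Fin n) F)).det =
      (Matrix.of fun κ r => ∑ k, l κ k * x (k, r) : Matrix (Fin n) (Fin n) F).det := by
  rw [RingHom.map_det]
  congr 1
  ext κ r
  rw [RingHom.mapMatrix_apply, Matrix.map_apply, Matrix.of_apply, Matrix.of_apply, map_sum]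
  refine Finset.sum_congr rfl fun k _ => ?_
  rw [map_mul, MvPolynomial.eval_C, MvPolynomial.eval_X]

theorem iota {p : ℕ} [Fact p.Prime] {N n : ℕ} {T : Type} [Fintype T] (l : T → Fin n → Fin N → Kb p)
    (h : ∀ t, LinearIndependent (Kb p) (l t)) (hp : n * Fintype.card T < p) : ∃ ι : Fin N → Fin n → ZMod p,
      ∀ t, (Matrix.of fun κ r => ∑ k, l t κ k * algebraMap (ZMod p) (Kb p) (ι k r)).det ≠ 0 := by
  classical
  obtain ⟨D, hD⟩ : ∃ D : T → MvPolynomial (Fin N × Fin n) (Kb p), D = fun t =>
    (Matrix.of fun κ r => ∑ k, MvPolynomial.C (l t κ k) *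
      (MvPolynomial.X (k, r) : MvPolynomial (Fin N × Fin n) (Kb p)) :
      Matrix (Fin n) (Fin n) (MvPolynomial (Fin N × Fin n) (Kb p))).det := ⟨_, rfl⟩
  have hdeg : ∀ t, (D t).totalDegree ≤ n := by
    intro t
    rw [hD]
    exact D5_deg (l t)
  have hev : ∀ t x, MvPolynomial.eval x (D t) =
      (Matrix.of fun κ r => ∑ k, l t κ k * x (k, r) : Matrix (Fin n) (Fin n) (Kb p)).det := by
    intro t x
    rw [hD]
    exact D5_eval (l t) x
  have hne : ∀ t, D t ≠ 0 := by
    intro t h0
    obtain ⟨b, hb⟩ := D5_inv (l t) (h t)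
    have h1 := hev t (fun z => b z.1 z.2)
    have h2 : (Matrix.of fun κ r => ∑ k, l t κ k * b k r : Matrix (Fin n) (Fin n) (Kb p)) = 1 := by
      ext κ r
      rw [Matrix.of_apply, hb κ r, Matrix.one_apply]
    rw [h0, map_zero, h2, Matrix.det_one] at h1
    exact zero_ne_one h1
  have hP : ∏ t, D t ≠ 0 := Finset.prod_ne_zero_iff.2 fun t _ => hne t
  have hPd : (∏ t, D t).totalDegree < p := by
    refine lt_of_le_of_lt ((MvPolynomial.totalDegree_finsetProd _ _).trans (Finset.sum_le_sum fun t _ => hdeg t)) ?_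
    rw [Finset.sum_const, Finset.card_univ, smul_eq_mul, mul_comm]
    exact hp
  obtain ⟨S, hS⟩ : ∃ S : Finset (Kb p), S = Finset.univ.image (algebraMap (ZMod p) (Kb p)) := ⟨_, rfl⟩
  have hSc : S.card = p := by
    rw [hS, Finset.card_image_of_injective _ (algebraMap (ZMod p) (Kb p)).injective, Finset.card_univ, ZMod.card]
  have hex : ∃ x : Fin N × Fin n → Kb p, (∀ i, x i ∈ S) ∧ MvPolynomial.eval x (∏ t, D t) ≠ 0 := by
    by_contra hcon
    push Not at hcon
    refine hP (MvPolynomial.eq_zero_of_eval_zero_at_prod_finset _ (fun _ => S) (fun i => ?_) hcon)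
    rw [hSc]
    exact lt_of_le_of_lt (MvPolynomial.degreeOf_le_totalDegree _ i) hPd
  obtain ⟨x, hx, hxe⟩ := hex
  have hx' : ∀ i, ∃ a : ZMod p, algebraMap (ZMod p) (Kb p) a = x i := by
    intro i
    have h1 := hx i
    rw [hS, Finset.mem_image] at h1
    obtain ⟨a, -, ha⟩ := h1
    exact ⟨a, ha⟩
  choose a ha using hx'
  refine ⟨fun k r => a (k, r), fun t => ?_⟩
  rw [map_prod] at hxe
  have h1 := Finset.prod_ne_zero_iff.1 hxe t (Finset.mem_univ t)
  rw [hev] at h1
  simp only [ha]
  exact h1

end LVG
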