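import Pool.Agent.Lib.MP_17a322_ntLG.D2
import Pool.Agent.Lib.MP_17a322_ntLG.D4
import Pool.Agent.Lib.MP_17a322_ntLG.D5

/-!
# LEAF GD6: the number of vectors with given products of values

PROOF.  `M = (s * ρ + 1) ^ (s * ρ)`, `p1 = s * ρ * ρ ^ s + 1`.  Let `Z`, `μ`, `y` be as in `V3`, `W = Z.toFinset`, `F = W.card` (`1 ≤ F ≤ ρ`), `z : Fin F → Fin q → Kb p` injective with range `W`.  Let `J` be the finite type `{i // i ∈ B} ⊕ ({i // i ∉ B} × Fin F)`, of cardinality `n = b + F * c ≤ s * ρ` (`b = B.card`, `c = Bᶜ.card`), `ε : Fin n ≃ J`.  For `t : Fin s → Fin F` let `l t κ` be the vector `(aeval (z (t i)) (h k i))_k` for `ε κ = inl i` and `(aeval (z l) (h k i))_k` for `ε κ = inr (i, l)`.  By the hypothesis `Spf h B z` the `n` linear forms `l t κ` take all values, so they are linearly independent (for each `κ` there is `a` with value `1` for `κ` and `0` for the others).  `iota` (the number of the `t` is `F ^ s ≤ ρ ^ s`) gives `ι : Fin N → Fin n → ZMod p`.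
For a fixed `a0 : Fin N → ZMod p` let `S` be the set of the `u : Fin n → ZMod p` such that `a = a0 + ι u` (`a k = a0 k + ∑ r, ι k r * u r`) satisfies `Cy d B y (Vl h a) Z μ`.  The image of `S` in `Fin n → Kb p` satisfies the hypotheses of `cibez` with: for `ε κ = inl i` the list (over the elements `x` of `Z`, with multiplicity: `Z.toList`) of the pairs (coefficients of `u ↦ Vl h (ι u) i x`, `Vl h a0 i x`), with product `y i / μ ^ d i`; for `ε κ = inr (i, l)` the list with the one pair for `x = z l`, with product `0`.  `hind`: a choice picks for every `i ∈ B` an element `x = z (t i)` of `Z`; the matrix of the chosen vectors is the one of `iota` for this `t`, with determinant `≠ 0`, so its rows are linearly independent (`Matrix.linearIndependent_rows_iff_isUnit`).  So `#S ≤ (b * (ρ - 1) + 1) ^ n ≤ M` (`length - 1 ≤ ρ - 1` for `i ∈ B` and `0` for the others).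
Count the pairs `(a0, u)` with `a0 + ι u` in the set `A = {a | Cy d B y (Vl h a) Z μ}`: for each `u` the map `a0 ↦ a0 + ι u` is a bijection, so there are `#A * p ^ n`, and at most `M * p ^ N`.
-/

namespace LVG

open Finset
open LVF (Kb)

private theorem D6_count {α β : Type} [Fintype α] [AddGroup α] [Fintype β] (P : α → Prop) (τ : β → α) (M : ℕ)
    (h : ∀ a0, Nat.card {u : β // P (a0 + τ u)} ≤ M) :
    Nat.card {a // P a} * Fintype.card β ≤ M * Fintype.card α := by
  classical
  have e1 : ∀ (γ : Type) [Fintype γ] (Q : γ → Prop), Nat.card {a // Q a} = ∑ a, if Q a then 1 else 0 := by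
    intro γ _ Q
    rw [Nat.card_eq_fintype_card, Fintype.card_subtype, Finset.card_filter]
  have e2 : ∀ u : β, ∑ a0, (if P (a0 + τ u) then 1 else 0) = Nat.card {a // P a} := by
    intro u
    rw [e1]
    exact Equiv.sum_comp (Equiv.addRight (τ u)) (fun a => if P a then 1 else 0)
  calc Nat.card {a // P a} * Fintype.card β = ∑ _u : β, Nat.card {a // P a} := by
        rw [Finset.sum_const, Finset.card_univ, smul_eq_mul, mul_comm]
    _ = ∑ u : β, ∑ a0, (if P (a0 + τ u) then 1 else 0) := Finset.sum_congr rfl fun u _ => (e2 u).symm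
    _ = ∑ a0, ∑ u : β, (if P (a0 + τ u) then 1 else 0) := Finset.sum_comm
    _ = ∑ a0, Nat.card {u : β // P (a0 + τ u)} := Finset.sum_congr rfl fun a0 _ => (e1 β _).symm
    _ ≤ ∑ _a0 : α, M := Finset.sum_le_sum fun a0 _ => h a0
    _ = M * Fintype.card α := by
        rw [Finset.sum_const, Finset.card_univ, smul_eq_mul, mul_comm]

private def D6_pt {s F : ℕ} {B : Finset (Fin s)} (t : Fin s → Fin F) :
    {i // i ∈ B} ⊕ ({i // i ∉ B} × Fin F) → Fin s × Fin F
  | Sum.inl i => (i.1, t i.1)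
  | Sum.inr x => (x.1.1, x.2)

private theorem D6_pt_inj {s F : ℕ} {B : Finset (Fin s)} (t : Fin s → Fin F) :
    Function.Injective (D6_pt (B := B) t) := by
  rintro (i | ⟨i, l⟩) (i' | ⟨i', l'⟩) h
  · have h1 : i.1 = i'.1 := congrArg Prod.fst h
    rw [Subtype.ext h1]
  · have h1 : i.1 = i'.1 := congrArg Prod.fst h
    exact absurd (h1 ▸ i.2) i'.2
  · have h1 : i.1 = i'.1 := congrArg Prod.fst h
    exact absurd (h1 ▸ i'.2) i.2
  · have h1 : i.1 = i'.1 := congrArg Prod.fst h
    have h2 : l = l' := congrArg Prod.snd h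
    rw [Subtype.ext h1, h2]

private theorem D6_pt_B {s F : ℕ} {B : Finset (Fin s)} (t : Fin s → Fin F)
    (j : {i // i ∈ B} ⊕ ({i // i ∉ B} × Fin F)) (h : (D6_pt t j).1 ∈ B) : (D6_pt t j).2 = t (D6_pt t j).1 := by
  rcases j with i | ⟨i, l⟩
  · rfl
  · exact absurd h i.2

private theorem D6_li {p : ℕ} [Fact p.Prime] {q N s F n : ℕ} {B : Finset (Fin s)}
    (h : Fin N → Fin s → MvPolynomial (Fin q) (ZMod p)) (z : Fin F → Fin q → Kb p) (hz : Spf h B z)
    (ε : Fin n → {i // i ∈ B} ⊕ ({i // i ∉ B} × Fin F)) (hε : Function.Injective ε) (t : Fin s → Fin F) :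
    LinearIndependent (Kb p) (fun (κ : Fin n) (k : Fin N) =>
      MvPolynomial.aeval (z (D6_pt t (ε κ)).2) (h k (D6_pt t (ε κ)).1)) := by
  classical
  rw [Fintype.linearIndependent_iff]
  intro c hc κ0
  obtain ⟨a, ha⟩ := hz t (fun i l => if D6_pt t (ε κ0) = (i, l) then 1 else 0)
  have h1 : ∀ κ, ∑ k, a k * MvPolynomial.aeval (z (D6_pt t (ε κ)).2) (h k (D6_pt t (ε κ)).1) =
      if κ0 = κ then 1 else 0 := by
    intro κ
    rw [ha (D6_pt t (ε κ)).1 (D6_pt t (ε κ)).2 (D6_pt_B t (ε κ))]
    by_cases hκ : κ0 = κ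
    · rw [if_pos hκ, if_pos (by rw [hκ])]
    · rw [if_neg hκ, if_neg]
      intro h2
      exact hκ (hε (D6_pt_inj t h2))
  have h2 : ∑ κ, c κ * ∑ k, a k * MvPolynomial.aeval (z (D6_pt t (ε κ)).2) (h k (D6_pt t (ε κ)).1) = 0 := by
    have h3 : ∑ k, a k * (∑ κ, c κ * MvPolynomial.aeval (z (D6_pt t (ε κ)).2) (h k (D6_pt t (ε κ)).1)) = 0 := by
      refine Finset.sum_eq_zero fun k _ => ?_
      have h4 := congrFun hc k
      rw [Finset.sum_apply] at h4
      have h5 : ∑ κ, c κ * MvPolynomial.aeval (z (D6_pt t (ε κ)).2) (h k (D6_pt t (ε κ)).1) = 0 := h4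
      rw [h5, mul_zero]
    rw [← h3]
    simp only [Finset.mul_sum]
    rw [Finset.sum_comm]
    exact Finset.sum_congr rfl fun k _ => Finset.sum_congr rfl fun κ _ => by ring
  simp only [h1, mul_ite, mul_one, mul_zero, Finset.sum_ite_eq, Finset.mem_univ, if_true] at h2
  exact h2

theorem v3 (ρ s : ℕ) : ∃ M p1 : ℕ, ∀ (p : ℕ) [Fact p.Prime], p1 ≤ p → ∀ {q j N : ℕ}
    (G : Finset (MvPolynomial (Fin q) (ZMod p))) (f : Fin j → MvPolynomial (Fin q) (ZMod p))
    (h : Fin N → Fin s → MvPolynomial (Fin q) (ZMod p)) (d : Fin s → ℕ) (B : Finset (Fin s)),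
    (∀ m ≤ ρ, ∀ z : Fin m → Fin q → Kb p, Function.Injective z → (∀ l, z l ∈ Gp G f) → Spf h B z) →
      V3 ρ M G f d B (Vl h) := by
  classical
  refine ⟨(s * ρ * ρ + 1) ^ (s * ρ), s * ρ * ρ ^ s + 1, ?_⟩
  intro p _ hp q j N G f h d B HH Z _ hZG hZ1 hZρ μ hμ y
  -- the points
  obtain ⟨F, hFd⟩ : ∃ F : ℕ, F = Z.toFinset.card := ⟨_, rfl⟩
  have hF1 : 1 ≤ F := by
    rw [hFd, Nat.one_le_iff_ne_zero, Ne, Finset.card_eq_zero, Multiset.toFinset_eq_empty]
    rintro rfl
    simp at hZ1
  have hFρ : F ≤ ρ := by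
    rw [hFd]
    exact (Multiset.toFinset_card_le Z).trans hZρ
  have hρ1 : 1 ≤ ρ := hF1.trans hFρ
  let eW : Fin F ≃ Z.toFinset := (Z.toFinset.equivFin.trans (finCongr hFd.symm)).symm
  let z : Fin F → Fin q → Kb p := fun l => (eW l : Fin q → Kb p)
  have hzinj : Function.Injective z := fun l l' hl => eW.injective (Subtype.ext hl)
  have hzZ : ∀ l, z l ∈ Z := fun l => Multiset.mem_toFinset.1 (eW l).2
  have hzr : ∀ x ∈ Z, ∃ l, z l = x := by
    intro x hx
    exact ⟨eW.symm ⟨x, Multiset.mem_toFinset.2 hx⟩, by simp only [z, Equiv.apply_symm_apply]⟩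
  have hspf : Spf h B z := HH F hFρ z hzinj (fun l => hZG _ (hzZ l))
  -- the index set
  obtain ⟨n, hnd⟩ : ∃ n : ℕ, n = Fintype.card ({i // i ∈ B} ⊕ ({i // i ∉ B} × Fin F)) := ⟨_, rfl⟩
  let ε : Fin n ≃ {i // i ∈ B} ⊕ ({i // i ∉ B} × Fin F) := (Fintype.equivFinOfCardEq hnd.symm).symm
  have hcB : Fintype.card {i // i ∉ B} = Bᶜ.card := by
    rw [Fintype.card_subtype_compl, Fintype.card_coe, Finset.card_compl]
  have hn : n = B.card + F * Bᶜ.card := by
    rw [hnd, Fintype.card_sum, Fintype.card_prod, Fintype.card_coe, hcB, Fintype.card_fin, mul_comm F]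
  have hBc : B.card + Bᶜ.card = s := by
    rw [Finset.card_add_card_compl, Fintype.card_fin]
  have hnle : n ≤ s * ρ := by
    have h1 : s * ρ = B.card * ρ + Bᶜ.card * ρ := by rw [← add_mul, hBc]
    rw [hn, h1]
    refine Nat.add_le_add (Nat.le_mul_of_pos_right _ hρ1) ?_
    rw [mul_comm F]
    exact Nat.mul_le_mul_left _ hFρ
  -- the substitution
  obtain ⟨ι, hι⟩ := iota (T := Fin s → Fin F) (fun t (κ : Fin n) (k : Fin N) =>
      MvPolynomial.aeval (z (D6_pt t (ε κ)).2) (h k (D6_pt t (ε κ)).1))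
    (fun t => D6_li h z hspf ε ε.injective t) (by
      rw [Fintype.card_fun, Fintype.card_fin, Fintype.card_fin]
      have h1 : n * F ^ s ≤ s * ρ * ρ ^ s := Nat.mul_le_mul hnle (Nat.pow_le_pow_left hFρ s)
      omega)
  -- the coefficients
  let cv : Fin s → (Fin q → Kb p) → Fin n → Kb p := fun i x r =>
    ∑ k, MvPolynomial.aeval x (h k i) * algebraMap (ZMod p) (Kb p) (ι k r)
  have hVl : ∀ (a0 : Fin N → ZMod p) (u : Fin n → ZMod p) (i : Fin s) (x : Fin q → Kb p),
      ∑ r, cv i x r * algebraMap (ZMod p) (Kb p) (u r) + Vl h a0 i x =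
        Vl h (a0 + fun k => ∑ r, ι k r * u r) i x := by
    intro a0 u i x
    simp only [Vl, cv, Pi.add_apply, map_add, add_mul, Finset.sum_add_distrib, map_sum, map_mul, Finset.sum_mul]
    rw [add_comm, Finset.sum_comm]
    congr 1
    exact Finset.sum_congr rfl fun k _ => Finset.sum_congr rfl fun r _ => by ring
  have hmain : ∀ a0 : Fin N → ZMod p, Nat.card {u : Fin n → ZMod p //
      LVF.Cy d B y (Vl h (a0 + fun k => ∑ r, ι k r * u r)) Z μ} ≤ (s * ρ * ρ + 1) ^ (s * ρ) := by
    intro a0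
    let Λ' : {i // i ∈ B} ⊕ ({i // i ∉ B} × Fin F) → List ((Fin n → Kb p) × Kb p) := fun j =>
      Sum.elim (fun i => Z.toList.map fun x => (cv i.1 x, Vl h a0 i.1 x))
        (fun x => [(cv x.1.1 (z x.2), Vl h a0 x.1.1 (z x.2))]) j
    let yy : Fin n → Kb p := fun κ => Sum.elim (fun i => y i.1 / μ ^ d i.1) (fun _ => 0) (ε κ)
    let em : (Fin n → ZMod p) → (Fin n → Kb p) := fun u r => algebraMap (ZMod p) (Kb p) (u r)
    have hem : Function.Injective em := by
      intro u u' huu
      funext r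
      exact (algebraMap (ZMod p) (Kb p)).injective (congrFun huu r)
    let S : Finset (Fin n → ZMod p) := Finset.univ.filter fun u =>
      LVF.Cy d B y (Vl h (a0 + fun k => ∑ r, ι k r * u r)) Z μ
    have hScard : Nat.card {u : Fin n → ZMod p // LVF.Cy d B y (Vl h (a0 + fun k => ∑ r, ι k r * u r)) Z μ} =
        (S.image em).card := by
      rw [Finset.card_image_of_injective _ hem, Nat.card_eq_fintype_card, Fintype.card_subtype]
    rw [hScard]
    have hlen : ∀ j, (Λ' j).length - 1 ≤ ρ := by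
      rintro (i | x)
      · simp only [Λ', Sum.elim_inl, List.length_map, Multiset.length_toList]
        omega
      · simp only [Λ', Sum.elim_inr, List.length_singleton]
        omega
    have hb := cibez (fun κ => Λ' (ε κ)) (by
        intro κ
        rcases hj : ε κ with i | x
        · simp only [Λ', Sum.elim_inl]
          intro h0
          have h1 := congrArg List.length h0
          rw [List.length_map, Multiset.length_toList, List.length_nil] at h1
          omega
        · simp only [Λ', Sum.elim_inr]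
          exact List.cons_ne_nil _ _) (by
        intro c hc
        have h0 : ∀ (i : Fin s) (hi : i ∈ B), ∃ l, c (ε.symm (Sum.inl ⟨i, hi⟩)) = cv i (z l) := by
          intro i hi
          obtain ⟨b, hb⟩ := hc (ε.symm (Sum.inl ⟨i, hi⟩))
          rw [Equiv.apply_symm_apply] at hb
          simp only [Λ', Sum.elim_inl] at hb
          obtain ⟨x, hx, hxe⟩ := List.mem_map.1 hb
          obtain ⟨l, rfl⟩ := hzr x (Multiset.mem_toList.1 hx)
          exact ⟨l, (congrArg Prod.fst hxe).symm⟩
        choose t0 ht0 using h0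
        let t : Fin s → Fin F := fun i => if hi : i ∈ B then t0 i hi else ⟨0, hF1⟩
        have hct : ∀ κ, c κ = cv (D6_pt t (ε κ)).1 (z (D6_pt t (ε κ)).2) := by
          intro κ
          rcases hj : ε κ with i | x
          · have h2 : κ = ε.symm (Sum.inl i) := by rw [← hj, Equiv.symm_apply_apply]
            have h3 : t i.1 = t0 i.1 i.2 := dif_pos i.2
            change c κ = cv i.1 (z (t i.1))
            rw [h3, ← ht0 i.1 i.2, h2]
          · obtain ⟨b, hb⟩ := hc κ
            rw [hj] at hb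
            simp only [Λ', Sum.elim_inr, List.mem_singleton] at hb
            exact congrArg Prod.fst hb
        have hcA : c = (Matrix.of fun (κ r : Fin n) => ∑ k, MvPolynomial.aeval (z (D6_pt t (ε κ)).2)
            (h k (D6_pt t (ε κ)).1) * algebraMap (ZMod p) (Kb p) (ι k r)) := by
          funext κ
          rw [hct κ]
          rfl
        have hdet := hι t
        rw [hcA]
        have hu := (Matrix.isUnit_iff_isUnit_det _).2 (isUnit_iff_ne_zero.2 hdet)
        exact Matrix.linearIndependent_rows_iff_isUnit.2 hu) yy (S.image em) (by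
        intro v hv κ
        obtain ⟨u, hu, rfl⟩ := Finset.mem_image.1 hv
        have hCy := (Finset.mem_filter.1 hu).2
        rcases hj : ε κ with i | x
        · simp only [Λ', yy, hj, Sum.elim_inl, List.map_map]
          have h2 := (hCy i.1).1 i.2
          have h3 : (Z.toList.map ((fun l : (Fin n → Kb p) × Kb p => ∑ t, l.1 t * em u t + l.2) ∘
              fun x => (cv i.1 x, Vl h a0 i.1 x))).prod = (Z.map (Vl h (a0 + fun k => ∑ r, ι k r * u r) i.1)).prod := by
            have h4 : ((fun l : (Fin n → Kb p) × Kb p => ∑ t, l.1 t * em u t + l.2) ∘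
              fun x => (cv i.1 x, Vl h a0 i.1 x)) = Vl h (a0 + fun k => ∑ r, ι k r * u r) i.1 :=
              funext fun x => hVl a0 u i.1 x
            rw [h4, ← Multiset.prod_coe, ← Multiset.map_coe, Multiset.coe_toList]
          rw [h3, eq_div_iff (pow_ne_zero _ hμ), mul_comm]
          exact h2
        · simp only [Λ', yy, hj, Sum.elim_inr, List.map_cons, List.map_nil, List.prod_cons, List.prod_nil, mul_one]
          exact (hVl a0 u x.1.1 (z x.2)).trans ((hCy x.1.1).2 x.1.2 (z x.2) (hzZ x.2)))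
    refine hb.trans ?_
    have h5 : ∑ κ, ((Λ' (ε κ)).length - 1) ≤ s * ρ * ρ := by
      calc ∑ κ, ((Λ' (ε κ)).length - 1) ≤ ∑ _κ : Fin n, ρ := Finset.sum_le_sum fun κ _ => hlen (ε κ)
        _ = n * ρ := by rw [Finset.sum_const, Finset.card_univ, Fintype.card_fin, smul_eq_mul]
        _ ≤ s * ρ * ρ := Nat.mul_le_mul_right ρ hnle
    calc (∑ κ, ((Λ' (ε κ)).length - 1) + 1) ^ n ≤ (s * ρ * ρ + 1) ^ n := Nat.pow_le_pow_left (by omega) n
      _ ≤ (s * ρ * ρ + 1) ^ (s * ρ) := Nat.pow_le_pow_right (by omega) hnle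
  have hfin := D6_count (fun a : Fin N → ZMod p => LVF.Cy d B y (Vl h a) Z μ)
    (fun (u : Fin n → ZMod p) k => ∑ r, ι k r * u r) _ hmain
  rw [Fintype.card_fun, Fintype.card_fin, ZMod.card] at hfin
  rw [Nat.card_eq_fintype_card (α := Fin N → ZMod p), ← hFd, ← hn]
  exact hfin

end LVG
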