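import Pool.Agent.Lib.MP_17a322_ntLF.RDefs
import Pool.Agent.Lib.MP_17a322_ntLF.Fc

/-! Integral points of bounded degree, arbitrary linear systems: definitions. -/

namespace LVG

open Finset NumberField
open LVF (Kb fr Nm vp Cyc Cu SL Cy Fs EW Pr Gv)

/-- the linear combinations of the vectors of polynomials `h k` take all values at the points `z l`; for the components
`i ∈ B` only one point `z (t i)` is considered -/
def Spf {R F : Type} [CommRing R] [Field F] [Algebra R F] {N s q m : ℕ} (h : Fin N → Fin s → MvPolynomial (Fin q) R)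
    (B : Finset (Fin s)) (z : Fin m → Fin q → F) : Prop :=
  ∀ (t : Fin s → Fin m) (y : Fin s → Fin m → F), ∃ a : Fin N → F, ∀ i l, (i ∈ B → l = t i) →
    ∑ k, a k * MvPolynomial.aeval (z l) (h k i) = y i l

/-- for at most `ρ` distinct geometric points of the projective variety of `P` on none of the hypersurfaces `f l = 0`, the
linear combinations of the vectors of forms `g k` take all values at these points; for the components `i ∈ B` only at any
one of the points -/
def SP {K : Type} [Field K] [NumberField K] {q j N s : ℕ} (ρ : ℕ) (P : Ideal (MvPolynomial (Fin q) K))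
    (f : Fin j → MvPolynomial (Fin q) (𝓞 K)) (g : Fin N → Fin s → MvPolynomial (Fin q) (𝓞 K)) (B : Finset (Fin s)) :
    Prop :=
  ∀ m ≤ ρ, ∀ z : Fin m → Fin q → AlgebraicClosure K, (∀ l, z l ≠ 0) → (∀ l, ∀ h ∈ P, MvPolynomial.aeval (z l) h = 0) →
    (∀ l k, MvPolynomial.aeval (z l) (MvPolynomial.map (algebraMap (𝓞 K) K) (f k)) ≠ 0) →
      (∀ l l', l ≠ l' → ∀ c : AlgebraicClosure K, z l ≠ c • z l') →
        Spf (fun k i => MvPolynomial.map (algebraMap (𝓞 K) K) (g k i)) B z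

section

variable {p : ℕ} [Fact p.Prime] {q j s : ℕ} {Ω : Type}

/-- the normalised zeros of `G` at which all `f l` are different from `0` -/
def Gp (G : Finset (MvPolynomial (Fin q) (ZMod p))) (f : Fin j → MvPolynomial (Fin q) (ZMod p)) : Set (Fin q → Kb p) :=
  {x | Nm x ∧ (∀ h ∈ G, MvPolynomial.aeval x h = 0) ∧ ∀ l, MvPolynomial.aeval x (f l) ≠ 0}

/-- compatibility with Frobenius -/
def V1 (V : Ω → Fin s → (Fin q → Kb p) → Kb p) : Prop := ∀ a i x, V a i (fr p x) = V a i x ^ p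

/-- the values at the Frobenius stable sets of at most `R` good points are equidistributed -/
def V2 (R : ℕ) (G : Finset (MvPolynomial (Fin q) (ZMod p))) (f : Fin j → MvPolynomial (Fin q) (ZMod p))
    (V : Ω → Fin s → (Fin q → Kb p) → Kb p) : Prop :=
  ∀ W : Finset (Fin q → Kb p), Fs W → (∀ x ∈ W, x ∈ Gp G f) → W.card ≤ R → ∀ v : Fin s → W → Kb p,
    (∀ i, v i ∈ EW W) → Nat.card {a : Ω // ∀ i (x : W), V a i (x : Fin q → Kb p) = v i x} * p ^ (s * W.card) = Nat.card Ω

open Classical in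
/-- the bound for the number of the `a` with given products of values at a cycle of good points -/
def V3 (ρ M : ℕ) (G : Finset (MvPolynomial (Fin q) (ZMod p))) (f : Fin j → MvPolynomial (Fin q) (ZMod p))
    (d : Fin s → ℕ) (B : Finset (Fin s)) (V : Ω → Fin s → (Fin q → Kb p) → Kb p) : Prop :=
  ∀ Z : Multiset (Fin q → Kb p), Z.map (fr p) = Z → (∀ x ∈ Z, x ∈ Gp G f) → 1 ≤ Multiset.card Z →
    Multiset.card Z ≤ ρ → ∀ μ : Kb p, μ ≠ 0 → ∀ y : Fin s → Kb p,
      Nat.card {a : Ω // Cy d B y (V a) Z μ} * p ^ (B.card + Z.toFinset.card * Bᶜ.card) ≤ M * Nat.card Ω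

/-- the local condition on the functions `V i`: there is a cycle of degree at most `ρ` with the given values -/
def RG (ρ : ℕ) (G : Finset (MvPolynomial (Fin q) (ZMod p))) (e : Fin j → ℕ)
    (f : Fin j → MvPolynomial (Fin q) (ZMod p)) (d : Fin s → ℕ) (B : Finset (Fin s)) (u : Fin j → Kb p)
    (y : Fin s → Kb p) (V : Fin s → (Fin q → Kb p) → Kb p) : Prop :=
  ∃ m, 1 ≤ m ∧ m ≤ ρ ∧ ∃ Z ∈ Cyc G m, ∃ μ, Cu e f u Z μ ∧ Cy d B y V Z (algebraMap (ZMod p) (Kb p) μ)

/-- the condition `X` depends only on the values at the elements of `W` -/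
def Sp (V : Ω → Fin s → (Fin q → Kb p) → Kb p) (W : Finset (Fin q → Kb p)) (X : Ω → Prop) : Prop :=
  ∀ a b, (∀ x ∈ W, ∀ i, V a i x = V b i x) → (X a ↔ X b)

/-- the functions `V a i` have the given values at the cycle `T` -/
def Ev (e : Fin j → ℕ) (f : Fin j → MvPolynomial (Fin q) (ZMod p)) (u : Fin j → Kb p) (d : Fin s → ℕ)
    (B : Finset (Fin s)) (y : Fin s → Kb p) (V : Ω → Fin s → (Fin q → Kb p) → Kb p) (T : Finset (Fin q → Kb p))
    (a : Ω) : Prop :=
  ∃ μ, Cu e f u T.val μ ∧ Cy d B y (V a) T.val (algebraMap (ZMod p) (Kb p) μ)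

end

/-- the local density statement for the vectors `∑ k, c k * g k` -/
def LDG {K : Type} [Field K] [NumberField K] {q j s N : ℕ} (ρ : ℕ) (G : Finset (MvPolynomial (Fin q) (𝓞 K)))
    (e : Fin j → ℕ) (f : Fin j → MvPolynomial (Fin q) (𝓞 K)) (d : Fin s → ℕ) (B : Finset (Fin s))
    (g : Fin N → Fin s → MvPolynomial (Fin q) (𝓞 K)) : Prop :=
  ∃ c : ℝ, 0 < c ∧ c < 1 ∧ ∃ p0 : ℕ, ∀ (p : ℕ) [Fact p.Prime], p0 ≤ p → ∀ (φ : 𝓞 K →+* ZMod p) (u : Fin j → Kb p),
    (∀ l, u l ≠ 0) → ∀ y : Fin s → Kb p, (∀ i, y i ≠ 0 ↔ i ∈ B) →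
      (Nat.card {c : Fin N → ZMod p // RG ρ (G.image (MvPolynomial.map φ)) e (fun l => MvPolynomial.map φ (f l)) d B u y
        (Gv g φ c)} : ℝ) ≤ (1 - c) * (p : ℝ) ^ N

end LVG
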