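import Pool.Agent.Lib.MP_17a322_ntLG.Defs
import Pool.Agent.Lib.MP_17a322_ntLF.E2
import Pool.Agent.Lib.MP_17a322_ntLF.Cnt

/-!
# LEAF GE3: the union bound for the cycles with at most `F0` points

PROOF.  Adapt `LVF.ub` (file `MP_17a322_ntLF/E3.lean`): `Ω` in place of `Mo → ZMod p`, `V` in place of `Fb`, and the hypothesis `V3` in place of `LVF.sz` (with `M` in place of `ρ ^ b`).  The elements of a cycle `Z` with `Cu e g u Z μ`, `u l ≠ 0`, are in `Gp G g`: `vp Z (g l) ≠ 0`, so `aeval x (g l) ≠ 0` for `x ∈ Z`.  So in the union over the tuples `z` restrict to those for which moreover all elements of `Zo f m z` are in `Gp G g`.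
-/

namespace LVG

open Finset
open LVF (Kb fr Nm vp Cyc Cu SL Cy)
open LVF (Zo Fx nf Sh ubl shp fx_fin zo_card)

private theorem E3_union {A T : Type} [Finite A] [Fintype T] (Q : T → A → Prop) (D : ℕ) (M : T → ℕ)
    (h : ∀ t, Nat.card {a // Q t a} * D ≤ M t) : Nat.card {a // ∃ t, Q t a} * D ≤ ∑ t, M t := by
  classical
  have := Fintype.ofFinite A
  have h1 : Nat.card {a // ∃ t, Q t a} ≤ ∑ t, Nat.card {a // Q t a} := by
    simp only [Nat.card_eq_fintype_card, Fintype.card_subtype]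
    refine le_trans (Finset.card_le_card ?_) Finset.card_biUnion_le
    intro a ha
    simp only [Finset.mem_filter, Finset.mem_univ, true_and, Finset.mem_biUnion] at ha ⊢
    exact ha
  calc Nat.card {a // ∃ t, Q t a} * D ≤ (∑ t, Nat.card {a // Q t a}) * D := Nat.mul_le_mul_right _ h1
    _ = ∑ t, Nat.card {a // Q t a} * D := Finset.sum_mul _ _ _
    _ ≤ _ := Finset.sum_le_sum fun t _ => h t

private theorem E3_ne {p : ℕ} [Fact p.Prime] {q j : ℕ} {e : Fin j → ℕ} {g : Fin j → MvPolynomial (Fin q) (ZMod p)}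
    {u : Fin j → Kb p} {Z : Multiset (Fin q → Kb p)} {μ : ZMod p} (h : Cu e g u Z μ) {l : Fin j} (hu : u l ≠ 0)
    {x : Fin q → Kb p} (hx : x ∈ Z) : MvPolynomial.aeval x (g l) ≠ 0 := by
  intro h0
  apply hu
  rw [← h.2 l]
  have h1 : vp Z (g l) = 0 := Multiset.prod_eq_zero (Multiset.mem_map.2 ⟨x, hx, h0⟩)
  rw [h1, mul_zero]

open Classical in
private theorem E3_one (C j s ρ n r M : ℕ) (B : Finset (Fin s)) (hn : r + j = n + Bᶜ.card + 1) (k : ℕ) (hk : 1 ≤ k)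
    (f m : Fin k → ℕ) (hf : ∀ a, 1 ≤ f a) (hm : ∀ a, 1 ≤ m a) (hρ : ∑ a, f a * m a ≤ ρ) : ∃ A : ℕ, ∀ (p : ℕ) [Fact p.Prime]
    {q : ℕ} (G : Finset (MvPolynomial (Fin q) (ZMod p))) (_ : ∀ g ∈ G, ∃ n, g.IsHomogeneous n)
    (e : Fin j → ℕ) (g : Fin j → MvPolynomial (Fin q) (ZMod p)) (_ : ∀ l, (g l).IsHomogeneous (e l))
    (_ : SL G g r C) (u : Fin j → Kb p) (_ : ∀ l, u l ≠ 0) (d : Fin s → ℕ) (Ω : Type) [Finite Ω]
    (V : Ω → Fin s → (Fin q → Kb p) → Kb p) (_ : V3 ρ M G g d B V) (y : Fin s → Kb p),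
    Nat.card {a : Ω // ∃ w : (Fin k → Fin q → Kb p) × ZMod p,
      (((∀ a, Nm (w.1 a) ∧ Fx (f a) (w.1 a) ∧ ∀ h ∈ G, MvPolynomial.aeval (w.1 a) h = 0) ∧ w.2 ≠ 0 ∧
          ∀ l, algebraMap (ZMod p) (Kb p) w.2 ^ e l * ∏ a, nf p (f a) (MvPolynomial.aeval (w.1 a) (g l)) ^ m a = u l) ∧
        (Zo f m w.1).map (fr p) = Zo f m w.1 ∧ (∀ x ∈ Zo f m w.1, x ∈ Gp G g) ∧ (Zo f m w.1).toFinset.card = ∑ a, f a) ∧
        Cy d B y (V a) (Zo f m w.1) (algebraMap (ZMod p) (Kb p) w.2)} * p ^ (j + B.card) ≤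
      A * p ^ ((∑ a, f a) * n + 1) * Nat.card Ω := by
  obtain ⟨A, hA⟩ := LVF.cnt C j k hk f m hf hm
  refine ⟨A * M, ?_⟩
  intro p _ q G hG e g hg hS u hu d Ω _ V hV y
  have hc := hA p G hG e g hg r hS u hu
  have hp0 : 0 < p := (Fact.out : p.Prime).pos
  have hFρ : ∑ a, f a ≤ ρ := le_trans (Finset.sum_le_sum fun a _ => by nlinarith [hm a]) hρ
  have hfin : {w : (Fin k → Fin q → Kb p) × ZMod p |
      ((∀ a, Nm (w.1 a) ∧ Fx (f a) (w.1 a) ∧ ∀ h ∈ G, MvPolynomial.aeval (w.1 a) h = 0) ∧ w.2 ≠ 0 ∧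
          ∀ l, algebraMap (ZMod p) (Kb p) w.2 ^ e l * ∏ a, nf p (f a) (MvPolynomial.aeval (w.1 a) (g l)) ^ m a =
            u l)}.Finite := by
    refine Set.Finite.subset (Set.Finite.prod (Set.Finite.pi' fun a => fx_fin (p := p) (q := q) (hf a))
      (Set.finite_univ (α := ZMod p))) ?_
    intro w hw
    exact ⟨fun a => (hw.1 a).2.1, Set.mem_univ _⟩
  have hu1 := ubl (A := Ω) (T := (Fin k → Fin q → Kb p) × ZMod p)
    (fun w => ((∀ a, Nm (w.1 a) ∧ Fx (f a) (w.1 a) ∧ ∀ h ∈ G, MvPolynomial.aeval (w.1 a) h = 0) ∧ w.2 ≠ 0 ∧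
          ∀ l, algebraMap (ZMod p) (Kb p) w.2 ^ e l * ∏ a, nf p (f a) (MvPolynomial.aeval (w.1 a) (g l)) ^ m a = u l) ∧
        (Zo f m w.1).map (fr p) = Zo f m w.1 ∧ (∀ x ∈ Zo f m w.1, x ∈ Gp G g) ∧ (Zo f m w.1).toFinset.card = ∑ a, f a)
    (hfin.subset fun w hw => hw.1)
    (fun w a => Cy d B y (V a) (Zo f m w.1) (algebraMap (ZMod p) (Kb p) w.2))
    (p ^ (B.card + (∑ a, f a) * Bᶜ.card)) (M * Nat.card Ω) (by
      intro w hw
      obtain ⟨⟨h1, h2, h3⟩, h4, h5, h6⟩ := hw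
      have hcard := zo_card (p := p) f m w.1
      have hc1 : 1 ≤ Multiset.card (Zo f m w.1) := by
        rw [hcard]
        have h7 := Finset.single_le_sum (f := fun a => f a * m a) (fun a _ => Nat.zero_le _) (Finset.mem_univ (⟨0, hk⟩ : Fin k))
        exact le_trans (Nat.mul_pos (hf _) (hm _)) h7
      have hμ : algebraMap (ZMod p) (Kb p) w.2 ≠ 0 := by
        intro h
        exact h2 ((map_eq_zero_iff _ (algebraMap (ZMod p) (Kb p)).injective).1 h)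
      have hs := hV (Zo f m w.1) h4 h5 hc1 (by rw [hcard]; exact hρ) _ hμ y
      rw [h6] at hs
      exact hs)
  refine le_of_mul_le_mul_right ?_ (pow_pos hp0 ((∑ a, f a) * Bᶜ.card + ∑ a, f a))
  have hcount := Nat.mul_le_mul_right (p ^ (j + ∑ a, f a)) (Nat.card_mono hfin (fun w (hw :
      ((∀ a, Nm (w.1 a) ∧ Fx (f a) (w.1 a) ∧ ∀ h ∈ G, MvPolynomial.aeval (w.1 a) h = 0) ∧ w.2 ≠ 0 ∧
          ∀ l, algebraMap (ZMod p) (Kb p) w.2 ^ e l * ∏ a, nf p (f a) (MvPolynomial.aeval (w.1 a) (g l)) ^ m a = u l) ∧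
        (Zo f m w.1).map (fr p) = Zo f m w.1 ∧ (∀ x ∈ Zo f m w.1, x ∈ Gp G g) ∧ (Zo f m w.1).toFinset.card = ∑ a, f a) => hw.1))
  have hcount2 := le_trans hcount hc
  clear hcount hc
  rw [hn] at hcount2

  set X := Nat.card {a : Ω // ∃ w : (Fin k → Fin q → Kb p) × ZMod p,
      (((∀ a, Nm (w.1 a) ∧ Fx (f a) (w.1 a) ∧ ∀ h ∈ G, MvPolynomial.aeval (w.1 a) h = 0) ∧ w.2 ≠ 0 ∧
          ∀ l, algebraMap (ZMod p) (Kb p) w.2 ^ e l * ∏ a, nf p (f a) (MvPolynomial.aeval (w.1 a) (g l)) ^ m a = u l) ∧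
        (Zo f m w.1).map (fr p) = Zo f m w.1 ∧ (∀ x ∈ Zo f m w.1, x ∈ Gp G g) ∧ (Zo f m w.1).toFinset.card = ∑ a, f a) ∧
        Cy d B y (V a) (Zo f m w.1) (algebraMap (ZMod p) (Kb p) w.2)} with hX
  set Y := Nat.card {w : (Fin k → Fin q → Kb p) × ZMod p //
      ((∀ a, Nm (w.1 a) ∧ Fx (f a) (w.1 a) ∧ ∀ h ∈ G, MvPolynomial.aeval (w.1 a) h = 0) ∧ w.2 ≠ 0 ∧
          ∀ l, algebraMap (ZMod p) (Kb p) w.2 ^ e l * ∏ a, nf p (f a) (MvPolynomial.aeval (w.1 a) (g l)) ^ m a = u l) ∧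
        (Zo f m w.1).map (fr p) = Zo f m w.1 ∧ (∀ x ∈ Zo f m w.1, x ∈ Gp G g) ∧ (Zo f m w.1).toFinset.card = ∑ a, f a} with hY
  have hcount3 : Y * p ^ (j + ∑ a, f a) ≤ A * p ^ ((∑ a, f a) * (n + Bᶜ.card + 1) + 1) := hcount2
  set F := ∑ a, f a with hF
  set c := Bᶜ.card with hcc
  set N := Nat.card Ω with hN
  set b := B.card with hb
  calc X * p ^ (j + b) * p ^ (F * c + F) = (X * p ^ (b + F * c)) * p ^ (j + F) := by
        rw [mul_assoc, mul_assoc, ← pow_add, ← pow_add]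
        congr 2
        ring
    _ ≤ (Y * (M * N)) * p ^ (j + F) := Nat.mul_le_mul_right _ hu1
    _ = (Y * p ^ (j + F)) * (M * N) := by ring
    _ ≤ (A * p ^ (F * (n + c + 1) + 1)) * (M * N) := Nat.mul_le_mul_right _ hcount3
    _ = A * M * p ^ (F * n + 1) * N * p ^ (F * c + F) := by
        have h1 : F * (n + c + 1) + 1 = (F * n + 1) + (F * c + F) := by ring
        rw [h1, pow_add]
        ring

open Classical in
theorem ubG (C j s ρ n r M : ℕ) (B : Finset (Fin s)) (hn : r + j = n + Bᶜ.card + 1) : ∃ A : ℕ, ∀ (p : ℕ) [Fact p.Prime]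
    {q : ℕ} (G : Finset (MvPolynomial (Fin q) (ZMod p))) (_ : ∀ g ∈ G, ∃ n, g.IsHomogeneous n)
    (e : Fin j → ℕ) (g : Fin j → MvPolynomial (Fin q) (ZMod p)) (_ : ∀ l, (g l).IsHomogeneous (e l))
    (_ : SL G g r C) (u : Fin j → Kb p) (_ : ∀ l, u l ≠ 0) (d : Fin s → ℕ) (Ω : Type) [Finite Ω]
    (V : Ω → Fin s → (Fin q → Kb p) → Kb p) (_ : V3 ρ M G g d B V) (y : Fin s → Kb p) (F0 : ℕ), F0 ≤ ρ →
    Nat.card {a : Ω // ∃ m, 1 ≤ m ∧ m ≤ ρ ∧ ∃ Z ∈ Cyc G m, Z.toFinset.card ≤ F0 ∧ ∃ μ,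
      Cu e g u Z μ ∧ Cy d B y (V a) Z (algebraMap (ZMod p) (Kb p) μ)} * p ^ (j + B.card) ≤
        A * p ^ (F0 * n + 1) * Nat.card Ω := by
  classical
  let Good : Sh ρ → Prop := fun t => 1 ≤ (t.1 : ℕ) ∧ (∀ a, 1 ≤ (t.2.1 a : ℕ)) ∧ (∀ a, 1 ≤ (t.2.2 a : ℕ)) ∧
    ∑ a, (t.2.1 a : ℕ) * (t.2.2 a : ℕ) ≤ ρ
  choose A hA using fun t : {t : Sh ρ // Good t} => E3_one C j s ρ n r M B hn (t.1.1 : ℕ) t.2.1
    (fun a => (t.1.2.1 a : ℕ)) (fun a => (t.1.2.2 a : ℕ)) t.2.2.1 t.2.2.2.1 t.2.2.2.2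
  refine ⟨∑ t, A t, ?_⟩
  intro p _ q G hG e g hg hS u hu d Ω _ V hV y F0 hF0
  have hp0 : 0 < p := (Fact.out : p.Prime).pos
  have hU := E3_union (A := Ω) (T := {t : Sh ρ // Good t})
    (fun t a => ∑ i, (t.1.2.1 i : ℕ) ≤ F0 ∧ ∃ w : (Fin (t.1.1 : ℕ) → Fin q → Kb p) × ZMod p,
      (((∀ i, Nm (w.1 i) ∧ Fx (t.1.2.1 i : ℕ) (w.1 i) ∧ ∀ h ∈ G, MvPolynomial.aeval (w.1 i) h = 0) ∧ w.2 ≠ 0 ∧
          ∀ l, algebraMap (ZMod p) (Kb p) w.2 ^ e l *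
            ∏ i, nf p (t.1.2.1 i : ℕ) (MvPolynomial.aeval (w.1 i) (g l)) ^ (t.1.2.2 i : ℕ) = u l) ∧
        (Zo (fun i => (t.1.2.1 i : ℕ)) (fun i => (t.1.2.2 i : ℕ)) w.1).map (fr p) =
          Zo (fun i => (t.1.2.1 i : ℕ)) (fun i => (t.1.2.2 i : ℕ)) w.1 ∧
        (∀ x ∈ Zo (fun i => (t.1.2.1 i : ℕ)) (fun i => (t.1.2.2 i : ℕ)) w.1, x ∈ Gp G g) ∧
        (Zo (fun i => (t.1.2.1 i : ℕ)) (fun i => (t.1.2.2 i : ℕ)) w.1).toFinset.card = ∑ i, (t.1.2.1 i : ℕ)) ∧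
        Cy d B y (V a) (Zo (fun i => (t.1.2.1 i : ℕ)) (fun i => (t.1.2.2 i : ℕ)) w.1)
          (algebraMap (ZMod p) (Kb p) w.2))
    (p ^ (j + B.card)) (fun t => A t * p ^ (F0 * n + 1) * Nat.card Ω) (by
      intro t
      by_cases ht : ∑ i, (t.1.2.1 i : ℕ) ≤ F0
      · simp only [ht, true_and]
        refine le_trans (hA t p G hG e g hg hS u hu d Ω V hV y) ?_
        refine Nat.mul_le_mul_right _ (Nat.mul_le_mul_left _ (Nat.pow_le_pow_right hp0 ?_))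
        exact Nat.add_le_add_right (Nat.mul_le_mul_right _ ht) _
      · simp only [ht, false_and]
        simp)
  refine le_trans (Nat.mul_le_mul_right _ ?_) (le_trans hU ?_)
  · refine Nat.card_mono (Set.toFinite _) ?_
    rintro a ⟨m, h1, h2, Z, ⟨hc, hN, hfr⟩, hcF, μ, hCu, hCy⟩
    obtain ⟨t, z, ht1, ht2, hZ, htF, htm, hz, hvp⟩ := shp (ρ := ρ) Z hfr (by rw [hc]; exact h1) (by rw [hc]; exact h2)
    refine ⟨⟨t, ht1, fun a => (ht2 a).1, fun a => (ht2 a).2, ?_⟩, ?_, (z, μ), ⟨⟨?_, hCu.1, ?_⟩, ?_, ?_, ?_⟩, ?_⟩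
    · rw [htm, hc]
      exact h2
    · rw [htF]
      exact hcF
    · intro i
      exact ⟨(hN _ (hz i).1).1, (hz i).2, (hN _ (hz i).1).2⟩
    · intro l
      have := hCu.2 l
      rw [hvp] at this
      exact this
    · simp only
      rw [← hZ]
      exact hfr
    · simp only
      rw [← hZ]
      exact fun x hx => ⟨(hN x hx).1, (hN x hx).2, fun l => E3_ne hCu (hu l) hx⟩
    · simp only
      rw [← hZ, htF]
    · simp only
      rw [← hZ]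
      exact hCy
  · rw [Finset.sum_mul, Finset.sum_mul]

end LVG
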