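import Pool.Agent.Lib.MP_17a322_ntLG.E3
import Pool.Agent.Lib.MP_17a322_ntLF.P1

/-!
# LEAF GE5: the density in the noncritical case, abstract form

PROOF.  `A` from `ubG` (with `F0 = ρ`).  `RG` implies the condition of `ubG` (`Z.toFinset.card ≤ card Z = m ≤ ρ`), so the cardinality times `p ^ (j + b)` is at most `A * p ^ (ρ n + 1) * #Ω`, and `p ^ (ρ n + 1) * p ≤ p ^ (j + b)`: the cardinality is at most `A / p * #Ω`.  `p0 = 2 A`.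
-/

namespace LVG

open Finset
open LVF (Kb fr Nm vp Cyc Cu SL Cy)

theorem noncA (C j s ρ n r M : ℕ) (B : Finset (Fin s)) (hn : r + j = n + Bᶜ.card + 1) (hj : ρ * n + 2 ≤ j + B.card) :
    ∃ p0 : ℕ, ∀ (p : ℕ) [Fact p.Prime], p0 ≤ p → ∀ {q : ℕ} (G : Finset (MvPolynomial (Fin q) (ZMod p)))
    (_ : ∀ g ∈ G, ∃ n, g.IsHomogeneous n)
    (e : Fin j → ℕ) (g : Fin j → MvPolynomial (Fin q) (ZMod p)) (_ : ∀ l, (g l).IsHomogeneous (e l))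
    (_ : SL G g r C) (u : Fin j → Kb p) (_ : ∀ l, u l ≠ 0) (d : Fin s → ℕ) (Ω : Type) [Finite Ω]
    (V : Ω → Fin s → (Fin q → Kb p) → Kb p) (_ : V3 ρ M G g d B V) (y : Fin s → Kb p),
    Nat.card {a : Ω // RG ρ G e g d B u y (V a)} * 2 ≤ Nat.card Ω := by
  classical
  obtain ⟨A, hA⟩ := ubG C j s ρ n r M B hn
  refine ⟨2 * A, ?_⟩
  intro p _ hp q G hG e g hg hS u hu d Ω _ V hV y
  have hp0 : 0 < p := (Fact.out : p.Prime).pos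
  have h1 := hA p G hG e g hg hS u hu d Ω V hV y ρ le_rfl
  have h2 : Nat.card {a : Ω // RG ρ G e g d B u y (V a)} ≤ Nat.card {a : Ω // ∃ m, 1 ≤ m ∧ m ≤ ρ ∧ ∃ Z ∈ Cyc G m,
      Z.toFinset.card ≤ ρ ∧ ∃ μ, Cu e g u Z μ ∧ Cy d B y (V a) Z (algebraMap (ZMod p) (Kb p) μ)} := by
    refine Nat.card_mono (Set.toFinite _) ?_
    rintro a ⟨m, hm1, hm2, Z, hZ, μ, hCu, hCy⟩
    exact ⟨m, hm1, hm2, Z, hZ, le_trans (Multiset.toFinset_card_le Z) (by rw [hZ.1]; exact hm2), μ, hCu, hCy⟩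
  refine le_of_mul_le_mul_right ?_ (pow_pos hp0 (j + B.card))
  calc Nat.card {a : Ω // RG ρ G e g d B u y (V a)} * 2 * p ^ (j + B.card)
      ≤ Nat.card {a : Ω // ∃ m, 1 ≤ m ∧ m ≤ ρ ∧ ∃ Z ∈ Cyc G m,
      Z.toFinset.card ≤ ρ ∧ ∃ μ, Cu e g u Z μ ∧ Cy d B y (V a) Z (algebraMap (ZMod p) (Kb p) μ)} * 2 * p ^ (j + B.card) :=
        Nat.mul_le_mul_right _ (Nat.mul_le_mul_right _ h2)
    _ = 2 * (Nat.card {a : Ω // ∃ m, 1 ≤ m ∧ m ≤ ρ ∧ ∃ Z ∈ Cyc G m,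
      Z.toFinset.card ≤ ρ ∧ ∃ μ, Cu e g u Z μ ∧ Cy d B y (V a) Z (algebraMap (ZMod p) (Kb p) μ)} * p ^ (j + B.card)) := by ring
    _ ≤ 2 * (A * p ^ (ρ * n + 1) * Nat.card Ω) := Nat.mul_le_mul_left _ h1
    _ = (2 * A) * (p ^ (ρ * n + 1) * Nat.card Ω) := by ring
    _ ≤ p * (p ^ (ρ * n + 1) * Nat.card Ω) := Nat.mul_le_mul_right _ hp
    _ = Nat.card Ω * p ^ (ρ * n + 2) := by ring
    _ ≤ Nat.card Ω * p ^ (j + B.card) := Nat.mul_le_mul_left _ (Nat.pow_le_pow_right hp0 hj)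

end LVG
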