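import Pool.Agent.Lib.MP_17a322_ntLG.Defs
import Pool.Agent.Lib.MP_17a322_ntLF.Fa3

/-!
# LEAF GF1: the distribution of the values on two disjoint sets

PROOF.  Adapt `LVF.split_le`, `LVF.split_eq` (file `MP_17a322_ntLF/Fb1.lean`): `Ω` in place of `Mo → ZMod p`, `V` in place of `Fb`, `V2` (with `R ≥ W.card + N.card`) in place of `evN`, `V1` in place of `fv_fr`.
-/

namespace LVG

open Finset
open LVF (Kb fr Fs EW)

private theorem GF1_EW {p : ℕ} [Fact p.Prime] {q s : ℕ} {Ω : Type}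
    {V : Ω → Fin s → (Fin q → Kb p) → Kb p} (hV1 : V1 V) (W : Finset (Fin q → Kb p))
    (a : Ω) (i : Fin s) : (fun x : W => V a i (x : Fin q → Kb p)) ∈ EW W := by
  intro x y h
  show V a i (y : Fin q → Kb p) = V a i (x : Fin q → Kb p) ^ p
  rw [h]
  exact hV1 a i x

private theorem GF1_card {p : ℕ} [Fact p.Prime] {q : ℕ} (s : ℕ) (N : Finset (Fin q → Kb p)) (hN : Fs N) :
    Finite {v : Fin s → N → Kb p // ∀ i, v i ∈ EW N} ∧
      Nat.card {v : Fin s → N → Kb p // ∀ i, v i ∈ EW N} = p ^ (s * N.card) := by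
  have hp : 0 < p := (Fact.out : p.Prime).pos
  have hfin : Finite (EW N) := Nat.finite_of_card_ne_zero (by
    rw [LVF.ne N hN]
    exact (pow_pos hp _).ne')
  have e : {v : Fin s → N → Kb p // ∀ i, v i ∈ EW N} ≃ ((_ : Fin s) → EW N) :=
    { toFun := fun v i => ⟨v.1 i, v.2 i⟩
      invFun := fun w => ⟨fun i => (w i).1, fun i => (w i).2⟩
      left_inv := fun _ => rfl
      right_inv := fun _ => rfl }
  refine ⟨Finite.of_equiv _ e.symm, ?_⟩
  rw [Nat.card_congr e, Nat.card_pi, Finset.prod_const, Finset.card_univ, Fintype.card_fin, LVF.ne N hN,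
    ← pow_mul, mul_comm]

open Classical in
/-- the number of the `a` with the values of `a0` on `W` and the values `v` on `N` -/
private theorem GF1_fib {p : ℕ} [Fact p.Prime] {q j s R : ℕ} {Ω : Type} [Fintype Ω]
    {G : Finset (MvPolynomial (Fin q) (ZMod p))} {f : Fin j → MvPolynomial (Fin q) (ZMod p)}
    {V : Ω → Fin s → (Fin q → Kb p) → Kb p} (hV1 : V1 V) (hV2 : V2 R G f V)
    (W N : Finset (Fin q → Kb p)) (hW : Fs W)
    (hN : Fs N) (hWG : ∀ x ∈ W, x ∈ Gp G f) (hNG : ∀ x ∈ N, x ∈ Gp G f)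
    (hWN : Disjoint W N) (hd : W.card + N.card ≤ R) (a0 : Ω)
    (v : Fin s → N → Kb p) (hv : ∀ i, v i ∈ EW N) :
    (univ.filter fun a : Ω =>
      (∀ x ∈ W, ∀ i, V a i x = V a0 i x) ∧ (fun i (x : N) => V a i (x : Fin q → Kb p)) = v).card =
      Nat.card Ω / p ^ (s * (W ∪ N).card) := by
  have hp : 0 < p := (Fact.out : p.Prime).pos
  have hT : Fs (W ∪ N) := by
    intro x hx
    rcases Finset.mem_union.1 hx with h | h
    · exact ⟨(hW x h).1, Finset.mem_union_left _ (hW x h).2⟩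
    · exact ⟨(hN x h).1, Finset.mem_union_right _ (hN x h).2⟩
  obtain ⟨u, hu⟩ : ∃ u : Fin s → (W ∪ N : Finset (Fin q → Kb p)) → Kb p, u =
      fun (i : Fin s) (x : (W ∪ N : Finset (Fin q → Kb p))) =>
        if h : (x : Fin q → Kb p) ∈ W then V a0 i (x : Fin q → Kb p)
        else v i ⟨(x : Fin q → Kb p), (Finset.mem_union.1 x.2).resolve_left h⟩ := ⟨_, rfl⟩
  have huW : ∀ i (x : (W ∪ N : Finset (Fin q → Kb p))), (x : Fin q → Kb p) ∈ W →
      u i x = V a0 i (x : Fin q → Kb p) := by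
    intro i x h
    rw [hu]
    exact dif_pos h
  have huN : ∀ i (x : (W ∪ N : Finset (Fin q → Kb p))) (h : (x : Fin q → Kb p) ∈ N), u i x = v i ⟨x, h⟩ := by
    intro i x h
    have h' : (x : Fin q → Kb p) ∉ W := fun h'' => (Finset.disjoint_left.1 hWN) h'' h
    rw [hu]
    exact dif_neg h'
  have huE : ∀ i, u i ∈ EW (W ∪ N) := by
    intro i x y hxy
    rcases Finset.mem_union.1 x.2 with h | h
    · have h' : (y : Fin q → Kb p) ∈ W := by
        rw [hxy]
        exact (hW x h).2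
      rw [huW i x h, huW i y h', hxy]
      exact hV1 a0 i x
    · have h' : (y : Fin q → Kb p) ∈ N := by
        rw [hxy]
        exact (hN x h).2
      rw [huN i x h, huN i y h']
      exact hv i ⟨x, h⟩ ⟨y, h'⟩ hxy
  have hcard := hV2 (W ∪ N) hT (fun x hx => (Finset.mem_union.1 hx).elim (hWG x) (hNG x)) (by
    rw [Finset.card_union_of_disjoint hWN]
    exact hd) u huE
  symm
  apply Nat.div_eq_of_eq_mul_left (pow_pos hp _)
  rw [← hcard, Nat.card_eq_fintype_card, Fintype.card_subtype]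
  congr 2
  ext a
  rw [Finset.mem_filter, Finset.mem_filter]
  refine and_congr_right fun _ => ?_
  constructor
  · intro h
    refine ⟨fun x hx i => ?_, ?_⟩
    · have h1 := h i ⟨x, Finset.mem_union_left _ hx⟩
      rw [huW i ⟨x, Finset.mem_union_left _ hx⟩ hx] at h1
      exact h1
    · funext i x
      have h1 := h i ⟨x, Finset.mem_union_right _ x.2⟩
      rw [huN i ⟨x, Finset.mem_union_right _ x.2⟩ x.2] at h1
      exact h1
  · rintro ⟨h1, h2⟩ i x
    rcases Finset.mem_union.1 x.2 with h | h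
    · rw [huW i x h]
      exact h1 x h i
    · rw [huN i x h, ← h2]

open Classical in
/-- the number of the `a` with the values of `a0` on `W` and a condition on the values on `N` -/
private theorem GF1_core {p : ℕ} [Fact p.Prime] {q j s R : ℕ} {Ω : Type} [Fintype Ω]
    {G : Finset (MvPolynomial (Fin q) (ZMod p))} {f : Fin j → MvPolynomial (Fin q) (ZMod p)}
    {V : Ω → Fin s → (Fin q → Kb p) → Kb p} (hV1 : V1 V) (hV2 : V2 R G f V)
    (W N : Finset (Fin q → Kb p)) (hW : Fs W)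
    (hN : Fs N) (hWG : ∀ x ∈ W, x ∈ Gp G f) (hNG : ∀ x ∈ N, x ∈ Gp G f)
    (hWN : Disjoint W N) (hd : W.card + N.card ≤ R) (a0 : Ω)
    (Q : (Fin s → N → Kb p) → Prop) :
    (univ.filter fun a : Ω =>
      (∀ x ∈ W, ∀ i, V a i x = V a0 i x) ∧ Q (fun i (x : N) => V a i (x : Fin q → Kb p))).card =
      Nat.card {v : Fin s → N → Kb p // (∀ i, v i ∈ EW N) ∧ Q v} *
        (Nat.card Ω / p ^ (s * (W ∪ N).card)) := by
  obtain ⟨hfin, -⟩ := GF1_card s N hN
  have hfin' : Finite {v : Fin s → N → Kb p // (∀ i, v i ∈ EW N) ∧ Q v} :=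
    Finite.of_injective (β := {v : Fin s → N → Kb p // ∀ i, v i ∈ EW N}) (fun v => ⟨v.1, v.2.1⟩)
      fun v v' h => Subtype.ext (by
        have h1 : v.1 = v'.1 := congrArg (fun w : {v : Fin s → N → Kb p // ∀ i, v i ∈ EW N} => w.1) h
        exact h1)
  have hset : {v : Fin s → N → Kb p | (∀ i, v i ∈ EW N) ∧ Q v}.Finite := hfin'
  have hmaps : ∀ a ∈ (univ.filter fun a : Ω =>
      (∀ x ∈ W, ∀ i, V a i x = V a0 i x) ∧ Q (fun i (x : N) => V a i (x : Fin q → Kb p))),
      (fun i (x : N) => V a i (x : Fin q → Kb p)) ∈ hset.toFinset := by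
    intro a ha
    rw [Finset.mem_filter] at ha
    rw [Set.Finite.mem_toFinset]
    exact ⟨fun i => GF1_EW hV1 N a i, ha.2.2⟩
  rw [Finset.card_eq_sum_card_fiberwise hmaps]
  have hfib : ∀ v ∈ hset.toFinset, ((univ.filter fun a : Ω =>
      (∀ x ∈ W, ∀ i, V a i x = V a0 i x) ∧ Q (fun i (x : N) => V a i (x : Fin q → Kb p))).filter
        fun a => (fun i (x : N) => V a i (x : Fin q → Kb p)) = v).card =
      Nat.card Ω / p ^ (s * (W ∪ N).card) := by
    intro v hv
    rw [Set.Finite.mem_toFinset] at hv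
    rw [← GF1_fib hV1 hV2 W N hW hN hWG hNG hWN hd a0 v hv.1, Finset.filter_filter]
    congr 1
    refine Finset.filter_congr fun a _ => ?_
    constructor
    · rintro ⟨⟨h1, -⟩, h2⟩
      exact ⟨h1, h2⟩
    · rintro ⟨h1, h2⟩
      refine ⟨⟨h1, ?_⟩, h2⟩
      rw [h2]
      exact hv.2
  rw [Finset.sum_congr rfl hfib, Finset.sum_const, smul_eq_mul]
  congr 1
  rw [← Nat.card_eq_card_finite_toFinset hset]
  rfl

open Classical in
private theorem GF1_all {p : ℕ} [Fact p.Prime] {q j s R : ℕ} {Ω : Type} [Fintype Ω]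
    {G : Finset (MvPolynomial (Fin q) (ZMod p))} {f : Fin j → MvPolynomial (Fin q) (ZMod p)}
    {V : Ω → Fin s → (Fin q → Kb p) → Kb p} (hV1 : V1 V) (hV2 : V2 R G f V)
    (W N : Finset (Fin q → Kb p)) (hW : Fs W)
    (hN : Fs N) (hWG : ∀ x ∈ W, x ∈ Gp G f) (hNG : ∀ x ∈ N, x ∈ Gp G f)
    (hWN : Disjoint W N) (hd : W.card + N.card ≤ R) (a0 : Ω) :
    (univ.filter fun a : Ω => ∀ x ∈ W, ∀ i, V a i x = V a0 i x).card =
      p ^ (s * N.card) * (Nat.card Ω / p ^ (s * (W ∪ N).card)) := by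
  obtain ⟨Q, hQ⟩ : ∃ Q : (Fin s → N → Kb p) → Prop, ∀ v, Q v := ⟨fun _ => True, fun _ => trivial⟩
  have h1 := GF1_core hV1 hV2 W N hW hN hWG hNG hWN hd a0 Q
  have h2 : Nat.card {v : Fin s → N → Kb p // (∀ i, v i ∈ EW N) ∧ Q v} = p ^ (s * N.card) := by
    rw [← (GF1_card s N hN).2]
    exact Nat.card_congr (Equiv.subtypeEquivRight fun v => ⟨fun h => h.1, fun h => ⟨h, hQ v⟩⟩)
  rw [h2] at h1
  rw [← h1]
  congr 1
  ext a
  rw [Finset.mem_filter, Finset.mem_filter]
  exact and_congr_right fun _ => ⟨fun h => ⟨h, hQ _⟩, fun h => h.1⟩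

open Classical in
private theorem GF1_sum {p : ℕ} [Fact p.Prime] {q s : ℕ} {Ω : Type} [Fintype Ω]
    (V : Ω → Fin s → (Fin q → Kb p) → Kb p) (W : Finset (Fin q → Kb p))
    (S : Finset Ω) :
    S.card = ∑ w ∈ (univ : Finset (Ω)).image
        (fun a i (x : W) => V a i (x : Fin q → Kb p)),
      (S.filter fun a => (fun i (x : W) => V a i (x : Fin q → Kb p)) = w).card :=
  Finset.card_eq_sum_card_fiberwise fun a _ => Finset.mem_image_of_mem _ (Finset.mem_univ a)

theorem split_le {p : ℕ} [Fact p.Prime] {q j s R : ℕ} {Ω : Type} [Finite Ω]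
    {G : Finset (MvPolynomial (Fin q) (ZMod p))} {f : Fin j → MvPolynomial (Fin q) (ZMod p)}
    {V : Ω → Fin s → (Fin q → Kb p) → Kb p} (hV1 : V1 V) (hV2 : V2 R G f V)
    (W N : Finset (Fin q → Kb p)) (hW : Fs W) (hN : Fs N) (hWG : ∀ x ∈ W, x ∈ Gp G f) (hNG : ∀ x ∈ N, x ∈ Gp G f)
    (hWN : Disjoint W N) (hd : W.card + N.card ≤ R) (X : Ω → Prop) (hX : Sp V W X)
    (Q : Ω → (Fin s → N → Kb p) → Prop)
    (hQ : ∀ v, Sp V W (fun a => Q a v)) (M : ℕ)
    (hM : ∀ a, X a → Nat.card {v : Fin s → N → Kb p // (∀ i, v i ∈ EW N) ∧ Q a v} ≤ M) :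
    Nat.card {a // X a ∧ Q a (fun i x => V a i (x : Fin q → Kb p))} * p ^ (s * N.card) ≤ M * Nat.card {a // X a} := by
  classical
  have := Fintype.ofFinite Ω
  rw [Nat.card_eq_fintype_card, Fintype.card_subtype, Nat.card_eq_fintype_card, Fintype.card_subtype,
    GF1_sum V W (univ.filter fun a => X a ∧ Q a (fun i x => V a i (x : Fin q → Kb p))),
    GF1_sum V W (univ.filter fun a => X a), Finset.sum_mul, Finset.mul_sum]
  refine Finset.sum_le_sum fun w hw => ?_
  obtain ⟨a0, -, rfl⟩ := Finset.mem_image.1 hw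
  have hiff : ∀ a : Ω,
      ((fun i (x : W) => V a i (x : Fin q → Kb p)) = fun i (x : W) => V a0 i (x : Fin q → Kb p)) ↔
        ∀ x ∈ W, ∀ i, V a i x = V a0 i x := by
    intro a
    constructor
    · intro h x hx i
      exact congrFun (congrFun h i) ⟨x, hx⟩
    · intro h
      funext i x
      exact h x x.2 i
  by_cases hX0 : X a0
  · have e1 : ((univ.filter fun a => X a ∧ Q a (fun i x => V a i (x : Fin q → Kb p))).filter fun a =>
        (fun i (x : W) => V a i (x : Fin q → Kb p)) = fun i (x : W) => V a0 i (x : Fin q → Kb p)) =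
        univ.filter fun a => (∀ x ∈ W, ∀ i, V a i x = V a0 i x) ∧
          Q a0 (fun i x => V a i (x : Fin q → Kb p)) := by
      rw [Finset.filter_filter]
      refine Finset.filter_congr fun a _ => ?_
      rw [hiff]
      constructor
      · rintro ⟨⟨_, h2⟩, h3⟩
        exact ⟨h3, (hQ _ a a0 h3).1 h2⟩
      · rintro ⟨h3, h2⟩
        exact ⟨⟨(hX a a0 h3).2 hX0, (hQ _ a a0 h3).2 h2⟩, h3⟩
    have e2 : ((univ.filter fun a => X a).filter fun a =>
        (fun i (x : W) => V a i (x : Fin q → Kb p)) = fun i (x : W) => V a0 i (x : Fin q → Kb p)) =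
        univ.filter fun a => ∀ x ∈ W, ∀ i, V a i x = V a0 i x := by
      rw [Finset.filter_filter]
      refine Finset.filter_congr fun a _ => ?_
      rw [hiff]
      exact ⟨fun h => h.2, fun h => ⟨(hX a a0 h).2 hX0, h⟩⟩
    rw [e1, e2, GF1_core hV1 hV2 W N hW hN hWG hNG hWN hd a0 (Q a0), GF1_all hV1 hV2 W N hW hN hWG hNG hWN hd a0]
    calc _ ≤ M * (Nat.card Ω / p ^ (s * (W ∪ N).card)) * p ^ (s * N.card) :=
          Nat.mul_le_mul_right _ (Nat.mul_le_mul_right _ (hM a0 hX0))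
      _ = _ := by ring
  · have e1 : ((univ.filter fun a => X a ∧ Q a (fun i x => V a i (x : Fin q → Kb p))).filter fun a =>
        (fun i (x : W) => V a i (x : Fin q → Kb p)) = fun i (x : W) => V a0 i (x : Fin q → Kb p)) = ∅ := by
      rw [Finset.filter_filter, Finset.filter_eq_empty_iff]
      intro a _ h
      rw [hiff] at h
      exact hX0 ((hX a a0 h.2).1 h.1.1)
    rw [e1, Finset.card_empty, zero_mul]
    exact Nat.zero_le _

theorem split_eq {p : ℕ} [Fact p.Prime] {q j s R : ℕ} {Ω : Type} [Finite Ω]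
    {G : Finset (MvPolynomial (Fin q) (ZMod p))} {f : Fin j → MvPolynomial (Fin q) (ZMod p)}
    {V : Ω → Fin s → (Fin q → Kb p) → Kb p} (hV1 : V1 V) (hV2 : V2 R G f V)
    (W N : Finset (Fin q → Kb p)) (hW : Fs W) (hN : Fs N) (hWG : ∀ x ∈ W, x ∈ Gp G f) (hNG : ∀ x ∈ N, x ∈ Gp G f)
    (hWN : Disjoint W N) (hd : W.card + N.card ≤ R) (X : Ω → Prop) (hX : Sp V W X)
    (Q : (Fin s → N → Kb p) → Prop) :
    Nat.card {a : Ω // X a ∧ Q (fun i x => V a i (x : Fin q → Kb p))} * p ^ (s * N.card) =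
      Nat.card {v : Fin s → N → Kb p // (∀ i, v i ∈ EW N) ∧ Q v} * Nat.card {a // X a} := by
  classical
  have := Fintype.ofFinite Ω
  rw [Nat.card_eq_fintype_card, Fintype.card_subtype,
    Nat.card_eq_fintype_card (α := {a : Ω // X a}), Fintype.card_subtype,
    GF1_sum V W (univ.filter fun a => X a ∧ Q (fun i x => V a i (x : Fin q → Kb p))),
    GF1_sum V W (univ.filter fun a => X a), Finset.sum_mul, Finset.mul_sum]
  refine Finset.sum_congr rfl fun w hw => ?_
  obtain ⟨a0, -, rfl⟩ := Finset.mem_image.1 hw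
  have hiff : ∀ a : Ω,
      ((fun i (x : W) => V a i (x : Fin q → Kb p)) = fun i (x : W) => V a0 i (x : Fin q → Kb p)) ↔
        ∀ x ∈ W, ∀ i, V a i x = V a0 i x := by
    intro a
    constructor
    · intro h x hx i
      exact congrFun (congrFun h i) ⟨x, hx⟩
    · intro h
      funext i x
      exact h x x.2 i
  by_cases hX0 : X a0
  · have e1 : ((univ.filter fun a => X a ∧ Q (fun i x => V a i (x : Fin q → Kb p))).filter fun a =>
        (fun i (x : W) => V a i (x : Fin q → Kb p)) = fun i (x : W) => V a0 i (x : Fin q → Kb p)) =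
        univ.filter fun a => (∀ x ∈ W, ∀ i, V a i x = V a0 i x) ∧
          Q (fun i x => V a i (x : Fin q → Kb p)) := by
      rw [Finset.filter_filter]
      refine Finset.filter_congr fun a _ => ?_
      rw [hiff]
      constructor
      · rintro ⟨⟨_, h2⟩, h3⟩
        exact ⟨h3, h2⟩
      · rintro ⟨h3, h2⟩
        exact ⟨⟨(hX a a0 h3).2 hX0, h2⟩, h3⟩
    have e2 : ((univ.filter fun a => X a).filter fun a =>
        (fun i (x : W) => V a i (x : Fin q → Kb p)) = fun i (x : W) => V a0 i (x : Fin q → Kb p)) =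
        univ.filter fun a => ∀ x ∈ W, ∀ i, V a i x = V a0 i x := by
      rw [Finset.filter_filter]
      refine Finset.filter_congr fun a _ => ?_
      rw [hiff]
      exact ⟨fun h => h.2, fun h => ⟨(hX a a0 h).2 hX0, h⟩⟩
    rw [e1, e2, GF1_core hV1 hV2 W N hW hN hWG hNG hWN hd a0 Q, GF1_all hV1 hV2 W N hW hN hWG hNG hWN hd a0]
    ring
  · have e1 : ((univ.filter fun a => X a ∧ Q (fun i x => V a i (x : Fin q → Kb p))).filter fun a =>
        (fun i (x : W) => V a i (x : Fin q → Kb p)) = fun i (x : W) => V a0 i (x : Fin q → Kb p)) = ∅ := by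
      rw [Finset.filter_filter, Finset.filter_eq_empty_iff]
      intro a _ h
      rw [hiff] at h
      exact hX0 ((hX a a0 h.2).1 h.1.1)
    have e2 : ((univ.filter fun a => X a).filter fun a =>
        (fun i (x : W) => V a i (x : Fin q → Kb p)) = fun i (x : W) => V a0 i (x : Fin q → Kb p)) = ∅ := by
      rw [Finset.filter_filter, Finset.filter_eq_empty_iff]
      intro a _ h
      rw [hiff] at h
      exact hX0 ((hX a a0 h.2).1 h.1)
    rw [e1, e2, Finset.card_empty, zero_mul, mul_zero]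

end LVG
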