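import Pool.Agent.Lib.MP_17a322_ntLG.F1
import Pool.Agent.Lib.MP_17a322_ntLF.P1

/-!
# LEAF GF2: independence of conditions on disjoint sets

PROOF.  Adapt `LVF.ind2`, `LVF.indF` (file `MP_17a322_ntLF/Fb2.lean`).  `Ω` is not empty.
-/

namespace LVG

open Finset
open LVF (Kb fr Fs EW Pr)

theorem ind2 {p : ℕ} [Fact p.Prime] {q j s R : ℕ} {Ω : Type} [Finite Ω] [Nonempty Ω]
    {G : Finset (MvPolynomial (Fin q) (ZMod p))} {f : Fin j → MvPolynomial (Fin q) (ZMod p)}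
    {V : Ω → Fin s → (Fin q → Kb p) → Kb p} (hV1 : V1 V) (hV2 : V2 R G f V)
    (W N : Finset (Fin q → Kb p)) (hW : Fs W) (hN : Fs N) (hWG : ∀ x ∈ W, x ∈ Gp G f) (hNG : ∀ x ∈ N, x ∈ Gp G f)
    (hWN : Disjoint W N) (hd : W.card + N.card ≤ R) (X Y : Ω → Prop)
    (hX : Sp V W X) (hY : Sp V N Y) : Pr (fun a => X a ∧ Y a) = Pr X * Pr Y := by
  let Q : (Fin s → N → Kb p) → Prop := fun v =>
    ∃ b : Ω, Y b ∧ v = fun i (x : N) => V b i (x : Fin q → Kb p)
  have hQ : ∀ a : Ω, Q (fun i (x : N) => V a i (x : Fin q → Kb p)) ↔ Y a := by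
    intro a
    constructor
    · rintro ⟨b, hb, hab⟩
      refine (hY a b fun x hx i => ?_).2 hb
      exact congrFun (congrFun hab i) ⟨x, hx⟩
    · intro ha
      exact ⟨a, ha, rfl⟩
  have h1 := split_eq hV1 hV2 W N hW hN hWG hNG hWN hd X hX Q
  have h2 := split_eq hV1 hV2 W N hW hN hWG hNG hWN hd (fun _ => True) (fun _ _ _ => Iff.rfl) Q
  simp only [hQ, true_and] at h1 h2
  have h3 : Nat.card {a : Ω // True} = Nat.card Ω :=
    Nat.card_congr (Equiv.subtypeUnivEquiv fun _ => trivial)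
  rw [h3] at h2
  have hp : (p : ℝ) ^ (s * N.card) ≠ 0 := pow_ne_zero _ (by exact_mod_cast (Fact.out : p.Prime).ne_zero)
  have hO : (Nat.card Ω : ℝ) ≠ 0 := by
    exact_mod_cast (Nat.card_pos (α := Ω)).ne'
  have h1' : (Nat.card {a : Ω // X a ∧ Y a} : ℝ) * (p : ℝ) ^ (s * N.card) =
      (Nat.card {v : Fin s → N → Kb p // (∀ i, v i ∈ EW N) ∧ Q v} : ℝ) *
        (Nat.card {a : Ω // X a} : ℝ) := by
    exact_mod_cast h1
  have h2' : (Nat.card {a : Ω // Y a} : ℝ) * (p : ℝ) ^ (s * N.card) =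
      (Nat.card {v : Fin s → N → Kb p // (∀ i, v i ∈ EW N) ∧ Q v} : ℝ) *
        (Nat.card Ω : ℝ) := by
    exact_mod_cast h2
  unfold LVF.Pr
  rw [div_mul_div_comm, div_eq_div_iff hO (mul_ne_zero hO hO)]
  have h4 : (Nat.card {a : Ω // X a ∧ Y a} : ℝ) * (Nat.card Ω : ℝ) =
      (Nat.card {a : Ω // X a} : ℝ) * (Nat.card {a : Ω // Y a} : ℝ) := by
    apply mul_right_cancel₀ hp
    calc (Nat.card {a : Ω // X a ∧ Y a} : ℝ) * (Nat.card Ω : ℝ) * (p : ℝ) ^ (s * N.card)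
        = ((Nat.card {a : Ω // X a ∧ Y a} : ℝ) * (p : ℝ) ^ (s * N.card)) * (Nat.card Ω : ℝ) := by ring
      _ = (Nat.card {a : Ω // X a} : ℝ) *
          ((Nat.card {v : Fin s → N → Kb p // (∀ i, v i ∈ EW N) ∧ Q v} : ℝ) *
            (Nat.card Ω : ℝ)) := by rw [h1']; ring
      _ = (Nat.card {a : Ω // X a} : ℝ) * (Nat.card {a : Ω // Y a} : ℝ) * (p : ℝ) ^ (s * N.card) := by
        rw [← h2']; ring
  rw [← mul_assoc, h4]

theorem indF {p : ℕ} [Fact p.Prime] {q j s R : ℕ} {Ω : Type} [Finite Ω] [Nonempty Ω]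
    {G : Finset (MvPolynomial (Fin q) (ZMod p))} {f : Fin j → MvPolynomial (Fin q) (ZMod p)}
    {V : Ω → Fin s → (Fin q → Kb p) → Kb p} (hV1 : V1 V) (hV2 : V2 R G f V) (U : Finset (Finset (Fin q → Kb p)))
    (hU : ∀ T ∈ U, Fs T) (hUG : ∀ T ∈ U, ∀ x ∈ T, x ∈ Gp G f) (hdis : ∀ T ∈ U, ∀ T' ∈ U, T' ≠ T → Disjoint T T')
    (hd : ∑ T ∈ U, T.card ≤ R) (E : Finset (Fin q → Kb p) → Ω → Prop) (hE : ∀ T ∈ U, Sp V T (E T)) :
    Pr (fun a => ∀ T ∈ U, E T a) = ∏ T ∈ U, Pr (E T) := by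
  classical
  induction U using Finset.induction_on with
  | empty =>
    rw [Finset.prod_empty, ← LVF.pr_true (Ω := Ω)]
    congr 1
    funext a
    exact propext ⟨fun _ => trivial, fun _ T hT => absurd hT (Finset.notMem_empty T)⟩
  | insert T U hTU ih =>
    rw [Finset.prod_insert hTU, ← ih (fun T' hT' => hU T' (Finset.mem_insert_of_mem hT'))
      (fun T' hT' => hUG T' (Finset.mem_insert_of_mem hT'))
      (fun T' hT' T'' hT'' => hdis T' (Finset.mem_insert_of_mem hT') T'' (Finset.mem_insert_of_mem hT''))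
      (le_trans (Finset.sum_le_sum_of_subset (Finset.subset_insert T U)) hd)
      (fun T' hT' => hE T' (Finset.mem_insert_of_mem hT'))]
    rw [← ind2 hV1 hV2 T (U.biUnion id) (hU T (Finset.mem_insert_self T U)) ?_
      (hUG T (Finset.mem_insert_self T U)) ?_ ?_ ?_ (E T)
      (fun a => ∀ T' ∈ U, E T' a) (hE T (Finset.mem_insert_self T U)) ?_]
    · congr 1
      funext a
      exact propext (Finset.forall_mem_insert _ _ _)
    · intro x hx
      obtain ⟨T', hT', hx'⟩ := Finset.mem_biUnion.1 hx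
      have h1 := hU T' (Finset.mem_insert_of_mem hT') x hx'
      exact ⟨h1.1, Finset.mem_biUnion.2 ⟨T', hT', h1.2⟩⟩
    · intro x hx
      obtain ⟨T', hT', hx'⟩ := Finset.mem_biUnion.1 hx
      exact hUG T' (Finset.mem_insert_of_mem hT') x hx'
    · rw [Finset.disjoint_biUnion_right]
      intro T' hT'
      refine hdis T (Finset.mem_insert_self T U) T' (Finset.mem_insert_of_mem hT') ?_
      rintro rfl
      exact hTU hT'
    · rw [Finset.sum_insert hTU] at hd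
      have h2 : (U.biUnion id).card ≤ ∑ T' ∈ U, T'.card := Finset.card_biUnion_le
      omega
    · intro a b hab
      refine forall₂_congr fun T' hT' => hE T' (Finset.mem_insert_of_mem hT') a b fun x hx i => ?_
      exact hab x (Finset.mem_biUnion.2 ⟨T', hT', hx⟩) i

end LVG
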