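import Pool.Agent.Lib.MP_17a322_ntLG.Defs
import Pool.Agent.Lib.MP_17a322_ntLF.Fa1

/-!
# LEAF GI1: complete systems separate points

PROOF.  Let `z`, `t`, `y` be as in `SP`, `Spf`, `F = AlgebraicClosure K`.  For every `i` there is a homogeneous polynomial `H i` of degree `d i` over `F` with `H i (z l) = y i l` for all `l` with `i ∈ B → l = t i`: for `i ∉ B` by `LVF.interp` for the normalised multiples `n l` of the `z l` (`z l = c l • n l`; they are distinct since the `z l` are pairwise not proportional, `m ≤ R ≤ d i + 1`), with the values `y i l / c l ^ d i`; for `i ∈ B` in the same way for the one point `z (t i)` (`1 ≤ d i + 1`).  (`LVH.fv a x` with `a : Sym (Fin q) (d i) → F` is the value at `x` of the homogeneous polynomial with coefficients `a`, see `MP_17a322_ntLF/TR.lean` for the formula.)  `H i` is an `F`-linear combination of the monomials of degree `d i`; for each monomial `X ^ α` of degree `d i`, `Cp` gives `b : Fin N → K` with `∑ k, C (b k) * (g k i') = X ^ α` for `i' = i` and `0`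 otherwise.  Combine (over all `i` and all monomials) and evaluate at `z l`: this gives `a : Fin N → F` with `∑ k, a k * aeval (z l) (map (g k i)) = H i (z l)` for all `i`, `l`.
-/

namespace LVG

open Finset NumberField

private theorem I1_fv_smul {F : Type} [Field F] {q d : ℕ} (A : Sym (Fin q) d → F) (c : F) (x : Fin q → F) :
    LVH.fv A (c • x) = c ^ d * LVH.fv A x := by
  unfold LVH.fv
  rw [Finset.mul_sum]
  refine Finset.sum_congr rfl fun α _ => ?_
  have h1 : LVH.mon (c • x) α = c ^ d * LVH.mon x α := by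
    unfold LVH.mon
    have h2 : (c • x : Fin q → F) = fun t => c * x t := funext fun t => rfl
    rw [h2, Multiset.prod_map_mul, Multiset.map_const', Multiset.prod_replicate, Sym.card_coe]
  rw [h1]
  ring

private theorem I1_norm {F : Type} [Field F] {q : ℕ} {z : Fin q → F} (hz : z ≠ 0) :
    ∃ (c : F) (n : Fin q → F), c ≠ 0 ∧ LVF.Nm n ∧ z = c • n := by
  classical
  obtain ⟨w, hw⟩ := Function.ne_iff.1 hz
  have hne : (Finset.univ.filter fun w => z w ≠ 0).Nonempty := ⟨w, by
    rw [Finset.mem_filter]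
    exact ⟨Finset.mem_univ _, hw⟩⟩
  obtain ⟨w0, hw0, hmin⟩ := Finset.exists_min_image _ (fun w => w) hne
  have hc : z w0 ≠ 0 := (Finset.mem_filter.1 hw0).2
  refine ⟨z w0, (z w0)⁻¹ • z, hc, ⟨w0, ?_, fun w' hw' => ?_⟩, ?_⟩
  · rw [Pi.smul_apply, smul_eq_mul, inv_mul_cancel₀ hc]
  · have h1 : z w' = 0 := by
      by_contra h
      exact absurd (hmin w' (Finset.mem_filter.2 ⟨Finset.mem_univ _, h⟩)) (not_le.2 hw')
    rw [Pi.smul_apply, h1, smul_zero]
  · rw [smul_smul, mul_inv_cancel₀ hc, one_smul]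

private theorem I1_interp {F : Type} [Field F] {q m : ℕ} (d : ℕ) (z : Fin m → Fin q → F) (hz : ∀ l, z l ≠ 0)
    (hd : ∀ l l', l ≠ l' → ∀ c : F, z l ≠ c • z l') (S : Finset (Fin m)) (hS : S.card ≤ d + 1) (y : Fin m → F) :
    ∃ A : Sym (Fin q) d → F, ∀ l ∈ S, LVH.fv A (z l) = y l := by
  classical
  have h1 : ∀ l, ∃ cn : F × (Fin q → F), cn.1 ≠ 0 ∧ LVF.Nm cn.2 ∧ z l = cn.1 • cn.2 := by
    intro l
    obtain ⟨c, n, h⟩ := I1_norm (hz l)
    exact ⟨(c, n), h⟩
  choose cn hc hn hz' using h1
  have hinj : ∀ l l', (cn l).2 = (cn l').2 → l = l' := by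
    intro l l' h
    by_contra hne
    refine hd l l' hne ((cn l).1 * (cn l').1⁻¹) ?_
    rw [hz' l, hz' l', smul_smul, mul_assoc, inv_mul_cancel₀ (hc l'), mul_one, h]
  have hW : ∀ x ∈ S.image fun l => (cn l).2, LVF.Nm x := by
    intro x hx
    obtain ⟨l, -, rfl⟩ := Finset.mem_image.1 hx
    exact hn l
  have hv : ∀ x : {x // x ∈ S.image fun l => (cn l).2}, ∃ l, (cn l).2 = (x : Fin q → F) := by
    intro x
    obtain ⟨l, -, h⟩ := Finset.mem_image.1 x.2
    exact ⟨l, h⟩
  choose e he using hv
  obtain ⟨A, hA⟩ := LVF.interp d (S.image fun l => (cn l).2) hW (le_trans Finset.card_image_le hS)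
    (fun x => y (e x) / (cn (e x)).1 ^ d)
  refine ⟨A, fun l hl => ?_⟩
  have hm : (cn l).2 ∈ S.image fun l => (cn l).2 := Finset.mem_image_of_mem _ hl
  have h2 := hA ⟨_, hm⟩
  have h3 : e ⟨_, hm⟩ = l := hinj _ _ (he ⟨_, hm⟩)
  rw [h3] at h2
  have h4 : LVH.fv A (cn l).2 = y l / (cn l).1 ^ d := h2
  rw [hz' l, I1_fv_smul, h4]
  exact mul_div_cancel₀ _ (pow_ne_zero _ (hc l))

private theorem I1_hom {K : Type} [Field K] {q : ℕ} (s : Multiset (Fin q)) :
    ((s.map fun t => (MvPolynomial.X t : MvPolynomial (Fin q) K)).prod).IsHomogeneous (Multiset.card s) := by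
  induction s using Multiset.induction_on with
  | empty =>
    rw [Multiset.map_zero, Multiset.prod_zero, Multiset.card_zero]
    exact MvPolynomial.isHomogeneous_one _ _
  | cons t s ih =>
    rw [Multiset.map_cons, Multiset.prod_cons, Multiset.card_cons, Nat.add_comm]
    exact (MvPolynomial.isHomogeneous_X K t).mul ih

private theorem I1_aeval {K F : Type} [Field K] [Field F] [Algebra K F] {q d : ℕ} (z : Fin q → F) (α : Sym (Fin q) d) :
    MvPolynomial.aeval z (((α : Multiset (Fin q)).map fun t => (MvPolynomial.X t : MvPolynomial (Fin q) K)).prod) =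
      LVH.mon z α := by
  unfold LVH.mon
  rw [map_multiset_prod, Multiset.map_map]
  congr 1
  refine Multiset.map_congr rfl fun t _ => ?_
  rw [Function.comp_apply, MvPolynomial.aeval_X]

theorem cp_sp (K : Type) [Field K] [NumberField K] {q j N s : ℕ} (d : Fin s → ℕ)
    (g : Fin N → Fin s → MvPolynomial (Fin q) (𝓞 K)) (hg : ∀ k i, (g k i).IsHomogeneous (d i))
    (hc : ∀ i, LVZ.Cp g d i) (R : ℕ) (P : Ideal (MvPolynomial (Fin q) K)) (f : Fin j → MvPolynomial (Fin q) (𝓞 K))
    (B : Finset (Fin s)) (hB : ∀ i, i ∉ B → R ≤ d i + 1) : SP R P f g B := by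
  classical
  intro m hm z hz0 _ _ hdist t y
  have h1 : ∀ i, ∃ A : Sym (Fin q) (d i) → AlgebraicClosure K, ∀ l, (i ∈ B → l = t i) → LVH.fv A (z l) = y i l := by
    intro i
    by_cases hi : i ∈ B
    · obtain ⟨A, hA⟩ := I1_interp (d i) z hz0 hdist {t i} (by rw [Finset.card_singleton]; omega) (y i)
      refine ⟨A, fun l hl => hA l ?_⟩
      rw [hl hi]
      exact Finset.mem_singleton_self _
    · obtain ⟨A, hA⟩ := I1_interp (d i) z hz0 hdist Finset.univ (by
        rw [Finset.card_univ, Fintype.card_fin]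
        exact hm.trans (hB i hi)) (y i)
      exact ⟨A, fun l _ => hA l (Finset.mem_univ _)⟩
  choose A hA using h1
  have h2 : ∀ (i : Fin s) (α : Sym (Fin q) (d i)), ∃ b : Fin N → K, ∀ i',
      ∑ k, MvPolynomial.C (b k) * MvPolynomial.map (algebraMap (𝓞 K) K) (g k i') =
        if i' = i then ((α : Multiset (Fin q)).map fun t => (MvPolynomial.X t : MvPolynomial (Fin q) K)).prod else 0 := by
    intro i α
    refine hc i _ ?_
    have h3 := I1_hom (K := K) (α : Multiset (Fin q))
    rw [Sym.card_coe] at h3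
    exact h3
  choose b hb using h2
  refine ⟨fun k => ∑ i, ∑ α : Sym (Fin q) (d i), A i α * algebraMap K (AlgebraicClosure K) (b i α k), fun i l hl => ?_⟩
  have h4 : ∀ (i' : Fin s) (α : Sym (Fin q) (d i')),
      ∑ k, algebraMap K (AlgebraicClosure K) (b i' α k) *
        MvPolynomial.aeval (z l) (MvPolynomial.map (algebraMap (𝓞 K) K) (g k i)) =
        if i = i' then LVH.mon (z l) α else 0 := by
    intro i' α
    have h5 := congrArg (MvPolynomial.aeval (z l)) (hb i' α i)
    rw [map_sum] at h5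
    simp only [map_mul, MvPolynomial.aeval_C] at h5
    rw [h5]
    split_ifs
    · exact I1_aeval _ _
    · exact map_zero _
  calc ∑ k, (∑ i', ∑ α : Sym (Fin q) (d i'), A i' α * algebraMap K (AlgebraicClosure K) (b i' α k)) *
          MvPolynomial.aeval (z l) (MvPolynomial.map (algebraMap (𝓞 K) K) (g k i))
      = ∑ i', ∑ α : Sym (Fin q) (d i'), A i' α * ∑ k, algebraMap K (AlgebraicClosure K) (b i' α k) *
          MvPolynomial.aeval (z l) (MvPolynomial.map (algebraMap (𝓞 K) K) (g k i)) := by
        simp only [Finset.sum_mul, Finset.mul_sum]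
        rw [Finset.sum_comm]
        refine Finset.sum_congr rfl fun i' _ => ?_
        rw [Finset.sum_comm]
        refine Finset.sum_congr rfl fun α _ => Finset.sum_congr rfl fun k _ => ?_
        rw [mul_assoc]
    _ = ∑ i', ∑ α : Sym (Fin q) (d i'), A i' α * (if i = i' then LVH.mon (z l) α else 0) := by
        refine Finset.sum_congr rfl fun i' _ => Finset.sum_congr rfl fun α _ => ?_
        rw [h4]
    _ = ∑ α : Sym (Fin q) (d i), A i α * LVH.mon (z l) α := by
        rw [Finset.sum_eq_single i]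
        · refine Finset.sum_congr rfl fun α _ => ?_
          rw [if_pos rfl]
        · intro i' _ hne
          refine Finset.sum_eq_zero fun α _ => ?_
          rw [if_neg hne.symm, mul_zero]
        · exact fun h => absurd (Finset.mem_univ _) h
    _ = y i l := hA i l hl

end LVG
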