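import Pool.Agent.Lib.MP_17a322_ntLG.F2
import Pool.Agent.Lib.MP_17a322_ntLG.C2
import Pool.Agent.Lib.MP_17a322_ntLG.C3
import Pool.Agent.Lib.MP_17a322_ntLF.P5

/-!
# LEAF GK1: the probability that some reduced cycle of degree `ρ` has the given values

PROOF.  Adapt `LVF.crit` (file `MP_17a322_ntLF/Fe1.lean`): `R = 2 * m * ρ`.
-/

namespace LVG

open Finset
open LVF (Kb fr Nm vp Cyc Cu SL Cy Fs EW Pr Ix)

open Classical in
theorem crit {p : ℕ} [Fact p.Prime] {q j s : ℕ} (ρ n r A D M m : ℕ) (hρ : 1 ≤ ρ) (hn1 : 1 ≤ n) (hs : 1 ≤ s) (hD : 1 ≤ D)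
    (hm : 1 ≤ m) (d : Fin s → ℕ) (B : Finset (Fin s)) (hn : r + j = n + Bᶜ.card + 1) (hj : j + B.card = ρ * n + 1)
    (G : Finset (MvPolynomial (Fin q) (ZMod p))) (e : Fin j → ℕ) (he : ∀ l, 1 ≤ e l ∧ e l ≤ D)
    (f : Fin j → MvPolynomial (Fin q) (ZMod p))
    (hA : ∀ u : Fin j → Kb p, (∀ l, u l ≠ 0) → ∀ F, 1 ≤ F → F ≤ ρ → Nat.card {w : Finset (Fin q → Kb p) × ZMod p //
      Fs w.1 ∧ w.1.card = F ∧ (∀ x ∈ w.1, ∀ h ∈ G, MvPolynomial.aeval x h = 0) ∧ Cu e f u w.1.val w.2} * p ^ (j + F) ≤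
        A * p ^ (F * (r + j) + 1))
    {Ω : Type} [Finite Ω] [Nonempty Ω] {V : Ω → Fin s → (Fin q → Kb p) → Kb p} (hV1 : V1 V)
    (hV2 : V2 (2 * m * ρ) G f V) (hV3 : V3 ρ M G f d B V)
    (u : Fin j → Kb p) (hu : ∀ l, u l ≠ 0) (y : Fin s → Kb p) (hy : ∀ i, i ∈ B → y i ≠ 0)
    (I : Finset (Finset (Fin q → Kb p))) (hI : ∀ T ∈ I, T ∈ Ix ρ G e f u)
    (hp : 2 * (D * M) ≤ p) (C : ℝ) (hC : C = A * ρ ^ B.card) :
    Pr (fun a : Ω => ∃ T ∈ I, Ev e f u d B y V T a) ≤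
      1 - (Real.exp (-2 * C) - C ^ (2 * m) / (2 * m).factorial) +
        2 ^ ρ * C * (p : ℝ)⁻¹ * (4 * m * ((1 + 2 ^ (2 * m * ρ) * (C + 1)) * (1 + C)) ^ (2 * m)) := by
  have hp0 : (0 : ℝ) < p := by exact_mod_cast (Fact.out : p.Prime).pos
  have hC0 : 0 ≤ C := by rw [hC]; positivity
  have hFs : ∀ T ∈ I, Fs T := fun T hT => (hI T hT).1
  have hGp : ∀ T ∈ I, ∀ x ∈ T, x ∈ Gp G f := fun T hT => ix_gp hu (hI T hT)
  have hcd : ∀ T ∈ I, T.card = ρ := fun T hT => (hI T hT).2.1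
  have hSp : ∀ T, Sp V T (Ev e f u d B y V T) := fun T => ev_sp e f u d B y V T
  have hmρ : 2 * ρ ≤ 2 * m * ρ := Nat.mul_le_mul_right ρ (by omega)
  refine LVF.abl I (fun T => Ev e f u d B y V T) (fun T T' => ¬ Disjoint T T') m hm C (2 ^ (2 * m * ρ) * (C + 1))
    (2 ^ ρ * C * (p : ℝ)⁻¹) hC0 (by positivity) (by positivity) ?_ ?_ ?_ ?_ ?_ ?_
  · intro U hUI hU hdis
    refine indF hV1 hV2 U (fun T hT => hFs T (hUI hT)) (fun T hT => hGp T (hUI hT))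
      (fun T hT T' hT' hne => not_not.1 (hdis T hT T' hT' hne)) ?_ _ (fun T _ => hSp T)
    have h1 : ∑ T ∈ U, T.card = U.card * ρ := by
      rw [Finset.sum_congr rfl (fun T hT => hcd T (hUI hT)), Finset.sum_const, smul_eq_mul]
    rw [h1]
    exact Nat.mul_le_mul_right ρ hU.le
  · rw [hC]
    exact sumE ρ n r A (2 * m * ρ) hρ hn1 d B hn hj G e f hA hV1 hV2 u hu y hy I hI (by omega)
  · intro U hUI hU
    obtain ⟨W, hWd⟩ : ∃ W : Finset (Fin q → Kb p), W = U.biUnion id := ⟨_, rfl⟩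
    have hmem : ∀ x, x ∈ W ↔ ∃ T ∈ U, x ∈ T := by
      intro x
      rw [hWd, Finset.mem_biUnion]
      rfl
    have hWF : Fs W := by
      intro x hx
      obtain ⟨T, hT, hxT⟩ := (hmem x).1 hx
      obtain ⟨h1, h2⟩ := hFs T (hUI hT) x hxT
      exact ⟨h1, (hmem _).2 ⟨T, hT, h2⟩⟩
    have hWG : ∀ x ∈ W, x ∈ Gp G f := by
      intro x hx
      obtain ⟨T, hT, hxT⟩ := (hmem x).1 hx
      exact hGp T (hUI hT) x hxT
    have hWc : W.card ≤ U.card * ρ := by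
      rw [hWd]
      refine le_trans Finset.card_biUnion_le ?_
      have h1 : ∑ T ∈ U, (id T).card = ∑ T ∈ U, ρ := Finset.sum_congr rfl fun T hT => hcd T (hUI hT)
      rw [h1, Finset.sum_const, smul_eq_mul]
    have hU1 : (U.card + 1) * ρ ≤ 2 * m * ρ := Nat.mul_le_mul_right ρ hU
    have hWρ : W.card + ρ ≤ 2 * m * ρ := by
      have h2 : (U.card + 1) * ρ = U.card * ρ + ρ := by ring
      omega
    have hXS : Sp V W (fun a : Ω => ∀ i' ∈ U, Ev e f u d B y V i' a) := by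
      intro a b hab
      exact forall_congr' fun T => forall_congr' fun hT =>
        hSp T a b fun x hx i => hab x ((hmem x).2 ⟨T, hT, hx⟩) i
    have h3 := one ρ n r A (2 * m * ρ) hn1 d B hn hj G e f hA hV1 hV2 u hu y hy I hI W hWF hWG
      hWρ (fun a => ∀ i' ∈ U, Ev e f u d B y V i' a) hXS
    rw [← hC] at h3
    refine le_trans h3 ?_
    refine mul_le_mul_of_nonneg_right ?_ (LVF.pr_nonneg _)
    refine mul_le_mul_of_nonneg_right ?_ (by positivity)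
    exact pow_le_pow_right₀ (by norm_num) (by omega)
  · intro T hT
    have h3 := adjs ρ n r A (2 * m * ρ) hn1 d B hn hj G e f hA hV1 hV2 u hu y hy I hI T hT
      hmρ (Ev e f u d B y V T) (hSp T)
    rw [← hC] at h3
    refine le_trans (le_of_eq ?_) h3
    refine Finset.sum_congr ?_ fun _ _ => rfl
    ext T'
    simp only [Finset.mem_filter]
  · intro T hT
    have h3 := adjs ρ n r A (2 * m * ρ) hn1 d B hn hj G e f hA hV1 hV2 u hu y hy I hI T hT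
      hmρ (fun _ => True) (fun _ _ _ => Iff.rfl)
    rw [← hC, LVF.pr_true, mul_one] at h3
    refine le_trans (le_of_eq ?_) h3
    refine Finset.sum_congr ?_ fun _ _ => ?_
    · ext T'
      simp only [Finset.mem_filter]
    · simp only [true_and]
  · intro T hT
    refine le_trans (prE ρ n D M hρ hn1 hs hD d B hj G e he f hV3 u hu y T (hI T hT)) ?_
    have h1 : 2 * ((D : ℝ) * (M : ℝ)) ≤ p := by exact_mod_cast hp
    rw [← div_eq_mul_inv, div_le_iff₀ hp0]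
    linarith

end LVG
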