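import Pool.Agent.Lib.MP_17a322_ntLG.K1
import Pool.Agent.Lib.MP_17a322_ntLG.E3
import Pool.Agent.Lib.MP_17a322_ntLY.P5

/-!
# LEAF GK2: the density in the critical case, abstract form

PROOF.  Adapt `LVF.critd` (file `MP_17a322_ntLF/Fe2.lean`).  For each `s ≤ S0 = ρ (r + j) + 1 + r + j`, each `B`, `n ≤ r + j` a value `R(s, B, n)`, then `R₀` the maximum of these (and `ρ`); `V2` for `R₀` implies `V2` for smaller `R`.  For fixed `s`, `B`, `n`: `A` = the maximum (or sum) of the `A` of `cntS` for `1 ≤ F ≤ ρ`, `Cc = A * ρ ^ b`, `m` from `LVY.exists_m Cc` (`Cc ^ (2 m) / (2 m)! ≤ exp (-2 Cc) / 2`), `R(s, B, n) = 2 * m * ρ`.  `κ = exp (-2 Cc) / 4`.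
`RG` implies one of: (1) the condition of `ubG` with `F0 = ρ - 1`; (3) `∃ T ∈ I, Ev e g u d B y V T a` for the finite set `I` (`LVF.ix_fin`) of the elements of `Ix ρ G e g u` (as in `critd`; there are no cycles at infinity here).  So `Pr (RG) ≤ A' / p + 1 - exp (-2 Cc) / 2 + K / p ≤ 1 - κ` for `p ≥ p0`.
-/

namespace LVG

open Finset
open LVF (Kb fr Nm vp Cyc Cu SL Cy Fs EW Pr Ix)

private theorem K2_pr (p A b c x N : ℕ) (hp : 1 ≤ p) (hN : 1 ≤ N) (hbc : c + 1 ≤ b) (h : x * p ^ b ≤ A * p ^ c * N) :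
    (x : ℝ) / (N : ℝ) ≤ A * (p : ℝ)⁻¹ := by
  have h1 : x * p ^ (c + 1) ≤ A * p ^ c * N :=
    (Nat.mul_le_mul_left x (Nat.pow_le_pow_right hp hbc)).trans h
  have hc : 0 < p ^ c := Nat.pow_pos hp
  have h2 : p ^ c * (x * p) ≤ p ^ c * (A * N) := by
    calc p ^ c * (x * p) = x * p ^ (c + 1) := by ring
      _ ≤ A * p ^ c * N := h1
      _ = p ^ c * (A * N) := by ring
  have h3 : x * p ≤ A * N := Nat.le_of_mul_le_mul_left h2 hc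
  have h4 : (x : ℝ) * p ≤ A * (N : ℝ) := by exact_mod_cast h3
  have hp0 : (0 : ℝ) < p := by exact_mod_cast hp
  have hN0 : (0 : ℝ) < N := by exact_mod_cast hN
  rw [div_le_iff₀ hN0, mul_comm (A : ℝ), mul_assoc, inv_mul_eq_div, le_div_iff₀ hp0]
  exact h4

open Classical in
private theorem K2_case {p : ℕ} [Fact p.Prime] {q j s : ℕ} (ρ : ℕ) (G : Finset (MvPolynomial (Fin q) (ZMod p)))
    (e : Fin j → ℕ) (g : Fin j → MvPolynomial (Fin q) (ZMod p)) (d : Fin s → ℕ) (B : Finset (Fin s)) (u : Fin j → Kb p)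
    (y : Fin s → Kb p) {Ω : Type} (V : Ω → Fin s → (Fin q → Kb p) → Kb p) (a : Ω) (I : Finset (Finset (Fin q → Kb p)))
    (hI : ∀ T, T ∈ Ix ρ G e g u → T ∈ I) (h : RG ρ G e g d B u y (V a)) :
    (∃ m, 1 ≤ m ∧ m ≤ ρ ∧ ∃ Z ∈ Cyc G m, Z.toFinset.card ≤ ρ - 1 ∧ ∃ μ,
      Cu e g u Z μ ∧ Cy d B y (V a) Z (algebraMap (ZMod p) (Kb p) μ)) ∨
    ∃ T ∈ I, Ev e g u d B y V T a := by
  obtain ⟨m, hm1, hmρ, Z, hZ, μ, hCu, hCy⟩ := h
  by_cases hc : Z.toFinset.card ≤ ρ - 1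
  · exact Or.inl ⟨m, hm1, hmρ, Z, hZ, hc, μ, hCu, hCy⟩
  · refine Or.inr ?_
    obtain ⟨hZc, hZn, hZf⟩ := hZ
    have h1 : Z.toFinset.card ≤ Multiset.card Z := Multiset.toFinset_card_le Z
    have h2 : Z.toFinset.card = Multiset.card Z := by omega
    have h3 : Z.toFinset.card = ρ := by omega
    have h4 : Z.Nodup := Multiset.toFinset_card_eq_card_iff_nodup.mp h2
    have h5 : Z.toFinset.val = Z := by
      rw [Multiset.toFinset_val]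
      exact Multiset.dedup_eq_self.mpr h4
    refine ⟨Z.toFinset, hI _ ⟨?_, h3, ?_, μ, ?_⟩, μ, ?_, ?_⟩
    · intro x hx
      rw [Multiset.mem_toFinset] at hx
      refine ⟨(hZn x hx).1, ?_⟩
      rw [Multiset.mem_toFinset]
      have h6 := Multiset.mem_map_of_mem (fr p) hx
      rw [hZf] at h6
      exact h6
    · intro x hx
      rw [Multiset.mem_toFinset] at hx
      exact (hZn x hx).2
    · rw [h5]
      exact hCu
    · rw [h5]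
      exact hCu
    · rw [h5]
      exact hCy

private theorem K2_A (C0 j ρ : ℕ) : ∃ A : ℕ, ∀ (p : ℕ) [Fact p.Prime] {q : ℕ}
    (G : Finset (MvPolynomial (Fin q) (ZMod p))) (_ : ∀ g ∈ G, ∃ n, g.IsHomogeneous n)
    (e : Fin j → ℕ) (g : Fin j → MvPolynomial (Fin q) (ZMod p)) (_ : ∀ l, (g l).IsHomogeneous (e l)) (r : ℕ)
    (_ : SL G g r C0) (u : Fin j → Kb p) (_ : ∀ l, u l ≠ 0), ∀ F, 1 ≤ F → F ≤ ρ →
    Nat.card {w : Finset (Fin q → Kb p) × ZMod p // Fs w.1 ∧ w.1.card = F ∧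
      (∀ x ∈ w.1, ∀ h ∈ G, MvPolynomial.aeval x h = 0) ∧ Cu e g u w.1.val w.2} * p ^ (j + F) ≤
        A * p ^ (F * (r + j) + 1) := by
  choose Af hAf using fun F : ℕ => LVF.cntS C0 j (F + 1) (Nat.le_add_left 1 F)
  refine ⟨∑ F ∈ range ρ, Af F, ?_⟩
  intro p _ q G hG e g hg r hS u hu F hF1 hF2
  obtain ⟨F', rfl⟩ : ∃ F', F = F' + 1 := ⟨F - 1, by omega⟩
  refine (hAf F' p G hG e g hg r hS u hu).trans (Nat.mul_le_mul_right _ ?_)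
  exact Finset.single_le_sum (f := Af) (fun _ _ => Nat.zero_le _) (Finset.mem_range.mpr (by omega))

theorem critA (C j ρ r : ℕ) (hρ : 1 ≤ ρ) : ∃ R₀ : ℕ, ρ ≤ R₀ ∧ ∀ (s : ℕ) (B : Finset (Fin s)) (n M D : ℕ), 1 ≤ s → 1 ≤ n →
    r + j = n + Bᶜ.card + 1 → j + B.card = ρ * n + 1 → 1 ≤ D → ∃ κ : ℝ, 0 < κ ∧ κ < 1 ∧ ∃ p0 : ℕ,
      ∀ (p : ℕ) [Fact p.Prime], p0 ≤ p → ∀ {q : ℕ} (G : Finset (MvPolynomial (Fin q) (ZMod p)))
      (_ : ∀ g ∈ G, ∃ n, g.IsHomogeneous n) (e : Fin j → ℕ) (_ : ∀ l, 1 ≤ e l ∧ e l ≤ D)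
      (g : Fin j → MvPolynomial (Fin q) (ZMod p)) (_ : ∀ l, (g l).IsHomogeneous (e l))
      (_ : SL G g r C) (u : Fin j → Kb p) (_ : ∀ l, u l ≠ 0) (d : Fin s → ℕ) (Ω : Type) [Finite Ω] [Nonempty Ω]
      (V : Ω → Fin s → (Fin q → Kb p) → Kb p) (_ : V1 V) (_ : V2 R₀ G g V) (_ : V3 ρ M G g d B V)
      (y : Fin s → Kb p) (_ : ∀ i, i ∈ B → y i ≠ 0),
      Pr (fun a : Ω => RG ρ G e g d B u y (V a)) ≤ 1 - κ := by
  classical
  obtain ⟨A, hA⟩ := K2_A C j ρ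
  choose mf hmf1 hmf2 using fun b : ℕ => LVY.exists_m ((A : ℝ) * (ρ : ℝ) ^ b)
  refine ⟨ρ + ∑ b ∈ range (ρ * (r + j) + 2), 2 * mf b * ρ, Nat.le_add_right _ _, ?_⟩
  intro s B n M D hs hn1 hn hj hD
  obtain ⟨A1, hA1⟩ := ubG C j s ρ n r M B hn
  obtain ⟨Cc, hCc⟩ : ∃ Cc : ℝ, Cc = A * ρ ^ B.card := ⟨_, rfl⟩
  obtain ⟨m, hm⟩ : ∃ m : ℕ, m = mf B.card := ⟨_, rfl⟩
  have hm1 : 1 ≤ m := by
    rw [hm]
    exact hmf1 B.card
  have hm2 : Cc ^ (2 * m) / (2 * m).factorial ≤ Real.exp (-2 * Cc) / 2 := by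
    rw [hm, hCc]
    exact hmf2 B.card
  have hCc0 : 0 ≤ Cc := by
    rw [hCc]
    positivity
  have hE0 : 0 < Real.exp (-2 * Cc) := Real.exp_pos _
  have hE1 : Real.exp (-2 * Cc) ≤ 1 := Real.exp_le_one_iff.mpr (by linarith)
  obtain ⟨E, hE⟩ : ∃ E : ℝ, E = Real.exp (-2 * Cc) := ⟨_, rfl⟩
  rw [← hE] at hE0 hE1 hm2
  obtain ⟨K', hK'⟩ : ∃ K' : ℝ, K' = 2 ^ ρ * Cc * (4 * m * ((1 + 2 ^ (2 * m * ρ) * (Cc + 1)) * (1 + Cc)) ^ (2 * m)) :=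
    ⟨_, rfl⟩
  refine ⟨E / 4, by linarith, by linarith, max (2 * (D * M)) (⌈(A1 + K') / (E / 4)⌉₊), ?_⟩
  intro p _ hp q G hG e heD g hg hSL u hu d Ω _ _ V hV1 hV2 hV3 y hy
  have hpp : 1 ≤ p := (Fact.out : p.Prime).one_lt.le
  have hp2 : 2 * (D * M) ≤ p := (le_max_left _ _).trans hp
  have hp3 : (A1 + K') / (E / 4) ≤ (p : ℝ) :=
    (Nat.le_ceil _).trans (by exact_mod_cast (le_max_right _ _).trans hp)
  have hp0 : (0 : ℝ) < p := by exact_mod_cast hpp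
  have hp4 : (A1 + K') * (p : ℝ)⁻¹ ≤ E / 4 := by
    rw [div_le_iff₀ (by linarith)] at hp3
    rw [mul_inv_le_iff₀ hp0, mul_comm]
    exact hp3
  have hB : B.card < ρ * (r + j) + 2 := by
    have h1 : ρ * n ≤ ρ * (r + j) := Nat.mul_le_mul_left ρ (by omega)
    omega
  have hR : 2 * m * ρ ≤ ρ + ∑ b ∈ range (ρ * (r + j) + 2), 2 * mf b * ρ := by
    rw [hm]
    exact (Finset.single_le_sum (f := fun b => 2 * mf b * ρ) (fun _ _ => Nat.zero_le _)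
      (Finset.mem_range.mpr hB)).trans (Nat.le_add_left _ _)
  have hV2' : V2 (2 * m * ρ) G g V := fun W hW hWG hWc v hv => hV2 W hW hWG (hWc.trans hR) v hv
  have hfin : (Ix ρ G e g u).Finite :=
    (LVF.ix_fin (p := p) (q := q) (F := ρ)).subset fun T hT => ⟨hT.1, hT.2.1⟩
  have hr := crit ρ n r A D M m hρ hn1 hs hD hm1 d B hn hj G e heD g
    (fun u hu F hF1 hF2 => hA p G hG e g hg r hSL u hu F hF1 hF2) hV1 hV2' hV3
    u hu y hy hfin.toFinset (fun T hT => hfin.mem_toFinset.mp hT) hp2 Cc hCc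
  have h1 := hA1 p G hG e g hg hSL u hu d Ω V hV3 y (ρ - 1) (Nat.sub_le _ _)
  have hρn : (ρ - 1) * n + n = ρ * n := by
    obtain ⟨k, rfl⟩ : ∃ k, ρ = k + 1 := ⟨ρ - 1, by omega⟩
    rw [Nat.add_sub_cancel, add_mul, one_mul]
  have h1' := K2_pr p A1 _ _ _ _ hpp (Nat.card_pos (α := Ω)) (by rw [hj]; omega) h1
  have hPr : Pr (fun a : Ω => RG ρ G e g d B u y (V a)) ≤
      A1 * (p : ℝ)⁻¹ + (1 - (E - Cc ^ (2 * m) / (2 * m).factorial) +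
        2 ^ ρ * Cc * (p : ℝ)⁻¹ * (4 * m * ((1 + 2 ^ (2 * m * ρ) * (Cc + 1)) * (1 + Cc)) ^ (2 * m))) := by
    refine (LVF.pr_mono fun a ha => K2_case ρ G e g d B u y V a hfin.toFinset
      (fun T hT => hfin.mem_toFinset.mpr hT) ha).trans ?_
    refine (LVF.pr_or _ _).trans (add_le_add h1' ?_)
    rw [hE]
    exact hr
  have hK : 2 ^ ρ * Cc * (p : ℝ)⁻¹ * (4 * m * ((1 + 2 ^ (2 * m * ρ) * (Cc + 1)) * (1 + Cc)) ^ (2 * m)) = K' * (p : ℝ)⁻¹ := by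
    rw [hK']
    ring
  rw [hK] at hPr
  have h5 : (A1 + K') * (p : ℝ)⁻¹ = A1 * (p : ℝ)⁻¹ + K' * (p : ℝ)⁻¹ := by ring
  linarith

end LVG
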