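import Pool.Agent.Lib.MP_17a322_ntLF.Defs

/-!
# LEAF GS1: the Nullstellensatz modulo primes

PROOF.  `Q'` (the image of `Q` in `K[τ]`) vanishes at all common zeros over the algebraic closure of the images of the elements of `E`, so a power of it is in the ideal generated by these images (`MvPolynomial.vanishingIdeal_zeroLocus_eq_radical`, as in `LVZ.bp_eq`, file `MP_17a322_ntLZ/H1.lean`): `Q' ^ n = ∑ g ∈ E, hh g * g'`.  Multiply by a nonzero integer `M` such that the `M * hh g` have coefficients in `𝓞 K` (`H1_clear_fin` there, private: copy it) and descend to `𝓞 K` by the injectivity of `MvPolynomial.map (algebraMap (𝓞 K) K)`: `C M * Q ^ n = ∑ g ∈ E, hh' g * g`.  `p1 = M + 1`: apply `MvPolynomial.map φ` and evaluate at `x`: `(M : Kb p) * (aeval x (map φ Q)) ^ n = 0`, and `M` is not `0` in `Kb p`.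
-/

namespace LVG

open NumberField
open LVF (Kb)

private theorem S1_clear {K σ : Type} [Field K] [NumberField K] (p : MvPolynomial σ K) :
    ∃ m : ℕ, m ≠ 0 ∧ ∃ p' : MvPolynomial σ (𝓞 K),
      MvPolynomial.map (algebraMap (𝓞 K) K) p' = MvPolynomial.C (m : K) * p := by
  classical
  obtain ⟨y, hy, hint⟩ := exists_integral_multiples ℤ ℚ (L := K)
    (p.support.image fun t => MvPolynomial.coeff t p)
  refine ⟨y.natAbs, Int.natAbs_ne_zero.2 hy, ?_⟩
  have hz : ∀ t, ∃ z : 𝓞 K, algebraMap (𝓞 K) K z = (y.natAbs : K) * MvPolynomial.coeff t p := by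
    intro t
    by_cases ht : t ∈ p.support
    · have h1 := hint (MvPolynomial.coeff t p) (Finset.mem_image_of_mem _ ht)
      rcases Int.natAbs_eq y with h | h
      · refine ⟨⟨_, h1⟩, ?_⟩
        change y • MvPolynomial.coeff t p = _
        rw [zsmul_eq_mul]
        conv_lhs => rw [h]
        rw [Int.cast_natCast]
      · refine ⟨⟨_, h1.neg⟩, ?_⟩
        change -(y • MvPolynomial.coeff t p) = _
        rw [zsmul_eq_mul]
        conv_lhs => rw [h]
        rw [Int.cast_neg, Int.cast_natCast, neg_mul, neg_neg]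
    · refine ⟨0, ?_⟩
      rw [MvPolynomial.notMem_support_iff.1 ht, mul_zero, map_zero]
  choose z hz using hz
  refine ⟨∑ t ∈ p.support, MvPolynomial.monomial t (z t), ?_⟩
  rw [map_sum]
  conv_rhs => rw [p.as_sum, Finset.mul_sum]
  refine Finset.sum_congr rfl fun t _ => ?_
  rw [MvPolynomial.map_monomial, hz, MvPolynomial.C_mul_monomial]

private theorem S1_clear_fin {K σ ι : Type} [Field K] [NumberField K] [Fintype ι]
    (p : ι → MvPolynomial σ K) :
    ∃ m : ℕ, m ≠ 0 ∧ ∀ i, ∃ p' : MvPolynomial σ (𝓞 K),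
      MvPolynomial.map (algebraMap (𝓞 K) K) p' = MvPolynomial.C (m : K) * p i := by
  classical
  choose m hm p' hp' using fun i => S1_clear (p i)
  refine ⟨∏ i, m i, Finset.prod_ne_zero_iff.2 fun i _ => hm i, fun i => ?_⟩
  obtain ⟨c, hc⟩ := Finset.dvd_prod_of_mem m (Finset.mem_univ i)
  refine ⟨MvPolynomial.C (c : 𝓞 K) * p' i, ?_⟩
  rw [map_mul, hp', MvPolynomial.map_C, map_natCast, hc, Nat.cast_mul, map_mul]
  ring

theorem spec (K : Type) [Field K] [NumberField K] {τ : Type} [Fintype τ] (E : Finset (MvPolynomial τ (𝓞 K)))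
    (Q : MvPolynomial τ (𝓞 K))
    (h : ∀ x : τ → AlgebraicClosure K, (∀ g ∈ E, MvPolynomial.aeval x (MvPolynomial.map (algebraMap (𝓞 K) K) g) = 0) →
      MvPolynomial.aeval x (MvPolynomial.map (algebraMap (𝓞 K) K) Q) = 0) :
    ∃ p1 : ℕ, ∀ (p : ℕ) [Fact p.Prime], p1 ≤ p → ∀ (φ : 𝓞 K →+* ZMod p) (x : τ → Kb p),
      (∀ g ∈ E, MvPolynomial.aeval x (MvPolynomial.map φ g) = 0) → MvPolynomial.aeval x (MvPolynomial.map φ Q) = 0 := by
  classical
  obtain ⟨D', hD'⟩ : ∃ D' : {g // g ∈ E} → MvPolynomial τ K, D' = fun J =>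
      MvPolynomial.map (algebraMap (𝓞 K) K) J.1 := ⟨_, rfl⟩
  -- the Nullstellensatz
  obtain ⟨n, hn⟩ : ∃ n : ℕ, MvPolynomial.map (algebraMap (𝓞 K) K) Q ^ n ∈ Ideal.span (Set.range D') := by
    have hr : MvPolynomial.map (algebraMap (𝓞 K) K) Q ∈ (Ideal.span (Set.range D')).radical := by
      rw [← MvPolynomial.vanishingIdeal_zeroLocus_eq_radical (K := AlgebraicClosure K),
        MvPolynomial.mem_vanishingIdeal_iff]
      intro x hx
      rw [MvPolynomial.mem_zeroLocus_iff] at hx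
      refine h x fun g hg => ?_
      have h1 := hx (D' ⟨g, hg⟩) (Ideal.subset_span ⟨⟨g, hg⟩, rfl⟩)
      rw [hD'] at h1
      exact h1
    exact Ideal.mem_radical_iff.1 hr
  obtain ⟨hh, hhh⟩ := Ideal.mem_span_range_iff_exists_fun.1 hn
  obtain ⟨M, hM, c1⟩ := S1_clear_fin hh
  choose h1 hh1 using c1
  have key : MvPolynomial.C (M : 𝓞 K) * Q ^ n = ∑ J, h1 J * J.1 := by
    apply MvPolynomial.map_injective (σ := τ) (algebraMap (𝓞 K) K) (FaithfulSMul.algebraMap_injective (𝓞 K) K)
    have e2 : ∀ J : {g // g ∈ E}, MvPolynomial.map (algebraMap (𝓞 K) K) (h1 J * J.1) =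
        MvPolynomial.C (M : K) * (hh J * D' J) := by
      intro J
      rw [map_mul, hh1, hD', mul_assoc]
    rw [map_mul, map_pow, map_sum, Finset.sum_congr rfl fun J _ => e2 J, ← Finset.mul_sum, hhh,
      MvPolynomial.map_C, map_natCast]
  refine ⟨M + 1, fun p _ hp φ x hx => ?_⟩
  have e3 := congrArg (fun P => MvPolynomial.aeval x (MvPolynomial.map φ P)) key
  simp only [map_mul, map_pow, map_sum, map_natCast] at e3
  rw [Finset.sum_eq_zero fun J _ => by rw [hx J.1 J.2, mul_zero]] at e3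
  have hM' : (M : Kb p) ≠ 0 := by
    intro h0
    have h2 : algebraMap (ZMod p) (Kb p) (M : ZMod p) = 0 := by rw [map_natCast, h0]
    have h3 : (M : ZMod p) = 0 := (map_eq_zero (algebraMap (ZMod p) (Kb p))).1 h2
    rw [ZMod.natCast_eq_zero_iff] at h3
    have := Nat.le_of_dvd (Nat.pos_of_ne_zero hM) h3
    omega
  rcases mul_eq_zero.1 e3 with h4 | h4
  · exact absurd h4 hM'
  · exact eq_zero_of_pow_eq_zero h4

end LVG
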