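import Pool.Agent.Lib.MP_17a322_ntLZ.Defs

/-!
# LEAF GS2: homogeneous generators with integral coefficients

PROOF.  `P` is finitely generated (`MvPolynomial (Fin q) K` is noetherian): `P = span S` for a finite set `S`.  The homogeneous components of the elements of `S` are in `P` (`hP`) and generate `P` (each element is the sum of its components); multiply each of them by a nonzero integer which makes the coefficients integral (clearing of denominators as `H1_clear` in `MP_17a322_ntLZ/H1.lean`, private: copy it): this gives `G` (an integral multiple of a homogeneous polynomial is homogeneous; the coefficients of the preimage: injectivity of `algebraMap (𝓞 K) K`).  If all elements of `G` vanish at `x` (a point with coordinates in a field `F` over `K`, of characteristic `0`), then so do the generators, and the set of the `h` with `aeval x h = 0` is an ideal (the kernel of `aeval x`).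
-/

namespace LVG

open NumberField

private theorem S2_clear {K σ : Type} [Field K] [NumberField K] (p : MvPolynomial σ K) :
    ∃ m : ℕ, m ≠ 0 ∧ ∃ p' : MvPolynomial σ (𝓞 K),
      MvPolynomial.map (algebraMap (𝓞 K) K) p' = MvPolynomial.C (m : K) * p := by
  classical
  obtain ⟨y, hy, hint⟩ := exists_integral_multiples ℤ ℚ (L := K)
    (p.support.image fun t => MvPolynomial.coeff t p)
  refine ⟨y.natAbs, Int.natAbs_ne_zero.2 hy, ?_⟩
  have hz : ∀ t, ∃ z : 𝓞 K, algebraMap (𝓞 K) K z = (y.natAbs : K) * MvPolynomial.coeff t p := by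
    intro t
    by_cases ht : t ∈ p.support
    · have h1 := hint (MvPolynomial.coeff t p) (Finset.mem_image_of_mem _ ht)
      rcases Int.natAbs_eq y with h | h
      · refine ⟨⟨_, h1⟩, ?_⟩
        change y • MvPolynomial.coeff t p = _
        rw [zsmul_eq_mul]
        conv_lhs => rw [h]
        rw [Int.cast_natCast]
      · refine ⟨⟨_, h1.neg⟩, ?_⟩
        change -(y • MvPolynomial.coeff t p) = _
        rw [zsmul_eq_mul]
        conv_lhs => rw [h]
        rw [Int.cast_neg, Int.cast_natCast, neg_mul, neg_neg]
    · refine ⟨0, ?_⟩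
      rw [MvPolynomial.notMem_support_iff.1 ht, mul_zero, map_zero]
  choose z hz using hz
  refine ⟨∑ t ∈ p.support, MvPolynomial.monomial t (z t), ?_⟩
  rw [map_sum]
  conv_rhs => rw [p.as_sum, Finset.mul_sum]
  refine Finset.sum_congr rfl fun t _ => ?_
  rw [MvPolynomial.map_monomial, hz, MvPolynomial.C_mul_monomial]

private theorem S2_hom {K σ : Type} [Field K] [NumberField K] {p : MvPolynomial σ K} {p' : MvPolynomial σ (𝓞 K)} {m n : ℕ}
    (h : MvPolynomial.map (algebraMap (𝓞 K) K) p' = MvPolynomial.C (m : K) * p) (hp : p.IsHomogeneous n) :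
    p'.IsHomogeneous n := by
  intro d hd
  refine hp (d := d) fun h0 => hd ?_
  have h1 := congrArg (MvPolynomial.coeff d) h
  rw [MvPolynomial.coeff_map, MvPolynomial.coeff_C_mul, h0, mul_zero] at h1
  exact (map_eq_zero_iff _ (FaithfulSMul.algebraMap_injective (𝓞 K) K)).1 h1

theorem gensP {K : Type} [Field K] [NumberField K] {q : ℕ} (P : Ideal (MvPolynomial (Fin q) K)) (hP : LVZ.Hm P) :
    ∃ G : Finset (MvPolynomial (Fin q) (𝓞 K)), (∀ g ∈ G, ∃ n, g.IsHomogeneous n) ∧
      (∀ g ∈ G, MvPolynomial.map (algebraMap (𝓞 K) K) g ∈ P) ∧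
        ∀ (F : Type) [Field F] [Algebra K F] (x : Fin q → F),
          (∀ g ∈ G, MvPolynomial.aeval x (MvPolynomial.map (algebraMap (𝓞 K) K) g) = 0) →
            ∀ h ∈ P, MvPolynomial.aeval x h = 0 := by
  classical
  obtain ⟨S, hS⟩ := IsNoetherian.noetherian P
  choose m hm p' hp' using fun g : MvPolynomial (Fin q) K => S2_clear g
  have hSP : ∀ g ∈ S, g ∈ P := fun g hg => hS ▸ Submodule.subset_span hg
  refine ⟨S.biUnion fun g => (Finset.range (g.totalDegree + 1)).image fun n =>
    p' (MvPolynomial.homogeneousComponent n g), ?_, ?_, ?_⟩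
  · intro g hg
    obtain ⟨g0, _, hg1⟩ := Finset.mem_biUnion.1 hg
    obtain ⟨n, _, rfl⟩ := Finset.mem_image.1 hg1
    exact ⟨n, S2_hom (hp' _) (MvPolynomial.homogeneousComponent_isHomogeneous n g0)⟩
  · intro g hg
    obtain ⟨g0, hg0, hg1⟩ := Finset.mem_biUnion.1 hg
    obtain ⟨n, _, rfl⟩ := Finset.mem_image.1 hg1
    rw [hp']
    exact P.mul_mem_left _ (hP g0 (hSP g0 hg0) n)
  · intro F _ _ x hx h hh
    have hchar : CharZero F := charZero_of_injective_algebraMap (algebraMap K F).injective
    have hle : P ≤ RingHom.ker (MvPolynomial.aeval x : MvPolynomial (Fin q) K →ₐ[K] F) := by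
      rw [← hS]
      refine Submodule.span_le.2 fun g hg => ?_
      rw [SetLike.mem_coe, RingHom.mem_ker, ← MvPolynomial.sum_homogeneousComponent g, map_sum]
      refine Finset.sum_eq_zero fun n hn => ?_
      have h1 := hx (p' (MvPolynomial.homogeneousComponent n g))
        (Finset.mem_biUnion.2 ⟨g, hg, Finset.mem_image.2 ⟨n, hn, rfl⟩⟩)
      rw [hp', map_mul, MvPolynomial.aeval_C, map_natCast] at h1
      exact (mul_eq_zero.1 h1).resolve_left (Nat.cast_ne_zero.2 (hm _))
    exact RingHom.mem_ker.1 (hle hh)

end LVG
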