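import Pool.Agent.Lib.MP_17a322_ntLG.Defs
import Pool.Agent.Lib.MP_17a322_ntLG.S1
import Pool.Agent.Lib.MP_17a322_ntLG.S2
import Pool.Agent.Lib.MP_17a322_ntLZ.H4

/-!
# LEAF GS3: separation of points modulo primes

PROOF.  `G` from `gensP` (it does not depend on `m`, `t`).  Fix `m ≤ R` and `t : Fin s → Fin m` (finitely many; take the maximum of the `p1`).  Let `J` be the finite type of the pairs `(i, l)` with `i ∈ B → l = t i`, of cardinality `n`, `ε : Fin n ≃ J`.  For given `z` the `n` values `∑ k, a k * aeval (z l) (h k i)`, `(i, l) ∈ J`, take all values if and only if for some `κ : Fin n → Fin N` the determinant of the matrix `(aeval (z l) (h (κ r) i))_(r, (i, l))` is not `0` (`LVZ.minors` with `A k r` the value for `ε r`).  In the polynomial ring in the variables `Fin m × Fin q` over `𝓞 K` (`z l` has the coordinates `X (l, ·)`, `MvPolynomial.rename` or `aeval`) let `E` be the set of the `g (z l)`, `g ∈ G`, `l : Fin m`, and of all these determinants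 `D κ`.  For each choice `c` of a coordinate `c l` for each `l` and of a pair of coordinates `(a, b)` for each pair `l ≠ l'` let `Q c = (∏ l, X (l, c l)) * (∏ l k, f k (z l)) * ∏ (l ≠ l'), (X (l, a) * X (l', b) - X (l, b) * X (l', a))`.  Over the algebraic closure of `K`: if all elements of `E` vanish at `z` and `Q c (z) ≠ 0`, then `z l ≠ 0`, `z l` is a zero of `P` (`gensP`), `f k (z l) ≠ 0` and `z l` is not a multiple of `z l'` (the `2 × 2` minor), so `SP` gives `Spf`, so some `D κ (z) ≠ 0`: a contradiction.  `spec` for each `c`.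
Modulo `p`: let `z` be injective with values in `Gp`.  All `z l` are normalised, so not `0`, and for `l ≠ l'` some `2 × 2` minor of `z l`, `z l'` is not `0` (distinct normalised vectors are not proportional): choose `c` accordingly, `Q c (z) ≠ 0` (`map φ` and evaluation commute with products; the values of the `f k` are not `0` on `Gp`).  The `g (z l)` are `0`, so by `spec` not all `D κ (z)` are `0`, and `minors` gives the values for this `t`.
-/

namespace LVG

open Finset NumberField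
open LVF (Kb)

section

open MvPolynomial

private theorem S3_iff {R0 F : Type} [CommRing R0] [Field F] [Algebra R0 F] {N s q m n : ℕ}
    (h : Fin N → Fin s → MvPolynomial (Fin q) R0) (B : Finset (Fin s)) (z : Fin m → Fin q → F)
    (t : Fin s → Fin m) (ε : Fin n ≃ {il : Fin s × Fin m // il.1 ∈ B → il.2 = t il.1}) :
    (∀ y : Fin s → Fin m → F, ∃ a : Fin N → F, ∀ i l, (i ∈ B → l = t i) →
      ∑ k, a k * aeval (z l) (h k i) = y i l) ↔
    ∃ κ : Fin n → Fin N, (Matrix.of fun r' r =>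
      aeval (z (ε r).1.2) (h (κ r') (ε r).1.1)).det ≠ 0 := by
  classical
  rw [← LVZ.minors (fun k r => aeval (z (ε r).1.2) (h k (ε r).1.1))]
  constructor
  · intro H y'
    obtain ⟨a, ha⟩ := H fun i l => if hh : i ∈ B → l = t i then y' (ε.symm ⟨(i, l), hh⟩) else 0
    refine ⟨a, fun r => ?_⟩
    rw [ha (ε r).1.1 (ε r).1.2 (ε r).2, dif_pos (ε r).2]
    exact congrArg y' (ε.symm_apply_apply r)
  · intro H y
    obtain ⟨a, ha⟩ := H fun r => y (ε r).1.1 (ε r).1.2
    refine ⟨a, fun i l hh => ?_⟩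
    have h1 := ha (ε.symm ⟨(i, l), hh⟩)
    rw [ε.apply_symm_apply] at h1
    exact h1

/-- the generic point -/
private noncomputable def S3r {A : Type} [CommRing A] {m q : ℕ} (l : Fin m) :
    MvPolynomial (Fin q) A →ₐ[A] MvPolynomial (Fin m × Fin q) A := rename fun c => (l, c)

private theorem S3_r {A F0 F : Type} [CommRing A] [CommRing F0] [Field F] [Algebra F0 F] {m q : ℕ}
    (ψ : A →+* F0) (z : Fin m → Fin q → F) (l : Fin m) (h : MvPolynomial (Fin q) A) :
    aeval (fun c : Fin m × Fin q => z c.1 c.2) (map ψ (S3r l h)) = aeval (z l) (map ψ h) := by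
  unfold S3r
  rw [map_rename, aeval_rename]
  rfl

/-- the generic determinant -/
private noncomputable def S3D {A : Type} [CommRing A] {N s q m n : ℕ}
    (g : Fin N → Fin s → MvPolynomial (Fin q) A) {B : Finset (Fin s)} {t : Fin s → Fin m}
    (ε : Fin n ≃ {il : Fin s × Fin m // il.1 ∈ B → il.2 = t il.1}) (κ : Fin n → Fin N) :
    MvPolynomial (Fin m × Fin q) A :=
  (Matrix.of fun r' r => S3r (ε r).1.2 (g (κ r') (ε r).1.1)).det

private theorem S3_D {A F0 F : Type} [CommRing A] [CommRing F0] [Field F] [Algebra F0 F]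
    {N s q m n : ℕ} (ψ : A →+* F0) (g : Fin N → Fin s → MvPolynomial (Fin q) A)
    {B : Finset (Fin s)} {t : Fin s → Fin m}
    (ε : Fin n ≃ {il : Fin s × Fin m // il.1 ∈ B → il.2 = t il.1}) (κ : Fin n → Fin N)
    (z : Fin m → Fin q → F) :
    aeval (fun c : Fin m × Fin q => z c.1 c.2) (map ψ (S3D g ε κ)) =
      (Matrix.of fun r' r => aeval (z (ε r).1.2) (map ψ (g (κ r') (ε r).1.1))).det := by
  unfold S3D
  have h1 := RingHom.map_det (((aeval (fun c : Fin m × Fin q => z c.1 c.2) :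
    MvPolynomial (Fin m × Fin q) F0 →ₐ[F0] F) : MvPolynomial (Fin m × Fin q) F0 →+* F).comp
      (map ψ)) (Matrix.of fun r' r => S3r (ε r).1.2 (g (κ r') (ε r).1.1))
  refine h1.trans ?_
  congr 1
  ext r' r
  exact S3_r ψ z _ _

/-- the product of the coordinates, of the values of the fixed forms and of the minors -/
private noncomputable def S3Q {A : Type} [CommRing A] {q m j : ℕ}
    (f : Fin j → MvPolynomial (Fin q) A) (c : Fin m → Fin q)
    (ab : Fin m × Fin m → Fin q × Fin q) : MvPolynomial (Fin m × Fin q) A :=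
  (∏ l, X (l, c l)) * (∏ l : Fin m, ∏ k, S3r l (f k)) *
    ∏ l : Fin m, ∏ l' : Fin m, if l = l' then 1 else
      X (l, (ab (l, l')).1) * X (l', (ab (l, l')).2) -
        X (l, (ab (l, l')).2) * X (l', (ab (l, l')).1)

private theorem S3_Q {A F0 F : Type} [CommRing A] [CommRing F0] [Field F] [Algebra F0 F]
    {q m j : ℕ} (ψ : A →+* F0) (f : Fin j → MvPolynomial (Fin q) A) (c : Fin m → Fin q)
    (ab : Fin m × Fin m → Fin q × Fin q) (z : Fin m → Fin q → F) :
    aeval (fun c : Fin m × Fin q => z c.1 c.2) (map ψ (S3Q f c ab)) ≠ 0 ↔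
      (∀ l, z l (c l) ≠ 0) ∧ (∀ l k, aeval (z l) (map ψ (f k)) ≠ 0) ∧
      ∀ l l', l ≠ l' → z l (ab (l, l')).1 * z l' (ab (l, l')).2 -
        z l (ab (l, l')).2 * z l' (ab (l, l')).1 ≠ 0 := by
  unfold S3Q
  have h1 : ∀ l l' : Fin m, aeval (fun c : Fin m × Fin q => z c.1 c.2) (map ψ
      (if l = l' then 1 else
      X (l, (ab (l, l')).1) * X (l', (ab (l, l')).2) -
        X (l, (ab (l, l')).2) * X (l', (ab (l, l')).1) : MvPolynomial (Fin m × Fin q) A)) =
      if l = l' then (1 : F) else z l (ab (l, l')).1 * z l' (ab (l, l')).2 -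
        z l (ab (l, l')).2 * z l' (ab (l, l')).1 := by
    intro l l'
    by_cases h : l = l'
    · rw [if_pos h, if_pos h, map_one, map_one]
    · rw [if_neg h, if_neg h]
      simp only [map_sub, map_mul, map_X, aeval_X]
  rw [map_mul, map_mul, map_mul, map_mul, map_prod, map_prod, map_prod, map_prod, map_prod,
    map_prod]
  simp only [map_prod, S3_r, h1, map_X, aeval_X]
  rw [mul_ne_zero_iff, mul_ne_zero_iff, and_assoc]
  refine and_congr ?_ (and_congr ?_ ?_)
  · rw [Finset.prod_ne_zero_iff]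
    exact ⟨fun H l => H l (Finset.mem_univ l), fun H l _ => H l⟩
  · rw [Finset.prod_ne_zero_iff]
    refine ⟨fun H l k => ?_, fun H l _ => ?_⟩
    · exact Finset.prod_ne_zero_iff.1 (H l (Finset.mem_univ l)) k (Finset.mem_univ k)
    · exact Finset.prod_ne_zero_iff.2 fun k _ => H l k
  · rw [Finset.prod_ne_zero_iff]
    refine ⟨fun H l l' hl => ?_, fun H l _ => ?_⟩
    · have h2 := Finset.prod_ne_zero_iff.1 (H l (Finset.mem_univ l)) l' (Finset.mem_univ l')
      rwa [if_neg hl] at h2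
    · refine Finset.prod_ne_zero_iff.2 fun l' _ => ?_
      by_cases hl : l = l'
      · rw [if_pos hl]
        exact one_ne_zero
      · rw [if_neg hl]
        exact H l l' hl

private theorem S3_minor {F : Type} [Field F] {q : ℕ} {z z' : Fin q → F} (hz : LVF.Nm z)
    (hz' : LVF.Nm z') (hne : z ≠ z') : ∃ a b, z a * z' b - z b * z' a ≠ 0 := by
  by_contra hcon
  apply hne
  obtain ⟨w, hw, hw0⟩ := hz
  obtain ⟨w', hw', hw0'⟩ := hz'
  have h1 : ∀ a b, z a * z' b - z b * z' a = 0 := by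
    intro a b
    by_contra h
    exact hcon ⟨a, b, h⟩
  have h2 : ∀ b, z' b = z b * z' w := fun b => by
    have h3 := h1 w b
    rw [hw, one_mul] at h3
    exact sub_eq_zero.1 h3
  have h3 : z' w ≠ 0 := by
    intro h
    have h4 := h2 w'
    rw [h, mul_zero, hw'] at h4
    exact one_ne_zero h4
  have h4 : ¬ w < w' := fun h => h3 (hw0' w h)
  have h5 : ¬ w' < w := fun h => by
    have h6 := h2 w'
    rw [hw0 w' h, zero_mul, hw'] at h6
    exact one_ne_zero h6
  have h6 : w = w' := le_antisymm (not_lt.1 h5) (not_lt.1 h4)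
  funext b
  rw [h2 b, h6, hw', mul_one]

end

open Classical in
theorem specSP (K : Type) [Field K] [NumberField K] {q j N s : ℕ} (R : ℕ) (P : Ideal (MvPolynomial (Fin q) K))
    (hP : LVZ.Hm P) (f : Fin j → MvPolynomial (Fin q) (𝓞 K)) (g : Fin N → Fin s → MvPolynomial (Fin q) (𝓞 K))
    (B : Finset (Fin s)) (h : SP R P f g B) :
    ∃ G : Finset (MvPolynomial (Fin q) (𝓞 K)), (∀ g ∈ G, ∃ n, g.IsHomogeneous n) ∧
      (∀ g ∈ G, MvPolynomial.map (algebraMap (𝓞 K) K) g ∈ P) ∧ ∃ p1 : ℕ, ∀ (p : ℕ) [Fact p.Prime], p1 ≤ p →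
        ∀ φ : 𝓞 K →+* ZMod p, ∀ m ≤ R, ∀ z : Fin m → Fin q → Kb p, Function.Injective z →
          (∀ l, z l ∈ Gp (G.image (MvPolynomial.map φ)) (fun l => MvPolynomial.map φ (f l))) →
            Spf (fun k i => MvPolynomial.map φ (g k i)) B z := by
  obtain ⟨G, hG1, hG2, hG3⟩ := gensP P hP
  refine ⟨G, hG1, hG2, ?_⟩
  have claim : ∀ m : ℕ, m ≤ R → ∀ t : Fin s → Fin m, ∃ p1 : ℕ, ∀ (p : ℕ) [Fact p.Prime], p1 ≤ p →
      ∀ φ : 𝓞 K →+* ZMod p, ∀ z : Fin m → Fin q → Kb p, Function.Injective z →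
        (∀ l, z l ∈ Gp (G.image (MvPolynomial.map φ)) (fun l => MvPolynomial.map φ (f l))) →
        ∀ y : Fin s → Fin m → Kb p, ∃ a : Fin N → Kb p, ∀ i l, (i ∈ B → l = t i) →
          ∑ k, a k * MvPolynomial.aeval (z l) (MvPolynomial.map φ (g k i)) = y i l := by
    intro m hm t
    obtain ⟨n, ε⟩ : ∃ n, Nonempty (Fin n ≃ {il : Fin s × Fin m // il.1 ∈ B → il.2 = t il.1}) :=
      ⟨_, ⟨(Fintype.equivFin _).symm⟩⟩
    obtain ⟨ε⟩ := ε
    obtain ⟨E, hE⟩ : ∃ E : Finset (MvPolynomial (Fin m × Fin q) (𝓞 K)), ∀ e, e ∈ E ↔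
        (∃ l : Fin m, ∃ h ∈ G, e = S3r l h) ∨ ∃ κ : Fin n → Fin N, e = S3D g ε κ := by
      refine ⟨((Finset.univ ×ˢ G).image fun lg : Fin m × MvPolynomial (Fin q) (𝓞 K) =>
        S3r lg.1 lg.2) ∪ Finset.univ.image (S3D g ε), fun e => ?_⟩
      rw [Finset.mem_union, Finset.mem_image, Finset.mem_image]
      refine or_congr ⟨?_, ?_⟩ ⟨?_, ?_⟩
      · rintro ⟨⟨l, h⟩, h1, rfl⟩
        exact ⟨l, h, (Finset.mem_product.1 h1).2, rfl⟩
      · rintro ⟨l, h, h1, rfl⟩
        exact ⟨(l, h), Finset.mem_product.2 ⟨Finset.mem_univ _, h1⟩, rfl⟩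
      · rintro ⟨κ, -, rfl⟩
        exact ⟨κ, rfl⟩
      · rintro ⟨κ, rfl⟩
        exact ⟨κ, Finset.mem_univ _, rfl⟩
    have hsp : ∀ cab : (Fin m → Fin q) × (Fin m × Fin m → Fin q × Fin q), ∃ p1 : ℕ,
        ∀ (p : ℕ) [Fact p.Prime], p1 ≤ p → ∀ (φ : 𝓞 K →+* ZMod p) (x : Fin m × Fin q → Kb p),
        (∀ g ∈ E, MvPolynomial.aeval x (MvPolynomial.map φ g) = 0) →
        MvPolynomial.aeval x (MvPolynomial.map φ (S3Q f cab.1 cab.2)) = 0 := by
      intro cab
      refine spec K E (S3Q f cab.1 cab.2) fun x hx => ?_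
      by_contra hQ
      obtain ⟨z, rfl⟩ : ∃ z : Fin m → Fin q → AlgebraicClosure K,
          x = fun c : Fin m × Fin q => z c.1 c.2 := ⟨fun l c => x (l, c), rfl⟩
      obtain ⟨h1, h2, h3⟩ := (S3_Q (algebraMap (𝓞 K) K) f cab.1 cab.2 z).1 hQ
      have h4 : Spf (fun k i => MvPolynomial.map (algebraMap (𝓞 K) K) (g k i)) B z := by
        refine h m hm z (fun l hl => h1 l (by rw [hl]; rfl)) (fun l => hG3 _ (z l) fun e he => ?_)
          h2 fun l l' hl c hc => h3 l l' hl ?_
        · rw [← S3_r (algebraMap (𝓞 K) K) z l e]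
          exact hx _ ((hE _).2 (Or.inl ⟨l, e, he, rfl⟩))
        · rw [hc]
          simp only [Pi.smul_apply, smul_eq_mul]
          ring
      obtain ⟨κ, hκ⟩ := (S3_iff _ B z t ε).1 (h4 t)
      apply hκ
      rw [← S3_D (algebraMap (𝓞 K) K) g ε κ z]
      exact hx _ ((hE _).2 (Or.inr ⟨κ, rfl⟩))
    choose p1 hp1 using hsp
    refine ⟨Finset.univ.sup p1, fun p _ hp φ z hz hzG => ?_⟩
    rw [S3_iff (fun k i => MvPolynomial.map φ (g k i)) B z t ε]
    by_contra hcon
    choose c hc _ using fun l => (hzG l).1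
    have hab : ∀ ll : Fin m × Fin m, ∃ ab : Fin q × Fin q, ll.1 ≠ ll.2 →
        z ll.1 ab.1 * z ll.2 ab.2 - z ll.1 ab.2 * z ll.2 ab.1 ≠ 0 := by
      intro ll
      by_cases hl : ll.1 = ll.2
      · exact ⟨(c ll.1, c ll.1), fun h => absurd hl h⟩
      · obtain ⟨a, b, h1⟩ := S3_minor (hzG ll.1).1 (hzG ll.2).1 fun h => hl (hz h)
        exact ⟨(a, b), fun _ => h1⟩
    choose ab hab using hab
    have hQ : MvPolynomial.aeval (fun c : Fin m × Fin q => z c.1 c.2)
        (MvPolynomial.map φ (S3Q f c ab)) ≠ 0 := by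
      refine (S3_Q φ f c ab z).2 ⟨fun l => ?_, fun l k => (hzG l).2.2 k, fun l l' hl =>
        hab (l, l') hl⟩
      rw [hc l]
      exact one_ne_zero
    refine hQ (hp1 (c, ab) p ((Finset.le_sup (Finset.mem_univ _)).trans hp) φ _ fun e he => ?_)
    rcases (hE e).1 he with ⟨l, h1, h2, rfl⟩ | ⟨κ, rfl⟩
    · rw [S3_r]
      exact (hzG l).2.1 _ (Finset.mem_image_of_mem _ h2)
    · rw [S3_D]
      by_contra h3
      exact hcon ⟨κ, h3⟩
  choose! p1 hp1 using claim
  refine ⟨(Finset.range (R + 1)).sup fun m => Finset.univ.sup (p1 m),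
    fun p _ hp φ m hm z hz hzG t y => ?_⟩
  refine hp1 m hm t p (le_trans ?_ hp) φ z hz hzG y
  exact (Finset.le_sup (f := p1 m) (Finset.mem_univ t)).trans
    (Finset.le_sup (f := fun m => Finset.univ.sup (p1 m)) (Finset.mem_range.2 (by omega)))

end LVG
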