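import Pool.Agent.Lib.MP_17a322_ntLG.R4
import Pool.Agent.Lib.MP_17a322_ntLG.E5
import Pool.Agent.Lib.MP_17a322_ntLG.K2
import Pool.Agent.Lib.MP_17a322_ntLG.S3
import Pool.Agent.Lib.MP_17a322_ntLG.D6
import Pool.Agent.Lib.MP_17a322_ntLG.I1
import Pool.Agent.Lib.MP_17a322_ntLF.S1

/-!
# LEAF GMain: the main theorem

PROOF.  `ldg` (both cases): `G` is the union of the `G` of `slF`, of `specSP ρ .. B` and, in the critical case, of `specSP R₀ .. ∅`; with a larger `G` the sets `Gp` and the set in `SL` are smaller, so the conclusions of `slF` and `specSP` for their `G` hold for the union (`SL` is monotone: `Nat.card` of a subset of a finite set).  `LDG`: `Gv g φ = Vl (fun k i => map φ (g k i))` by definition; `v1`, `v2`, `v3` give `V1`, `V2 R₀`, `V3 ρ M`; `noncA` resp. `critA` (with `Ω = Fin N → ZMod p`, `Nat.card Ω = p ^ N`; `D = 1 + ∑ l, e l`).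
`mainG`: `R₀` from `critA (C j ρ r)` where `C` is the constant of `slF` (which depends on `P`, `f` only).  If `Cp` for all `i` then `SP` by `cp_sp` (`B` resp. `∅`).
-/

namespace LVG

open Finset NumberField

private theorem Main_fin {p q : ℕ} [Fact p.Prime] {n : ℕ} (hn : 1 ≤ n) (X : (Fin q → LVF.Kb p) → Prop) :
    Finite {x : Fin q → LVF.Kb p // (∀ t, x t ^ p ^ n = x t) ∧ X x} := by
  have h0 : (Polynomial.X ^ p ^ n - Polynomial.X : Polynomial (LVF.Kb p)) ≠ 0 :=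
    FiniteField.X_pow_card_sub_X_ne_zero (LVF.Kb p) (Nat.one_lt_pow (by omega) (Fact.out : p.Prime).one_lt)
  have h1 : {y : LVF.Kb p | y ^ p ^ n = y}.Finite := by
    refine (Polynomial.finite_setOfPred_isRoot h0).subset fun y hy => ?_
    have hy' : y ^ p ^ n = y := hy
    change Polynomial.IsRoot _ _
    rw [Polynomial.IsRoot.def, Polynomial.eval_sub, Polynomial.eval_pow, Polynomial.eval_X, hy', sub_self]
  have h2 : (Set.univ.pi fun _ : Fin q => {y : LVF.Kb p | y ^ p ^ n = y}).Finite := Set.Finite.pi fun _ => h1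
  exact (h2.subset fun x hx => fun t _ => hx.1 t).to_subtype

private theorem Main_SL {p q j r C : ℕ} [Fact p.Prime] {G G' : Finset (MvPolynomial (Fin q) (ZMod p))} (hG : G ⊆ G')
    {f : Fin j → MvPolynomial (Fin q) (ZMod p)} (h : LVF.SL G f r C) : LVF.SL G' f r C := by
  intro n hn u
  refine le_trans ?_ (h n hn u)
  have := Main_fin (p := p) hn (fun x : Fin q → LVF.Kb p => (∀ g ∈ G, MvPolynomial.aeval x g = 0) ∧
    ∀ l, MvPolynomial.aeval x (f l) = u l)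
  exact Nat.card_le_card_of_injective (fun x : {x : Fin q → LVF.Kb p // (∀ t, x t ^ p ^ n = x t) ∧
      (∀ g ∈ G', MvPolynomial.aeval x g = 0) ∧ ∀ l, MvPolynomial.aeval x (f l) = u l} =>
      (⟨x.1, x.2.1, fun g hg => x.2.2.1 g (hG hg), x.2.2.2⟩ : {x : Fin q → LVF.Kb p // (∀ t, x t ^ p ^ n = x t) ∧
        (∀ g ∈ G, MvPolynomial.aeval x g = 0) ∧ ∀ l, MvPolynomial.aeval x (f l) = u l}))
    (fun x y e => Subtype.ext (congrArg (fun w : {x : Fin q → LVF.Kb p // (∀ t, x t ^ p ^ n = x t) ∧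
        (∀ g ∈ G, MvPolynomial.aeval x g = 0) ∧ ∀ l, MvPolynomial.aeval x (f l) = u l} => w.1) e))

private theorem Main_Gp {p q j : ℕ} [Fact p.Prime] {G G' : Finset (MvPolynomial (Fin q) (ZMod p))} (hG : G ⊆ G')
    {f : Fin j → MvPolynomial (Fin q) (ZMod p)} {x : Fin q → LVF.Kb p} (hx : x ∈ Gp G' f) : x ∈ Gp G f :=
  ⟨hx.1, fun g hg => hx.2.1 g (hG hg), hx.2.2⟩

private theorem Main_card (p N : ℕ) [Fact p.Prime] : Nat.card (Fin N → ZMod p) = p ^ N := by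
  rw [Nat.card_eq_fintype_card, Fintype.card_fun, ZMod.card, Fintype.card_fin]

private theorem Main_spf {R F : Type} [CommRing R] [Field F] [Algebra R F] {N s q m : ℕ}
    {h : Fin N → Fin s → MvPolynomial (Fin q) R} {z : Fin m → Fin q → F} (hz : Spf h ∅ z) (B : Finset (Fin s)) :
    Spf h B z := by
  intro t y
  obtain ⟨a, ha⟩ := hz t y
  exact ⟨a, fun i l _ => ha i l fun hi => absurd hi (Finset.notMem_empty i)⟩

theorem ldg_non (K : Type) [Field K] [NumberField K] {q j r : ℕ} (P : Ideal (MvPolynomial (Fin q) K)) (hP : LVZ.Hm P)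
    (e : Fin j → ℕ) (he : ∀ l, 1 ≤ e l) (f : Fin j → MvPolynomial (Fin q) (𝓞 K)) (hf : ∀ l, (f l).IsHomogeneous (e l))
    (h : LVZ.GP P f r) (ρ s N n : ℕ) (d : Fin s → ℕ) (B : Finset (Fin s))
    (g : Fin N → Fin s → MvPolynomial (Fin q) (𝓞 K)) (hS : SP ρ P f g B) (hn : r + j = n + Bᶜ.card + 1)
    (hj : ρ * n + 2 ≤ j + B.card) :
    ∃ G : Finset (MvPolynomial (Fin q) (𝓞 K)), (∀ g ∈ G, ∃ n, g.IsHomogeneous n) ∧
      (∀ g ∈ G, MvPolynomial.map (algebraMap (𝓞 K) K) g ∈ P) ∧ LDG ρ G e f d B g := by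
  classical
  obtain ⟨G1, hG1, hG1P, C, p1, h1⟩ := LVF.slF K P hP e he f hf h
  obtain ⟨G2, hG2, hG2P, p2, h2⟩ := specSP K ρ P hP f g B hS
  obtain ⟨M, p3, h3⟩ := v3 ρ s
  obtain ⟨p4, h4⟩ := noncA C j s ρ n r M B hn hj
  refine ⟨G1 ∪ G2, fun g' hg' => ?_, fun g' hg' => ?_, 1 / 2, by norm_num, by norm_num, p1 + p2 + p3 + p4, ?_⟩
  · rcases Finset.mem_union.1 hg' with hh | hh
    · exact hG1 _ hh
    · exact hG2 _ hh
  · rcases Finset.mem_union.1 hg' with hh | hh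
    · exact hG1P _ hh
    · exact hG2P _ hh
  intro p _ hp φ u hu y _
  have hs1 : G1.image (MvPolynomial.map φ) ⊆ (G1 ∪ G2).image (MvPolynomial.map φ) :=
    Finset.image_subset_image Finset.subset_union_left
  have hs2 : G2.image (MvPolynomial.map φ) ⊆ (G1 ∪ G2).image (MvPolynomial.map φ) :=
    Finset.image_subset_image Finset.subset_union_right
  have hV := h3 p (by omega) ((G1 ∪ G2).image (MvPolynomial.map φ)) (fun l => MvPolynomial.map φ (f l))
    (fun k i => MvPolynomial.map φ (g k i)) d B fun m hm z hz hzG => h2 p (by omega) φ m hm z hz fun l =>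
      Main_Gp hs2 (hzG l)
  have hfin := h4 p (by omega) ((G1 ∪ G2).image (MvPolynomial.map φ)) (fun g' hg' => by
      obtain ⟨g'', hg'', rfl⟩ := Finset.mem_image.1 hg'
      rcases Finset.mem_union.1 hg'' with hh | hh
      · obtain ⟨k, hk⟩ := hG1 _ hh
        exact ⟨k, hk.map φ⟩
      · obtain ⟨k, hk⟩ := hG2 _ hh
        exact ⟨k, hk.map φ⟩) e (fun l => MvPolynomial.map φ (f l)) (fun l => (hf l).map φ)
    (Main_SL hs1 (h1 p (by omega) φ)) u hu d (Fin N → ZMod p) _ hV y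
  rw [Main_card] at hfin
  have hfin' : ((Nat.card {c : Fin N → ZMod p // RG ρ ((G1 ∪ G2).image (MvPolynomial.map φ)) e
      (fun l => MvPolynomial.map φ (f l)) d B u y (LVF.Gv g φ c)} : ℕ) : ℝ) * 2 ≤ (p : ℝ) ^ N := by
    exact_mod_cast hfin
  linarith

theorem ldg_crit (K : Type) [Field K] [NumberField K] {q j r : ℕ} (P : Ideal (MvPolynomial (Fin q) K)) (hP : LVZ.Hm P)
    (e : Fin j → ℕ) (he : ∀ l, 1 ≤ e l) (f : Fin j → MvPolynomial (Fin q) (𝓞 K)) (hf : ∀ l, (f l).IsHomogeneous (e l))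
    (h : LVZ.GP P f r) (ρ : ℕ) (hρ : 1 ≤ ρ) : ∃ R₀ : ℕ, ∀ (s N n : ℕ) (d : Fin s → ℕ) (B : Finset (Fin s))
      (g : Fin N → Fin s → MvPolynomial (Fin q) (𝓞 K)), SP R₀ P f g ∅ → r + j = n + Bᶜ.card + 1 → 1 ≤ s → 1 ≤ n →
        j + B.card = ρ * n + 1 →
          ∃ G : Finset (MvPolynomial (Fin q) (𝓞 K)), (∀ g ∈ G, ∃ n, g.IsHomogeneous n) ∧
            (∀ g ∈ G, MvPolynomial.map (algebraMap (𝓞 K) K) g ∈ P) ∧ LDG ρ G e f d B g := by
  classical
  obtain ⟨G1, hG1, hG1P, C, p1, h1⟩ := LVF.slF K P hP e he f hf h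
  obtain ⟨R₀, hR, hcrit⟩ := critA C j ρ r hρ
  refine ⟨R₀, fun s N n d B g hS hn hs1 hn1 hj => ?_⟩
  obtain ⟨G2, hG2, hG2P, p2, h2⟩ := specSP K R₀ P hP f g ∅ hS
  obtain ⟨M, p3, h3⟩ := v3 ρ s
  obtain ⟨κ, hκ0, hκ1, p4, h4⟩ := hcrit s B n M (1 + ∑ l, e l) hs1 hn1 hn hj (Nat.le_add_right _ _)
  refine ⟨G1 ∪ G2, fun g' hg' => ?_, fun g' hg' => ?_, κ, hκ0, hκ1, p1 + p2 + p3 + p4, ?_⟩
  · rcases Finset.mem_union.1 hg' with hh | hh
    · exact hG1 _ hh
    · exact hG2 _ hh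
  · rcases Finset.mem_union.1 hg' with hh | hh
    · exact hG1P _ hh
    · exact hG2P _ hh
  intro p _ hp φ u hu y hy
  have hs1 : G1.image (MvPolynomial.map φ) ⊆ (G1 ∪ G2).image (MvPolynomial.map φ) :=
    Finset.image_subset_image Finset.subset_union_left
  have hs2 : G2.image (MvPolynomial.map φ) ⊆ (G1 ∪ G2).image (MvPolynomial.map φ) :=
    Finset.image_subset_image Finset.subset_union_right
  have hspec : ∀ m ≤ R₀, ∀ z : Fin m → Fin q → LVF.Kb p, Function.Injective z →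
      (∀ l, z l ∈ Gp ((G1 ∪ G2).image (MvPolynomial.map φ)) (fun l => MvPolynomial.map φ (f l))) →
        Spf (fun k i => MvPolynomial.map φ (g k i)) ∅ z := fun m hm z hz hzG =>
    h2 p (by omega) φ m hm z hz fun l => Main_Gp hs2 (hzG l)
  have hV3 := h3 p (by omega) ((G1 ∪ G2).image (MvPolynomial.map φ)) (fun l => MvPolynomial.map φ (f l))
    (fun k i => MvPolynomial.map φ (g k i)) d B fun m hm z hz hzG => Main_spf (hspec m (hm.trans hR) z hz hzG) B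
  have hV2 := v2 (R := R₀) ((G1 ∪ G2).image (MvPolynomial.map φ)) (fun l => MvPolynomial.map φ (f l))
    (fun k i => MvPolynomial.map φ (g k i)) hspec
  have hfin := h4 p (by omega) ((G1 ∪ G2).image (MvPolynomial.map φ)) (fun g' hg' => by
      obtain ⟨g'', hg'', rfl⟩ := Finset.mem_image.1 hg'
      rcases Finset.mem_union.1 hg'' with hh | hh
      · obtain ⟨k, hk⟩ := hG1 _ hh
        exact ⟨k, hk.map φ⟩
      · obtain ⟨k, hk⟩ := hG2 _ hh
        exact ⟨k, hk.map φ⟩) e (fun l => ⟨he l, (Finset.single_le_sum (f := e) (fun _ _ => Nat.zero_le _)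
          (Finset.mem_univ l)).trans (Nat.le_add_left _ _)⟩)
    (fun l => MvPolynomial.map φ (f l)) (fun l => (hf l).map φ)
    (Main_SL hs1 (h1 p (by omega) φ)) u hu d (Fin N → ZMod p) _ (v1 _) hV2 hV3 y fun i hi => (hy i).2 hi
  unfold LVF.Pr at hfin
  rw [Main_card] at hfin
  have hp0 : (0 : ℝ) < ((p ^ N : ℕ) : ℝ) := by
    exact_mod_cast pow_pos (Fact.out : p.Prime).pos N
  have hfin2 := (div_le_iff₀ hp0).1 hfin
  rw [Nat.cast_pow] at hfin2
  exact hfin2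

theorem mainG (K : Type) [Field K] [NumberField K] : ∃ δ η : ℝ, 0 < δ ∧ 0 < η ∧ ∀ (ρ q j r : ℕ)
    (P : Ideal (MvPolynomial (Fin q) K)) (e : Fin j → ℕ) (f : Fin j → MvPolynomial (Fin q) (𝓞 K)), 1 ≤ ρ → LVZ.Hm P →
      (∀ l, 1 ≤ e l) → (∀ l, (f l).IsHomogeneous (e l)) → LVZ.GP P f r → ∃ R₀ : ℕ,
        ∀ (s N n : ℕ) (d : Fin s → ℕ) (B : Finset (Fin s)) (g : Fin N → Fin s → MvPolynomial (Fin q) (𝓞 K)),
          (∀ i, 1 ≤ d i) → (∀ k i, (g k i).IsHomogeneous (d i)) → r + j = n + Bᶜ.card + 1 →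
            (ρ * n + 2 ≤ j + B.card ∧ (SP ρ P f g B ∨ (∀ i, LVZ.Cp g d i) ∧ ∀ i, i ∉ B → ρ ≤ d i + 1) ∨
              1 ≤ s ∧ 1 ≤ n ∧ j + B.card = ρ * n + 1 ∧ (SP R₀ P f g ∅ ∨ (∀ i, LVZ.Cp g d i ∧ R₀ ≤ d i))) →
              ∃ c₀ C : ℝ, 0 < c₀ ∧ ∀ H : ℕ, 1 ≤ H →
                (Nat.card {c : Fin N → ℤ // (∀ k, |c k| ≤ (H : ℤ)) ∧
                  ¬ ∀ (L : Type) [Field L] [NumberField L] [Algebra K L], Module.finrank K L ≤ ρ →
                    ∀ S : Finset (FinitePlace L), (S.card : ℝ) ≤ Real.log H ^ η →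
                      ∑ w ∈ S, Real.log (Ideal.absNorm w.maximalIdeal.asIdeal : ℝ) ≤ c₀ * Real.log H →
                        ∀ x : Fin q → L, (∀ h ∈ P, MvPolynomial.aeval x h = 0) → (∀ i ∉ B, LVZ.Fv g c i x = 0) →
                          LVZ.Dv f g B c x ≠ 0 → LVZ.mS S (LVZ.dg e d B) (LVZ.Dv f g B c x) x <
                            LVZ.dg e d B * (Height.logHeight x / Module.finrank ℚ L) - c₀ * Real.log H} : ℝ) ≤
                              C * (H : ℝ) ^ ((N : ℝ) - δ) := by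
  obtain ⟨δ, η, hδ, hη, hasm⟩ := asmG K
  refine ⟨δ, η, hδ, hη, fun ρ q j r P e f hρ hP he hf hGP => ?_⟩
  obtain ⟨R₀, hcrit⟩ := ldg_crit K P hP e he f hf hGP ρ hρ
  refine ⟨R₀, fun s N n d B g hd hg hn hcase => ?_⟩
  rcases hcase with ⟨hj, hS⟩ | ⟨hs, hn1, hj, hS⟩
  · have hSP : SP ρ P f g B := by
      rcases hS with hS | ⟨hC, hB⟩
      · exact hS
      · exact cp_sp K d g hg hC ρ P f B hB
    obtain ⟨G, hG, hGP', hL⟩ := ldg_non K P hP e he f hf hGP ρ s N n d B g hSP hn hj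
    exact hasm ρ q j s N P G hG hGP' e he f hf d hd B g hg (by omega) hL
  · have hSP : SP R₀ P f g ∅ := by
      rcases hS with hS | hC
      · exact hS
      · exact cp_sp K d g hg (fun i => (hC i).1) R₀ P f ∅ fun i _ => ((hC i).2).trans (Nat.le_succ _)
    obtain ⟨G, hG, hGP', hL⟩ := hcrit s N n d B g hSP hn hs hn1 hj
    exact hasm ρ q j s N P G hG hGP' e he f hf d hd B g hg (by omega) hL

end LVG
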