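import Pool.Agent.Lib.MP_17a322_ntLF.N.N13
import Pool.Agent.Lib.MP_17a322_ntLF.N.N4

/-!
# LEAF GR1: the reduction of a point of degree `m` modulo a place of degree one, without points at infinity

PROOF.  `red_vecT`: the proof of `LVN.red_vec` (file `MP_17a322_ntLF/N/N10.lean`); there `v = FinitePlace.mk ⟨RingHom.ker r, _, _⟩` and `LVN.semi x hx (fib L v)` gives `∀ w ∈ fib L v, ∃ i, w (x' i) = 1`; as all `w (x' i) ≤ 1`, `⨆ i, w (x' i) = 1`.
`redT`: the proof of `LVF.redS` (file `MP_17a322_ntLF/N/N13.lean`).  Let `r = LVX.ro π`.  The place `v` of the hypotheses is the place of `ker r`: the elements `a` of `𝓞 K` with `v a < 1` form the prime ideal `v.maximalIdeal.asIdeal` (`FinitePlace.norm_lt_one_iff_mem` with `FinitePlace.norm_embedding_eq`); if `a ∈ ker r`, `a ∉ v.maximalIdeal.asIdeal`, then `v a = 1`, `v a⁻¹ = 1`, so `a⁻¹ ∈ π.V` by `hv`, and `Rd π a 0` gives `a⁻¹ * a` of residue `0`, a contradiction; so `ker r ≤ v.maximalIdeal.asIdeal`,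 and `ker r` is maximal.  Let `u = norm lam * α`.  `v (norm lam) = ∏ w ∈ fib L v, w lam` (`LVN.norm_place`, file `N3.lean`), `v α = ∏ w ∈ fib L v, ⨆ i, w (x i)`, and `w lam * ⨆ i, w (x i) = ⨆ i, w (x' i) = 1`: so `v u = 1`, and `u`, `u⁻¹` are in `π.V` by `hv`: only the first case of `redS` occurs, with `μ` the residue of `u`.
-/

namespace LVG

open NumberField MvPolynomial
open LVH (Pl Rd)
open LVF (Kb)

private theorem R1_kerNe {K F : Type} [Field K] [NumberField K] [Field F] {p : ℕ} (hp : p ≠ 0) [CharP F p]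
    (r : 𝓞 K →+* F) : RingHom.ker r ≠ ⊥ := by
  intro h
  have h1 : (p : 𝓞 K) ∈ RingHom.ker r := by
    rw [RingHom.mem_ker, map_natCast]
    exact CharP.cast_eq_zero F p
  rw [h, Ideal.mem_bot] at h1
  exact hp (by exact_mod_cast h1)

private theorem R1_one {L : Type} [Field L] [NumberField L] (w : FinitePlace L) (a : 𝓞 L) :
    w (a : L) = 1 ↔ a ∉ w.maximalIdeal.asIdeal := by
  rw [← FinitePlace.norm_embedding_eq w]
  exact FinitePlace.norm_eq_one_iff_notMem L w.maximalIdeal a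

theorem red_vecT {K L : Type} [Field K] [NumberField K] [Field L] [NumberField L] [Algebra K L] {p : ℕ} [Fact p.Prime]
    (r : 𝓞 K →+* ZMod p) (v : FinitePlace K) (hv : v.maximalIdeal.asIdeal = RingHom.ker r) {σ : Type} [Fintype σ]
    (x : σ → L) (hx : x ≠ 0) :
    ∃ (lam : L) (x' : σ → 𝓞 L) (θ : Fin (Module.finrank K L) → (𝓞 L →+* AlgebraicClosure (ZMod p)))
      (s : Equiv.Perm (Fin (Module.finrank K L))), lam ≠ 0 ∧ (∀ i, (x' i : L) = lam * x i) ∧ (∀ k, ∃ i, θ k (x' i) ≠ 0) ∧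
        (∀ k a, θ k (algebraMap (𝓞 K) (𝓞 L) a) = algebraMap (ZMod p) (AlgebraicClosure (ZMod p)) (r a)) ∧
        (∀ k b, θ k b ^ p = θ (s k) b) ∧
          (∀ (b : 𝓞 L) (a : 𝓞 K), (a : K) = Algebra.norm K (b : L) →
            algebraMap (ZMod p) (AlgebraicClosure (ZMod p)) (r a) = ∏ k, θ k b) ∧
            ∀ w ∈ LVN.fib L v, w lam * ⨆ i, w (x i) = 1 := by
  have hp0 : p ≠ 0 := (Fact.out : p.Prime).ne_zero
  obtain ⟨θ, s, h1, h2, h3⟩ := LVN.frob_fam (K := K) (L := L) r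
  obtain ⟨lam, x', hlam, hx', hw⟩ := LVN.semi x hx (LVN.fib L v)
  refine ⟨lam, x', θ, s, hlam, hx', ?_, h1, h2, h3, ?_⟩
  · intro k
    have hne : RingHom.ker (θ k) ≠ ⊥ := R1_kerNe hp0 (θ k)
    let w : FinitePlace L := FinitePlace.mk ⟨RingHom.ker (θ k), RingHom.ker_isPrime (θ k), hne⟩
    have hwI : w.maximalIdeal.asIdeal = RingHom.ker (θ k) := by
      show (FinitePlace.mk ⟨RingHom.ker (θ k), RingHom.ker_isPrime (θ k), hne⟩ : FinitePlace L).maximalIdeal.asIdeal = _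
      rw [FinitePlace.maximalIdeal_mk]
    have hbel : LVN.bel K w = v := by
      refine FinitePlace.maximalIdeal_injective (IsDedekindDomain.HeightOneSpectrum.ext ?_)
      simp only
      rw [LVN.bel_asIdeal, hwI, hv]
      ext a
      rw [Ideal.under, Ideal.mem_comap, RingHom.mem_ker, RingHom.mem_ker, h1]
      exact map_eq_zero_iff _ (algebraMap (ZMod p) (AlgebraicClosure (ZMod p))).injective
    obtain ⟨i, hi⟩ := hw w ((LVN.mem_fib L v w).2 hbel)
    refine ⟨i, fun h0 => ?_⟩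
    have h4 := (R1_one w (x' i)).1 hi
    rw [hwI, RingHom.mem_ker] at h4
    exact h4 h0
  · intro w hwf
    obtain ⟨i, hi⟩ := hw w hwf
    have : Nonempty σ := ⟨i⟩
    rw [Real.mul_iSup_of_nonneg (apply_nonneg w lam)]
    have h4 : ∀ j, w lam * w (x j) = w (x' j : L) := fun j => by rw [hx' j, map_mul]
    simp only [h4]
    refine le_antisymm (ciSup_le fun j => ?_) ?_
    · rw [← FinitePlace.norm_embedding_eq w]
      exact FinitePlace.norm_le_one L w.maximalIdeal (x' j)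
    · rw [← hi]
      exact le_ciSup (f := fun j => w (x' j : L)) (Set.finite_range _).bddAbove i

theorem redT {K L : Type} [Field K] [NumberField K] [Field L] [NumberField L] [Algebra K L] {p : ℕ} [Fact p.Prime]
    (π : Pl K p) (v : FinitePlace K) (hv1 : v (p : K) < 1) (hv : ∀ x : K, v x ≤ 1 → x ∈ π.V) {q : ℕ} (x : Fin q → L)
    (hx : x ≠ 0) {W : Type} (d : W → ℕ)
    (h : W → MvPolynomial (Fin q) K) (h' : W → MvPolynomial (Fin q) (ZMod p)) (hh : ∀ w, (h w).IsHomogeneous (d w))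
    (hr : ∀ w e, Rd π ((h w).coeff e) ((h' w).coeff e)) (y : W → K) (y' : W → ZMod p) (hy : ∀ w, Rd π (y w) (y' w))
    (α : K) (hα : v α = ∏ w ∈ LVN.fib L v, ⨆ i, w (x i))
    (hN : ∀ w, Algebra.norm K (MvPolynomial.aeval x (h w)) = α ^ d w * y w) {V : Type}
    (g : V → MvPolynomial (Fin q) K) (g' : V → MvPolynomial (Fin q) (ZMod p)) (hg : ∀ v, ∃ n, (g v).IsHomogeneous n)
    (hgr : ∀ v e, Rd π ((g v).coeff e) ((g' v).coeff e)) (hg0 : ∀ v, MvPolynomial.aeval x (g v) = 0) :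
    ∃ (z : Fin (Module.finrank K L) → Fin q → Kb p) (s : Equiv.Perm (Fin (Module.finrank K L))), (∀ k, z k ≠ 0) ∧
      (∀ k t, z k t ^ p = z (s k) t) ∧ (∀ k v, MvPolynomial.aeval (z k) (g' v) = 0) ∧
        ∃ μ : ZMod p, μ ≠ 0 ∧ ∀ w, ∏ k, MvPolynomial.aeval (z k) (h' w) =
          algebraMap (ZMod p) (Kb p) (μ ^ d w * y' w) := by
  have hro : ∀ c : 𝓞 K, Rd π (c : K) (LVX.ro π c) := fun c => ⟨LVX.int_mem π c, rfl⟩
  have hker : v.maximalIdeal.asIdeal = RingHom.ker (LVX.ro π) := by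
    have hmax : (RingHom.ker (LVX.ro π)).IsMaximal :=
      RingHom.ker_isMaximal_of_surjective _ (ZMod.ringHom_surjective _)
    refine (hmax.eq_of_le v.maximalIdeal.isPrime.ne_top fun a ha => ?_).symm
    by_contra hna
    have h1 : v (a : K) = 1 := (R1_one v a).2 hna
    have ha0 : (a : K) ≠ 0 := by
      intro h0
      rw [h0, map_zero] at h1
      exact zero_ne_one h1
    have h2 : (a : K)⁻¹ ∈ π.V := by
      apply hv
      rw [map_inv₀, h1, inv_one]
    have h3 := hro a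
    rw [RingHom.mem_ker.1 ha] at h3
    exact h3.ne ha0 h2 rfl
  obtain ⟨lam, x', θ, s, hlam, hx', hne, hθ, hs, hN', hsup⟩ := red_vecT (LVX.ro π) v hker x hx
  refine ⟨fun k t => θ k (x' t), s, fun k h0 => ?_, fun k t => hs k (x' t), fun k v => ?_, ?_⟩
  · obtain ⟨i, hi⟩ := hne k
    exact hi (congrFun h0 i)
  · obtain ⟨n, hn⟩ := hg v
    exact LVN.val_zero π x lam x' hx' (θ k) (hθ k) (g v) (g' v) (hgr v) hn (hg0 v)
  have hval := fun w => LVN.val_norm π x lam x' hx' θ hθ hN' (h w) (h' w) (hr w) (hh w) α (y w) (hN w)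
  obtain ⟨u, hu'⟩ : ∃ u : K, u = Algebra.norm K lam * α := ⟨_, rfl⟩
  rw [← hu'] at hval
  have hvu : v u = 1 := by
    rw [hu', map_mul, LVN.norm_place v lam hlam, hα, ← Finset.prod_mul_distrib]
    exact Finset.prod_eq_one fun w hw => hsup w hw
  have hu : u ≠ 0 := by
    intro h0
    rw [h0, map_zero] at hvu
    exact zero_ne_one hvu
  have h1 : u ∈ π.V := hv u hvu.le
  have h2 : u⁻¹ ∈ π.V := by
    apply hv
    rw [map_inv₀, hvu, inv_one]
  have hμ : Rd π u (π.ρ ⟨u, h1⟩) := ⟨h1, rfl⟩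
  refine ⟨π.ρ ⟨u, h1⟩, hμ.ne hu h2, fun w => ?_⟩
  obtain ⟨c, a, hc, ha, h4⟩ := hval w
  have h3 : LVX.ro π a = LVX.ro π c ^ Module.finrank K L * ((π.ρ ⟨u, h1⟩) ^ d w * y' w) := by
    have h4 := hro a
    rw [ha] at h4
    rw [← mul_assoc]
    exact h4.unique ((((hro c).pow _).mul (hμ.pow _)).mul (hy w))
  rw [h3, map_mul, map_pow] at h4
  have h5 : algebraMap (ZMod p) (AlgebraicClosure (ZMod p)) (LVX.ro π c) ^ Module.finrank K L ≠ 0 :=
    pow_ne_zero _ (fun h6 => hc ((map_eq_zero _).1 h6))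
  exact (mul_left_cancel₀ h5 h4).symm

end LVG
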