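import Pool.Agent.Lib.MP_17a322_ntLG.R1
import Pool.Agent.Lib.MP_17a322_ntLG.Defs
import Pool.Agent.Lib.MP_17a322_ntLF.N.N14
import Pool.Agent.Lib.MP_17a322_ntLF.Nf
import Pool.Agent.Lib.MP_17a322_ntLX.PDefs
import Pool.Agent.Lib.MP_17a322_ntLH.T9A

/-!
# LEAF GR2: the local condition of a point of degree at most `ρ`

PROOF.  Apply `redT` with `W = Fin j ⊕ {i // i ∈ B}`, the polynomials `h (inl l) = map (f l)`, `h (inr i) = ∑ k, C (c k) * map (g k i)` over `K` and their reductions `h'` (`LVX.ro π` in place of `algebraMap (𝓞 K) K`; `Rd π (a : K) (ro π a)` for `a` in `𝓞 K` by `LVX.int_mem`, so `hr` holds coefficient by coefficient), `d` the degrees, `y`, `y' w = res π (y w)` (`LVH.rd_res`), and `V = G ⊕ {i // i ∉ B}` with the polynomials of `G` and the `∑ k, C (c k) * map (g k i)`, `i ∉ B` (they vanish at `x` by `hGx`, `hC`).  This gives `z`, `s`, `μ0` (`m = Module.finrank K L`); `LVF.chow z s` gives `Φ`, and `LVF.nform` gives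 `Z`, `μ'` with `card Z = m`.  Every `x' ∈ Z` is `t • z k`, so homogeneous polynomials which vanish at all `z k` vanish at `x'` (`LVF.scal_aeval`); so `Z ∈ Cyc (G.image (map (ro π))) m`, and the `i`-th function vanishes on `Z` for `i ∉ B` (`Gv g (ro π) c i x' = aeval x' (∑ k, C (c k) * map (ro π) (g k i))`).  `∏ k, aeval (z k) (h' w) = μ' ^ n w * vp Z (h' w) = algebraMap (μ0 ^ n w * y' w)`, so `(μ' / μ0) ^ n w * vp Z (h' w) = y' w`: `RG` with `μ = μ' / μ0 ≠ 0`.  `1 ≤ m` (`Module.finrank_pos`).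
-/

namespace LVG

open Finset NumberField
open LVH (Pl res)
open LVX (ro)
open LVF (Kb Gv)

/-- the linear combination of the `i`-th components -/
private noncomputable def R2_cb {R F : Type} [CommRing R] [CommRing F] {N s q : ℕ} (φ : R →+* F)
    (g : Fin N → Fin s → MvPolynomial (Fin q) R) (c : Fin N → ℤ) (i : Fin s) : MvPolynomial (Fin q) F :=
  ∑ k, MvPolynomial.C ((c k : ℤ) : F) * MvPolynomial.map φ (g k i)

private theorem R2_hom {R F : Type} [CommRing R] [CommRing F] {N s q : ℕ} (φ : R →+* F)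
    (g : Fin N → Fin s → MvPolynomial (Fin q) R) (c : Fin N → ℤ) (i : Fin s) {n : ℕ}
    (hg : ∀ k, (g k i).IsHomogeneous n) : (R2_cb φ g c i).IsHomogeneous n := by
  unfold R2_cb
  refine MvPolynomial.IsHomogeneous.sum _ _ _ fun k _ => ?_
  exact MvPolynomial.IsHomogeneous.C_mul ((hg k).map φ) _

private theorem R2_val {R F E : Type} [CommRing R] [CommRing F] [CommRing E] [Algebra F E] {N s q : ℕ} (φ : R →+* F)
    (g : Fin N → Fin s → MvPolynomial (Fin q) R) (c : Fin N → ℤ) (i : Fin s) (x : Fin q → E) :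
    MvPolynomial.aeval x (R2_cb φ g c i) =
      ∑ k, algebraMap F E ((c k : ℤ) : F) * MvPolynomial.aeval x (MvPolynomial.map φ (g k i)) := by
  unfold R2_cb
  rw [map_sum]
  refine Finset.sum_congr rfl fun k _ => ?_
  rw [map_mul, MvPolynomial.aeval_C]

private theorem R2_rd {K : Type} [Field K] [NumberField K] {p : ℕ} (π : Pl K p) {q : ℕ}
    (f : MvPolynomial (Fin q) (𝓞 K)) (e : Fin q →₀ ℕ) :
    LVH.Rd π ((MvPolynomial.map (algebraMap (𝓞 K) K) f).coeff e) ((MvPolynomial.map (ro π) f).coeff e) := by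
  rw [MvPolynomial.coeff_map, MvPolynomial.coeff_map]
  exact ⟨LVX.int_mem π _, rfl⟩

private theorem R2_rdc {K : Type} [Field K] [NumberField K] {p : ℕ} (π : Pl K p) {N s q : ℕ}
    (g : Fin N → Fin s → MvPolynomial (Fin q) (𝓞 K)) (c : Fin N → ℤ) (i : Fin s) (e : Fin q →₀ ℕ) :
    LVH.Rd π ((R2_cb (algebraMap (𝓞 K) K) g c i).coeff e) ((R2_cb (ro π) g c i).coeff e) := by
  unfold R2_cb
  rw [MvPolynomial.coeff_sum, MvPolynomial.coeff_sum]
  refine LVH.Rd.sum _ fun k _ => ?_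
  rw [MvPolynomial.coeff_C_mul, MvPolynomial.coeff_C_mul]
  exact (LVH.Rd.int (c k)).mul (R2_rd π (g k i) e)

open Classical in
theorem locG {K L : Type} [Field K] [NumberField K] [Field L] [NumberField L] [Algebra K L] {p : ℕ} [Fact p.Prime]
    (π : Pl K p) (v : FinitePlace K) (hv1 : v (p : K) < 1) (hv : ∀ x : K, v x ≤ 1 → x ∈ π.V)
    {q j s N : ℕ} (ρ : ℕ) (hρ : Module.finrank K L ≤ ρ) (G : Finset (MvPolynomial (Fin q) (𝓞 K)))
    (hG : ∀ h ∈ G, ∃ n, h.IsHomogeneous n) (e : Fin j → ℕ)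
    (f : Fin j → MvPolynomial (Fin q) (𝓞 K)) (hf : ∀ l, (f l).IsHomogeneous (e l)) (d : Fin s → ℕ)
    (B : Finset (Fin s)) (g : Fin N → Fin s → MvPolynomial (Fin q) (𝓞 K)) (hg : ∀ k i, (g k i).IsHomogeneous (d i))
    (c : Fin N → ℤ) (x : Fin q → L) (hx : x ≠ 0) (hGx : ∀ h ∈ G, MvPolynomial.aeval x h = 0)
    (hC : ∀ i, i ∉ B → LVZ.Fv g c i x = 0) (α : K) (hα : v α = ∏ w ∈ LVN.fib L v, ⨆ i, w (x i))
    (y : Fin j ⊕ {i // i ∈ B} → K) (hy : ∀ w, y w ∈ π.V)
    (hN : ∀ w, Algebra.norm K (Sum.elim (fun l => MvPolynomial.aeval x (f l)) (fun i => LVZ.Fv g c i.1 x) w) =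
        α ^ (Sum.elim e (fun i => d i.1) w) * y w) :
    RG ρ (G.image (MvPolynomial.map (ro π))) e (fun l => MvPolynomial.map (ro π) (f l)) d B
      (fun l => algebraMap (ZMod p) (Kb p) (res π (y (Sum.inl l))))
      (fun i => if h : i ∈ B then algebraMap (ZMod p) (Kb p) (res π (y (Sum.inr ⟨i, h⟩))) else 0)
      (Gv g (ro π) fun k => ((c k : ℤ) : ZMod p)) := by
  have hscal : ∀ (h : MvPolynomial (Fin q) (𝓞 K)),
      MvPolynomial.aeval x (MvPolynomial.map (algebraMap (𝓞 K) K) h) = MvPolynomial.aeval x h := fun h =>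
    MvPolynomial.aeval_map_algebraMap K x h
  have hFv : ∀ i, MvPolynomial.aeval x (R2_cb (algebraMap (𝓞 K) K) g c i) = LVZ.Fv g c i x := by
    intro i
    rw [R2_val]
    unfold LVZ.Fv
    refine Finset.sum_congr rfl fun k _ => ?_
    rw [hscal, map_intCast]
  have hGv : ∀ i (x' : Fin q → Kb p), Gv g (ro π) (fun k => ((c k : ℤ) : ZMod p)) i x' =
      MvPolynomial.aeval x' (R2_cb (ro π) g c i) := by
    intro i x'
    rw [R2_val]
    rfl
  obtain ⟨z, s', hz, hs, hg', μ0, hμ0, hw⟩ := redT (V := {h // h ∈ G} ⊕ {i // i ∉ B}) π v hv1 hv x hx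
    (Sum.elim e fun i : {i // i ∈ B} => d i.1)
    (Sum.elim (fun l => MvPolynomial.map (algebraMap (𝓞 K) K) (f l))
      fun i : {i // i ∈ B} => R2_cb (algebraMap (𝓞 K) K) g c i.1)
    (Sum.elim (fun l => MvPolynomial.map (ro π) (f l)) fun i : {i // i ∈ B} => R2_cb (ro π) g c i.1)
    (by
      rintro (l | i)
      · exact (hf l).map _
      · exact R2_hom _ g c i.1 fun k => hg k i.1)
    (by
      rintro (l | i) e'
      · exact R2_rd π (f l) e'
      · exact R2_rdc π g c i.1 e')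
    y (fun w => res π (y w)) (fun w => LVH.rd_res (hy w)) α hα
    (by
      rintro (l | i)
      · have h1 := hN (Sum.inl l)
        simp only [Sum.elim_inl] at h1 ⊢
        rw [hscal]
        exact h1
      · have h1 := hN (Sum.inr i)
        simp only [Sum.elim_inr] at h1 ⊢
        rw [hFv]
        exact h1)
    (Sum.elim (fun h : {h // h ∈ G} => MvPolynomial.map (algebraMap (𝓞 K) K) h.1)
      fun i : {i // i ∉ B} => R2_cb (algebraMap (𝓞 K) K) g c i.1)
    (Sum.elim (fun h : {h // h ∈ G} => MvPolynomial.map (ro π) h.1)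
      fun i : {i // i ∉ B} => R2_cb (ro π) g c i.1)
    (by
      rintro (h | i)
      · obtain ⟨n, hn⟩ := hG h.1 h.2
        exact ⟨n, hn.map _⟩
      · exact ⟨d i.1, R2_hom _ g c i.1 fun k => hg k i.1⟩)
    (by
      rintro (h | i) e'
      · exact R2_rd π h.1 e'
      · exact R2_rdc π g c i.1 e')
    (by
      rintro (h | i)
      · simp only [Sum.elim_inl]
        rw [hscal]
        exact hGx h.1 h.2
      · simp only [Sum.elim_inr]
        rw [hFv]
        exact hC i.1 i.2)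
  obtain ⟨Φ, hΦ⟩ := LVF.chow z s' hs
  obtain ⟨Z, μ', hcard, hZ, hfr, hμ', hvp⟩ := LVF.nform z hz ⟨Φ, hΦ⟩
  have hA0 : algebraMap (ZMod p) (Kb p) μ0 ≠ 0 := (map_ne_zero _).2 hμ0
  have hkey : ∀ (n : ℕ) (h : MvPolynomial (Fin q) (ZMod p)) (r : ZMod p), h.IsHomogeneous n →
      ∏ k, MvPolynomial.aeval (z k) h = algebraMap (ZMod p) (Kb p) (μ0 ^ n * r) →
        algebraMap (ZMod p) (Kb p) (μ' / μ0) ^ n * LVF.vp Z h = algebraMap (ZMod p) (Kb p) r := by
    intro n h r hn hr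
    rw [hvp n h hn, map_mul, map_pow] at hr
    have h1 : algebraMap (ZMod p) (Kb p) μ0 ^ n ≠ 0 := pow_ne_zero _ hA0
    apply mul_left_cancel₀ h1
    rw [← hr, map_div₀, div_pow, ← mul_assoc, mul_div_cancel₀ _ h1]
  have hhom : ∀ i, (R2_cb (ro π) g c i).IsHomogeneous (d i) := fun i => R2_hom _ g c i fun k => hg k i
  have hzero : ∀ x' ∈ Z, ∀ (n : ℕ) (h : MvPolynomial (Fin q) (ZMod p)), h.IsHomogeneous n →
      (∀ k, MvPolynomial.aeval (z k) h = 0) → MvPolynomial.aeval x' h = 0 := by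
    intro x' hx' n h hn hk
    obtain ⟨-, k, t, rfl⟩ := hZ x' hx'
    rw [LVF.scal_aeval t (z k) h hn, hk k, mul_zero]
  refine ⟨Module.finrank K L, Module.finrank_pos, hρ, Z, ⟨hcard, fun x' hx' => ⟨(hZ x' hx').1, ?_⟩, hfr⟩, μ' / μ0,
    ⟨div_ne_zero hμ' hμ0, fun l => ?_⟩, fun i => ⟨fun hi => ?_, fun hi x' hx' => ?_⟩⟩
  · intro h hh
    obtain ⟨h0, hh0, rfl⟩ := Finset.mem_image.1 hh
    obtain ⟨n, hn⟩ := hG h0 hh0
    exact hzero x' hx' n _ (hn.map _) fun k => hg' k (Sum.inl ⟨h0, hh0⟩)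
  · exact hkey (e l) _ _ ((hf l).map _) (hw (Sum.inl l))
  · beta_reduce
    rw [dif_pos hi]
    have h1 := hkey (d i) _ _ (hhom i) (hw (Sum.inr ⟨i, hi⟩))
    have h2 : (Z.map (Gv g (ro π) (fun k => ((c k : ℤ) : ZMod p)) i)).prod = LVF.vp Z (R2_cb (ro π) g c i) := by
      unfold LVF.vp
      refine congrArg Multiset.prod (Multiset.map_congr rfl fun x' _ => ?_)
      exact hGv i x'
    rw [h2]
    exact h1
  · rw [hGv]
    exact hzero x' hx' (d i) _ (hhom i) fun k => hg' k (Sum.inr ⟨i, hi⟩)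

end LVG
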