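import Pool.Agent.Lib.MP_17a322_ntLF.N.NC
import Pool.Agent.Lib.MP_17a322_ntLF.N.N4
import Pool.Agent.Lib.MP_17a322_ntLZ.Defs
import Pool.Agent.Lib.MP_17a322_ntLY.F5
import Pool.Agent.Lib.MP_17a322_ntLZ.F5

/-!
# LEAF GR3: the norms of the values of the equations at an almost integral point of an extension

PROOF.  As `LVF.glob` (file `MP_17a322_ntLF/Glob.lean`): `α` from `LVN.alpha`, and `LVN.comps` with `S0 = S2 ∪ S.image (bel K)`, `W = Fin j ⊕ {i // i ∈ B}`, `c w` the value of the `w`-th component, `n w` its degree: `∑ w, n w = dg e d B` and `∏ w, c w = Dv f g B c x` (`Fintype.prod_sum_type`, `Finset.prod_coe_sort`), `LVZ.lam` and `LVN.lm` are the same by definition; `v (c w) ≤ (⨆ t, v (x t)) ^ n w` for the finite places `v` of `L` as in `LVY.aeval_le` (`MP_17a322_ntLY/F5.lean`; the coefficients are in the image of `𝓞 K`, so integral, and the `c k` are integers: the `i`-th component is the value of the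 form `∑ k, C (c k) * g k i` over `𝓞 K`, homogeneous of degree `d i`).
-/

namespace LVG

open NumberField

private theorem R3_ev {K L : Type} [Field K] [NumberField K] [Field L] [NumberField L] [Algebra K L] {q : ℕ} (x : Fin q → L)
    (h : MvPolynomial (Fin q) (𝓞 K)) :
    MvPolynomial.aeval x h = MvPolynomial.aeval x (MvPolynomial.map (algebraMap (𝓞 K) (𝓞 L)) h) := by
  rw [MvPolynomial.aeval_def, MvPolynomial.aeval_def, MvPolynomial.eval₂_map]
  rfl

open Classical in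
theorem globG {K : Type} [Field K] [NumberField K] (S2 : Finset (FinitePlace K))
    (hS2 : ∀ (ι : Type) [Fintype ι] (x : ι → K), x ≠ 0 →
      ∃ l : K, l ≠ 0 ∧ ∀ v : FinitePlace K, v ∉ S2 → (⨆ i, v (l * x i)) = 1)
    {L : Type} [Field L] [NumberField L] [Algebra K L] (S : Finset (FinitePlace L))
    {q j s N : ℕ} (e : Fin j → ℕ) (f : Fin j → MvPolynomial (Fin q) (𝓞 K)) (hf : ∀ l, (f l).IsHomogeneous (e l))
    (d : Fin s → ℕ) (B : Finset (Fin s)) (g : Fin N → Fin s → MvPolynomial (Fin q) (𝓞 K))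
    (hg : ∀ k i, (g k i).IsHomogeneous (d i)) (c : Fin N → ℤ) (x : Fin q → L) (hx : x ≠ 0)
    (hD : LVZ.Dv f g B c x ≠ 0) (b : ℝ)
    (hb : (LVZ.dg e d B : ℝ) * Height.logHeight x ≤
      (Module.finrank ℚ L : ℝ) * LVZ.mS S (LVZ.dg e d B) (LVZ.Dv f g B c x) x + b) :
    ∃ α : K, (∀ v : FinitePlace K, v ∉ S2 → v α = ∏ w ∈ LVN.fib L v, ⨆ i, w (x i)) ∧
      ∀ w : Fin j ⊕ {i // i ∈ B}, ∃ y : K, y ≠ 0 ∧
        Algebra.norm K (Sum.elim (fun l => MvPolynomial.aeval x (f l)) (fun i => LVZ.Fv g c i.1 x) w) =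
          α ^ (Sum.elim e (fun i => d i.1) w) * y ∧
        (∀ v : FinitePlace K, v ∉ S2 ∪ S.image (LVN.bel K) → v y ≤ 1) ∧
        (∑ᶠ v : FinitePlace K, if v ∈ S2 ∪ S.image (LVN.bel K) then 0 else - Real.log (v y)) ≤ b := by
  obtain ⟨α, hα, hαv⟩ := LVN.alpha S2 hS2 x hx
  obtain ⟨z, hz⟩ : ∃ z : Fin j ⊕ {i // i ∈ B} → L,
      z = Sum.elim (fun l => MvPolynomial.aeval x (f l)) (fun i => LVZ.Fv g c i.1 x) := ⟨_, rfl⟩
  obtain ⟨n, hn⟩ : ∃ n : Fin j ⊕ {i // i ∈ B} → ℕ, n = Sum.elim e (fun i => d i.1) := ⟨_, rfl⟩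
  have hprod : ∏ w, z w = LVZ.Dv f g B c x := by
    rw [hz, Fintype.prod_sum_type, LVZ.Dv]
    congr 1
    exact Finset.prod_coe_sort B fun i => LVZ.Fv g c i x
  have hz0 : ∀ w, z w ≠ 0 := by
    rw [← hprod, Finset.prod_ne_zero_iff] at hD
    exact fun w => hD w (Finset.mem_univ w)
  have hsum : ∑ w, n w = LVZ.dg e d B := by
    rw [hn, Fintype.sum_sum_type, LVZ.dg]
    congr 1
    exact Finset.sum_coe_sort B d
  have hT' : ∀ w ∈ S, LVN.bel K w ∈ S2 ∪ S.image (LVN.bel K) := by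
    intro w hw
    exact Finset.mem_union_right _ (Finset.mem_image_of_mem _ hw)
  have hv : ∀ (v : FinitePlace L) (w : Fin j ⊕ {i // i ∈ B}), v (z w) ≤ (⨆ i, v (x i)) ^ n w := by
    intro v w
    rw [hz, hn]
    rcases w with l | i
    · show v (MvPolynomial.aeval x (f l)) ≤ (⨆ i, v (x i)) ^ e l
      rw [R3_ev]
      exact LVY.aeval_le v ((hf l).map _) x
    · show v (LVZ.Fv g c i.1 x) ≤ (⨆ i, v (x i)) ^ d i.1
      have h1 : LVZ.Fv g c i.1 x = LVZ.Fv (fun k i => MvPolynomial.map (algebraMap (𝓞 K) (𝓞 L)) (g k i)) c i.1 x := by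
        unfold LVZ.Fv
        refine Finset.sum_congr rfl fun k _ => ?_
        rw [R3_ev]
      rw [h1]
      exact LVZ.Fv_le (fun k i => (hg k i).map _) c i.1 v x
  have hB' : ((∑ w, n w : ℕ) : ℝ) * Height.logHeight x ≤
      (∑ v : InfinitePlace L, (v.mult : ℝ) * LVN.lm v.1 (∑ w, n w) (∏ w, z w) x +
        ∑ v ∈ S, LVN.lm v.1 (∑ w, n w) (∏ w, z w) x) + b := by
    rw [hsum, hprod]
    have hL : (Module.finrank ℚ L : ℝ) ≠ 0 := Nat.cast_ne_zero.2 Module.finrank_pos.ne'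
    have hm : (Module.finrank ℚ L : ℝ) * LVZ.mS S (LVZ.dg e d B) (LVZ.Dv f g B c x) x =
        ∑ v : InfinitePlace L, (v.mult : ℝ) * LVZ.lam v.1 (LVZ.dg e d B) (LVZ.Dv f g B c x) x +
          ∑ v ∈ S, LVZ.lam v.1 (LVZ.dg e d B) (LVZ.Dv f g B c x) x := by
      rw [LVZ.mS]
      exact mul_div_cancel₀ _ hL
    rw [hm] at hb
    exact hb
  refine ⟨α, hαv, fun w => ?_⟩
  obtain ⟨h1, h2⟩ := LVN.comps (K := K) (S := S) (S0 := S2 ∪ S.image (LVN.bel K)) hT' hx n z hz0 hv hα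
    (fun v hv => hαv v fun h => hv (Finset.mem_union_left _ h)) hB' w
  rw [← hz, ← hn]
  refine ⟨Algebra.norm K (z w) / α ^ n w, ?_, ?_, h1, h2⟩
  · exact div_ne_zero (Algebra.norm_ne_zero_iff.2 (hz0 w)) (pow_ne_zero _ hα)
  · rw [mul_div_cancel₀ _ (pow_ne_zero _ hα)]

end LVG
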