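import Pool.Agent.Lib.MP_17a322_ntLG.R2
import Pool.Agent.Lib.MP_17a322_ntLG.R3
import Pool.Agent.Lib.MP_17a322_ntLF.N.N1
import Pool.Agent.Lib.MP_17a322_ntLZ.E1
import Pool.Agent.Lib.MP_17a322_ntLH.F1

/-!
# LEAF GR4: assembly over the engine

PROOF.  `δ`, `η` from `LVZ.engine K`, `S2` from `LVH.scale K` (file `MP_17a322_ntLH/F1.lean`: the property `hS2` of `globG`).  Let `c`, `p0` be as in `LDG` (`h`), `W = Fin j ⊕ {i // i ∈ B}`, `m = card W`, `ε : Fin m ≃ W`.  Apply `engine` with `m`, `N`, `S2`, `κ = c`, `p0` and `R p π y = {c | ∃ _ : Fact p.Prime, RG ρ (G.image (map (ro π))) e (fun l => map (ro π) (f l)) d B (fun l => algebraMap (y (ε.symm (inl l)))) (fun i => if h : i ∈ B then algebraMap (y (ε.symm (inr ⟨i, h⟩))) else 0) (Gv g (ro π) c)}`; its density is at most `1 - κ` by `LDG` (`algebraMap (ZMod p) (Kb p)` is injective, so these values are `≠ 0` exactly for `i ∈ B`).  This gives `c0`, `C`; put `c₀ = c0 / (ρ * finrank ℚ K + 1)` (so `c₀ ≤ c0`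 and `c₀ * finrank ℚ L ≤ c0` for `finrank K L ≤ ρ`, as `finrank ℚ L = finrank ℚ K * finrank K L`).
For a given `H`, let `Q T c` be: there are `L`, `S`, `x` with the properties of the statement, the negation of the inequality, and `T = S.image (bel K)`.  If the inner statement fails for `c`, there are such `L`, `S`, `x`, and `T = S.image (bel K)` satisfies `T.card ≤ S.card ≤ (log H) ^ η` and `∑ v ∈ T, log N v ≤ ∑ w ∈ S, log N w ≤ c₀ log H ≤ c0 log H` (`LVN.bel_norm`, and each element of `T` is the image of an element of `S`: `Finset.sum_image_le_of_nonneg`-like), so `engine` applies.  If `Q T c` then `x ≠ 0` (`Dv = 0` at `x = 0`: `j + B.card ≥ 1`, and one of the factors is the value at `0` of a form of degree `≥ 1`), multiply the inequality by `finrank ℚ L`: `dg * logHeight x ≤ finrank ℚ L * mS + c0 * log H`.  `globG` gives `α` and the `y w`; at a place `π` as in `engine` (with its `v ∉ S2 ∪ T`, so `v α = ∏ ..`) `locG` gives the local condition (`hGx`: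 the image of `h ∈ G` in `K[X]` is in `P`; `hC`).
-/

namespace LVG

open Finset NumberField

/-- the number of the vectors of a box with a property -/
private theorem R4_mono {N : ℕ} (H : ℕ) (Q Q' : (Fin N → ℤ) → Prop) (h : ∀ c, Q c → Q' c) :
    (Nat.card {c : Fin N → ℤ // (∀ k, |c k| ≤ (H : ℤ)) ∧ Q c} : ℝ) ≤
      (Nat.card {c : Fin N → ℤ // (∀ k, |c k| ≤ (H : ℤ)) ∧ Q' c} : ℝ) := by
  classical
  rw [MWS.VM_card, MWS.VM_card]
  exact_mod_cast card_le_card (monotone_filter_right _ fun c _ hc => h c hc)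

/-- the local sets -/
private def R4_R {K : Type} [Field K] [NumberField K] {q j s N : ℕ} (ρ : ℕ) (G : Finset (MvPolynomial (Fin q) (𝓞 K)))
    (e : Fin j → ℕ) (f : Fin j → MvPolynomial (Fin q) (𝓞 K)) (d : Fin s → ℕ) (B : Finset (Fin s))
    (g : Fin N → Fin s → MvPolynomial (Fin q) (𝓞 K)) (p : ℕ) (π : LVH.Pl K p) (y : Fin (j + s) → ZMod p) :
    Set (Fin N → ZMod p) :=
  {c | ∃ _ : Fact p.Prime, RG ρ (G.image (MvPolynomial.map (LVX.ro π))) e
    (fun l => MvPolynomial.map (LVX.ro π) (f l)) d B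
    (fun l => algebraMap (ZMod p) (LVF.Kb p) (y (Fin.castAdd s l)))
    (fun i => if i ∈ B then algebraMap (ZMod p) (LVF.Kb p) (y (Fin.natAdd j i)) else 0) (LVF.Gv g (LVX.ro π) c)}

private theorem R4_zero1 {R L : Type} [CommRing R] [CommRing L] [Algebra R L] {q n : ℕ}
    {h : MvPolynomial (Fin q) R} (hh : h.IsHomogeneous n) (hn : 1 ≤ n) :
    MvPolynomial.aeval (0 : Fin q → L) h = 0 := by
  have h1 : MvPolynomial.constantCoeff h = 0 := by
    rw [MvPolynomial.constantCoeff_eq]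
    refine hh.coeff_eq_zero ?_
    rw [map_zero]
    omega
  have h2 : MvPolynomial.aeval (0 : Fin q → L) h = algebraMap R L (MvPolynomial.constantCoeff h) :=
    MvPolynomial.aeval_zero h
  rw [h2, h1, map_zero]

/-- the value at `0` -/
private theorem R4_zero {K L : Type} [Field K] [NumberField K] [Field L] [NumberField L] [Algebra K L] {q j s N : ℕ}
    (e : Fin j → ℕ) (he : ∀ l, 1 ≤ e l) (f : Fin j → MvPolynomial (Fin q) (𝓞 K)) (hf : ∀ l, (f l).IsHomogeneous (e l))
    (d : Fin s → ℕ) (hd : ∀ i, 1 ≤ d i) (B : Finset (Fin s)) (g : Fin N → Fin s → MvPolynomial (Fin q) (𝓞 K))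
    (hg : ∀ k i, (g k i).IsHomogeneous (d i)) (hB : 1 ≤ j + B.card) (c : Fin N → ℤ) (x : Fin q → L)
    (hD : LVZ.Dv f g B c x ≠ 0) : x ≠ 0 := by
  rintro rfl
  apply hD
  unfold LVZ.Dv
  rcases Nat.eq_zero_or_pos j with hj | hj
  · obtain ⟨i, hi⟩ : B.Nonempty := by
      rw [← card_pos]
      omega
    rw [mul_eq_zero]
    refine Or.inr (prod_eq_zero hi ?_)
    unfold LVZ.Fv
    refine sum_eq_zero fun k _ => ?_
    rw [R4_zero1 (hg k i) (hd i), mul_zero]
  · rw [mul_eq_zero]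
    exact Or.inl (prod_eq_zero (mem_univ (⟨0, hj⟩ : Fin j)) (R4_zero1 (hf _) (he _)))

open Classical in
/-- the places below -/
private theorem R4_below {K L : Type} [Field K] [NumberField K] [Field L] [NumberField L] [Algebra K L]
    (S : Finset (FinitePlace L)) : (S.image (LVN.bel K)).card ≤ S.card ∧
      ∑ v ∈ S.image (LVN.bel K), Real.log (Ideal.absNorm v.maximalIdeal.asIdeal : ℝ) ≤
        ∑ w ∈ S, Real.log (Ideal.absNorm w.maximalIdeal.asIdeal : ℝ) := by
  refine ⟨card_image_le, ?_⟩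
  have h1 : ∀ v : FinitePlace K, 0 ≤ Real.log (Ideal.absNorm v.maximalIdeal.asIdeal : ℝ) := fun v =>
    Real.log_natCast_nonneg _
  calc ∑ v ∈ S.image (LVN.bel K), Real.log (Ideal.absNorm v.maximalIdeal.asIdeal : ℝ)
      ≤ ∑ w ∈ S, Real.log (Ideal.absNorm (LVN.bel K w).maximalIdeal.asIdeal : ℝ) := by
        rw [← sum_fiberwise_of_maps_to (fun w hw => mem_image_of_mem (LVN.bel K) hw)
          (fun w => Real.log (Ideal.absNorm (LVN.bel K w).maximalIdeal.asIdeal : ℝ))]
        refine sum_le_sum fun v hv => ?_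
        obtain ⟨w, hw, rfl⟩ := mem_image.1 hv
        exact single_le_sum (f := fun w => Real.log (Ideal.absNorm (LVN.bel K w).maximalIdeal.asIdeal : ℝ))
          (fun w' _ => h1 _) (mem_filter.2 ⟨hw, rfl⟩)
    _ ≤ ∑ w ∈ S, Real.log (Ideal.absNorm w.maximalIdeal.asIdeal : ℝ) := by
        refine sum_le_sum fun w _ => ?_
        have h2 : 0 < Ideal.absNorm (LVN.bel K w).maximalIdeal.asIdeal := Nat.pos_of_ne_zero
          (Ideal.absNorm_eq_zero_iff.not.mpr (LVN.bel K w).maximalIdeal.ne_bot)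
        exact Real.log_le_log (by exact_mod_cast h2) (by exact_mod_cast LVN.bel_norm (K := K) w)

theorem asmG (K : Type) [Field K] [NumberField K] : ∃ δ η : ℝ, 0 < δ ∧ 0 < η ∧ ∀ (ρ q j s N : ℕ)
    (P : Ideal (MvPolynomial (Fin q) K)) (G : Finset (MvPolynomial (Fin q) (𝓞 K))), (∀ h ∈ G, ∃ n, h.IsHomogeneous n) →
      (∀ h ∈ G, MvPolynomial.map (algebraMap (𝓞 K) K) h ∈ P) → ∀ (e : Fin j → ℕ), (∀ l, 1 ≤ e l) →
        ∀ f : Fin j → MvPolynomial (Fin q) (𝓞 K), (∀ l, (f l).IsHomogeneous (e l)) → ∀ d : Fin s → ℕ, (∀ i, 1 ≤ d i) →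
          ∀ (B : Finset (Fin s)) (g : Fin N → Fin s → MvPolynomial (Fin q) (𝓞 K)), (∀ k i, (g k i).IsHomogeneous (d i)) →
            1 ≤ j + B.card → LDG ρ G e f d B g → ∃ c₀ C : ℝ, 0 < c₀ ∧ ∀ H : ℕ, 1 ≤ H →
              (Nat.card {c : Fin N → ℤ // (∀ k, |c k| ≤ (H : ℤ)) ∧ ¬ ∀ (L : Type) [Field L] [NumberField L] [Algebra K L],
                Module.finrank K L ≤ ρ → ∀ S : Finset (FinitePlace L), (S.card : ℝ) ≤ Real.log H ^ η →
                  ∑ w ∈ S, Real.log (Ideal.absNorm w.maximalIdeal.asIdeal : ℝ) ≤ c₀ * Real.log H → ∀ x : Fin q → L,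
                    (∀ h ∈ P, MvPolynomial.aeval x h = 0) → (∀ i ∉ B, LVZ.Fv g c i x = 0) → LVZ.Dv f g B c x ≠ 0 →
                      LVZ.mS S (LVZ.dg e d B) (LVZ.Dv f g B c x) x <
                        LVZ.dg e d B * (Height.logHeight x / Module.finrank ℚ L) - c₀ * Real.log H} : ℝ) ≤
                          C * (H : ℝ) ^ ((N : ℝ) - δ) := by
  classical
  obtain ⟨δ, η, hδ, hη, heng⟩ := LVZ.engine K
  refine ⟨δ, η, hδ, hη, fun ρ q j s N P G hGh hGP e he f hf d hd B g hg hB hld => ?_⟩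
  obtain ⟨κ, hκ, hκ1, p0, hp0⟩ := hld
  obtain ⟨S2, -, hsc⟩ := LVH.scale K ∅
  obtain ⟨c1, C, hc10, hmain⟩ := heng (j + s) N S2 κ hκ hκ1.le p0 (R4_R ρ G e f d B g) (by
    intro p hp hpp π y hy
    have h2 : R4_R ρ G e f d B g p π y = {c | RG ρ (G.image (MvPolynomial.map (LVX.ro π))) e
        (fun l => MvPolynomial.map (LVX.ro π) (f l)) d B
        (fun l => algebraMap (ZMod p) (LVF.Kb p) (y (Fin.castAdd s l)))
        (fun i => if i ∈ B then algebraMap (ZMod p) (LVF.Kb p) (y (Fin.natAdd j i)) else 0)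
        (LVF.Gv g (LVX.ro π) c)} := by
      ext c
      exact ⟨fun ⟨_, h⟩ => h, fun h => ⟨hp, h⟩⟩
    rw [h2]
    refine hp0 p hpp (LVX.ro π) _ (fun l => (map_ne_zero _).2 (hy _)) _ fun i => ?_
    by_cases hi : i ∈ B
    · rw [if_pos hi]
      exact ⟨fun _ => hi, fun _ => (map_ne_zero _).2 (hy _)⟩
    · rw [if_neg hi]
      exact ⟨fun h => absurd rfl h, fun h => absurd h hi⟩)
  have hn : (0 : ℝ) < (Module.finrank ℚ K : ℝ) := by exact_mod_cast (Module.finrank_pos : 0 < Module.finrank ℚ K)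
  obtain ⟨c0, hc0⟩ : ∃ c0 : ℝ, c0 = c1 / ((ρ : ℝ) * Module.finrank ℚ K + 1) := ⟨_, rfl⟩
  have hden : (1 : ℝ) ≤ (ρ : ℝ) * Module.finrank ℚ K + 1 := by
    have : (0 : ℝ) ≤ (ρ : ℝ) * Module.finrank ℚ K := by positivity
    linarith
  have hc00 : 0 < c0 := by rw [hc0]; positivity
  have hc01 : c0 ≤ c1 := by rw [hc0]; exact div_le_self hc10.le hden
  refine ⟨c0, C, hc00, fun H hH => ?_⟩
  have hHr : (1 : ℝ) ≤ H := by exact_mod_cast hH
  have hHl : 0 ≤ Real.log H := Real.log_nonneg hHr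
  refine le_trans ?_ (hmain H hH (fun T c => ∃ (L : Type) (_ : Field L) (_ : NumberField L) (_ : Algebra K L)
    (S : Finset (FinitePlace L)) (x : Fin q → L), Module.finrank K L ≤ ρ ∧ T = S.image (LVN.bel K) ∧
      (∀ h ∈ P, MvPolynomial.aeval x h = 0) ∧ (∀ i ∉ B, LVZ.Fv g c i x = 0) ∧ LVZ.Dv f g B c x ≠ 0 ∧
        LVZ.dg e d B * (Height.logHeight x / Module.finrank ℚ L) - c0 * Real.log H ≤
          LVZ.mS S (LVZ.dg e d B) (LVZ.Dv f g B c x) x) ?_)
  · refine R4_mono H _ _ fun c hc h => hc fun L _ _ _ hL S hSc hSl x hxP hxB hxD => ?_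
    obtain ⟨b1, b2⟩ := R4_below (K := K) S
    have h1 := h (S.image (LVN.bel K)) (le_trans (by exact_mod_cast b1) hSc)
      (b2.trans (hSl.trans (mul_le_mul_of_nonneg_right hc01 hHl)))
    by_contra h2
    exact h1 ⟨L, inferInstance, inferInstance, inferInstance, S, x, hL, rfl, hxP, hxB,
      hxD, not_lt.1 h2⟩
  · rintro T c - ⟨L, _, _, _, S, x, hL, hST, hxP, hxB, hxD, hxm⟩
    have hx0 : x ≠ 0 := R4_zero e he f hf d hd B g hg hB c x hxD
    have hLpos : (0 : ℝ) < (Module.finrank ℚ L : ℝ) := by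
      exact_mod_cast (Module.finrank_pos : 0 < Module.finrank ℚ L)
    have hLle : (Module.finrank ℚ L : ℝ) * c0 ≤ c1 := by
      have h1 : Module.finrank ℚ K * Module.finrank K L = Module.finrank ℚ L := Module.finrank_mul_finrank ℚ K L
      have h2 : (Module.finrank ℚ L : ℝ) ≤ (ρ : ℝ) * Module.finrank ℚ K + 1 := by
        rw [← h1]
        push_cast
        have h3 : (Module.finrank K L : ℝ) ≤ ρ := by exact_mod_cast hL
        nlinarith
      rw [hc0, ← mul_div_assoc, div_le_iff₀ (by linarith)]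
      rw [mul_comm]
      exact mul_le_mul_of_nonneg_left h2 hc10.le
    obtain ⟨α, hα, hcomp⟩ := globG S2 hsc S e f hf d B g hg c x hx0 hxD (c1 * Real.log H) (by
      have h5 := mul_le_mul_of_nonneg_left hxm hLpos.le
      have h6 : (Module.finrank ℚ L : ℝ) * (LVZ.dg e d B * (Height.logHeight x / Module.finrank ℚ L) - c0 * Real.log H) =
          LVZ.dg e d B * Height.logHeight x - (Module.finrank ℚ L : ℝ) * c0 * Real.log H := by
        field_simp
      rw [h6] at h5
      have h7 := mul_le_mul_of_nonneg_right hLle hHl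
      linarith)
    rw [← hST] at hcomp
    choose Y hY0 hYN hY1 hYs using hcomp
    obtain ⟨yy, hy1, hy2⟩ : ∃ yy : Fin (j + s) → K, (∀ t, yy (Fin.castAdd s t) = Y (Sum.inl t)) ∧
        ∀ i, yy (Fin.natAdd j i) = if h : i ∈ B then Y (Sum.inr ⟨i, h⟩) else 1 :=
      ⟨Fin.append (fun t => Y (Sum.inl t)) (fun i => if h : i ∈ B then Y (Sum.inr ⟨i, h⟩) else 1),
        fun t => Fin.append_left _ _ t, fun i => Fin.append_right _ _ i⟩
    refine ⟨yy, fun w => ?_, ?_⟩
    · induction w using Fin.addCases with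
      | left t =>
        rw [hy1]
        exact ⟨hY0 _, hY1 _, hYs _⟩
      | right i =>
        rw [hy2]
        by_cases hi : i ∈ B
        · rw [dif_pos hi]
          exact ⟨hY0 _, hY1 _, hYs _⟩
        · rw [dif_neg hi]
          refine ⟨one_ne_zero, fun v _ => by rw [map_one], ?_⟩
          have h1 : (∑ᶠ v : FinitePlace K, if v ∈ S2 ∪ T then 0 else - Real.log (v (1 : K))) = 0 := by
            refine finsum_eq_zero_of_forall_eq_zero fun v => ?_
            rw [map_one, Real.log_one, neg_zero, ite_self]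
          rw [h1]
          positivity
    · rintro p hp hpp π ⟨v, hvT, hv1, hvV⟩ hu
      refine ⟨hp, ?_⟩
      have hyV : ∀ w, Y w ∈ π.V := by
        intro w
        rcases w with t | ⟨i, hi⟩
        · rw [← hy1]
          exact (hu _).1
        · have h1 := (hu (Fin.natAdd j i)).1
          rwa [hy2, dif_pos hi] at h1
      have hvS2 : v ∉ S2 := fun h => hvT (mem_union_left _ h)
      have h1 := locG π v hv1 hvV ρ hL G hGh e f hf d B g hg c x hx0 (fun h hh => by
        have h2 := hxP _ (hGP h hh)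
        rwa [MvPolynomial.aeval_map_algebraMap] at h2) hxB α (hα v hvS2) Y hyV hYN
      have h2 : (fun l => algebraMap (ZMod p) (LVF.Kb p) (LVH.res π (yy (Fin.castAdd s l)))) =
          fun l => algebraMap (ZMod p) (LVF.Kb p) (LVH.res π (Y (Sum.inl l))) := by
        funext l
        rw [hy1]
      have h3 : (fun i => if i ∈ B then algebraMap (ZMod p) (LVF.Kb p) (LVH.res π (yy (Fin.natAdd j i))) else 0) =
          fun i => if h : i ∈ B then algebraMap (ZMod p) (LVF.Kb p) (LVH.res π (Y (Sum.inr ⟨i, h⟩))) else 0 := by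
        funext i
        by_cases hi : i ∈ B
        · rw [if_pos hi, dif_pos hi, hy2, dif_pos hi]
        · rw [if_neg hi, dif_neg hi]
      show RG ρ (G.image (MvPolynomial.map (LVX.ro π))) e (fun l => MvPolynomial.map (LVX.ro π) (f l)) d B
        (fun l => algebraMap (ZMod p) (LVF.Kb p) (LVH.res π (yy (Fin.castAdd s l))))
        (fun i => if i ∈ B then algebraMap (ZMod p) (LVF.Kb p) (LVH.res π (yy (Fin.natAdd j i))) else 0)
        (LVF.Gv g (LVX.ro π) _)
      rw [h2, h3]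
      exact h1

end LVG
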